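import Pool.Agent.H85B.LangJ
import Pool.Agent.H69A.Core

/-!
# H85B/CoreJ: the abstract theorem

Module `H85B/CoreJ`. Let `P` be a predicate of the class `D`; `LocChk` gives the table `F` and the constant `c₁`.
Put `c = c₁ + 1` and let `s a` be the least `s` with `Nat.size a + 1 ≤ (s + 1) ^ J`; then
`(s a + 1) ^ J ≤ 2 ^ J * (Nat.size a + 1)`. The message with the parameter `s` is
`f s y = F (y % 2 ^ (s + 1) ^ J, y / 2 ^ (s + 1) ^ J)` (`msgJ`, with exponents cut off at `Nat.size y`). The language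
`LJ J c f` is in `D` (`Pr.LJ`), the hypothesis gives `Q`, `A`, `c'`. For `s ≥ s₀` (`fam_ok`, and `hl` for the
constant of `nJ_le`), with `n = nJ J c s`: `Adv (2 ^ n) ((s + 1) ^ (J - 1)) ...` (`Adv.mono` in `lam`), `adv_pad`
gives a padding `p < 2 ^ n` with `Adv M (lmj J J s)` (`lmj J J s = (s + 1) ^ (J - 1) + 1`) for the received word
`r ↦ Q (2 ^ n + (r + M * p), A n)`, and `Sc.Ok` gives an advice `u' < V ≤ 2 ^ vb` with
`dec R u' y ↔ f s y` for all `y < 2 ^ K`, `K = c * (s + 1) ^ J`. Everything is packed in one number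
`u = A n + 2 ^ B * (p + 2 ^ B * u')` with `B = W * (s + 1) ^ J` for a constant `W`. The table
`G (u, a, t) := dec (R_u) u' (a + 2 ^ (s + 1) ^ J * t)`, `s = s a`, is the table `F` for the right `u`
(`a < 2 ^ (s + 1) ^ J`, `t < 2 ^ (c₁ * (Nat.size a + 1)) ≤ 2 ^ (c₁ * (s + 1) ^ J)`), so for `s a ≥ s₀`:
`P a ↔ ∃ u < 2 ^ (3 * W * (s a + 1) ^ J), ok (u, a) ∧ out (u, a)`. For `s a < s₀` we have
`a < 2 ^ (s₀ + 1) ^ J`: a finite table (`Pr_finex`). Compare `core2` in `H69B/Core`.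
-/

set_option autoImplicit false

namespace LSA

open LSC

/-- the message -/
def msgJ (J : ℕ) (F : ℕ × ℕ → Prop) (s y : ℕ) : Prop :=
  F (y % 2 ^ min ((s + 1) ^ J) (Nat.size y), y / 2 ^ min ((s + 1) ^ J) (Nat.size y))

theorem msgJ_iff (J : ℕ) (F : ℕ × ℕ → Prop) (s y : ℕ) :
    msgJ J F s y ↔ F (y % 2 ^ (s + 1) ^ J, y / 2 ^ (s + 1) ^ J) := by
  unfold msgJ
  by_cases h : (s + 1) ^ J ≤ Nat.size y
  · rw [min_eq_left h]
  · push Not at h
    have h2 : y < 2 ^ Nat.size y := Nat.lt_size_self y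
    have h3 : y < 2 ^ (s + 1) ^ J := h2.trans_le (Nat.pow_le_pow_right (by norm_num) h.le)
    rw [min_eq_right h.le, Nat.mod_eq_of_lt h2, Nat.div_eq_of_lt h2, Nat.mod_eq_of_lt h3,
      Nat.div_eq_of_lt h3]

theorem Fn.npow {C : NClass} [Calc C] {α : Type} [Ctx α] {f : α → ℕ} (hf : Fn C f) (J : ℕ) :
    Fn C (fun a => f a ^ J) := by
  induction J with
  | zero =>
    simp only [pow_zero]
    fun_prop
  | succ J ih =>
    simp only [pow_succ]
    fun_prop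

theorem Pr.msgJ {C : NClass} [Calc C] (J : ℕ) {F : ℕ × ℕ → Prop} (hF : Pr C F) :
    Pr C (fun q : ℕ × ℕ => msgJ J F q.1 q.2) := by
  have h0 : Fn C (fun q : ℕ × ℕ => (q.1 + 1) ^ J) := Fn.npow (by fun_prop) J
  have h2 : Fn C (fun q : ℕ × ℕ => 2 ^ min ((q.1 + 1) ^ J) (Nat.size q.2)) :=
    Fn.pow2 (by fun_prop) 1 fun q => by
      obtain ⟨s, y⟩ := q
      rw [sz_prod, sz_nat, sz_nat]
      show min ((s + 1) ^ J) (Nat.size y) ≤ _
      omega
  exact hF.comp (f := fun q : ℕ × ℕ => (q.2 % 2 ^ min ((q.1 + 1) ^ J) (Nat.size q.2),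
    q.2 / 2 ^ min ((q.1 + 1) ^ J) (Nat.size q.2))) (by fun_prop)

/-! ### the agreement -/

theorem agr_comm (M : ℕ) (R W : ℕ → Prop) : agr M R W = agr M W R := by
  classical
  unfold agr
  refine congrArg Finset.card (Finset.filter_congr fun x _ => ?_)
  exact ⟨fun h => h.symm, fun h => h.symm⟩

theorem Adv.symm {M lam : ℕ} {R W : ℕ → Prop} (h : Adv M lam R W) : Adv M lam W R := by
  unfold Adv at h ⊢
  rw [agr_comm]
  exact h

theorem Adv.mono {M lam lam' : ℕ} {R W : ℕ → Prop} (h : Adv M lam R W) (hl : lam ≤ lam') :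
    Adv M lam' R W := by
  unfold Adv at h ⊢
  exact h.trans (Nat.mul_le_mul_right _ (Nat.pow_le_pow_right (by norm_num) hl))

theorem Adv.congr {M lam : ℕ} {R W R' W' : ℕ → Prop} (h : Adv M lam R W)
    (hR : ∀ x < M, (R' x ↔ R x)) (hW : ∀ x < M, (W' x ↔ W x)) : Adv M lam R' W' := by
  classical
  unfold Adv at h ⊢
  have : agr M R' W' = agr M R W := by
    unfold agr
    refine congrArg Finset.card (Finset.filter_congr fun x hx => ?_)
    rw [hR x (Finset.mem_range.mp hx), hW x (Finset.mem_range.mp hx)]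
  rw [this]
  exact h

/-! ### the parameter of a number -/

/-- the least `s` with `Nat.size a + 1 ≤ (s + 1) ^ J` -/
noncomputable def sj (J a : ℕ) : ℕ :=
  LSC.mu (Nat.size a + 1) fun s => Nat.size a + 1 ≤ (s + 1) ^ J

theorem sj_lt {J : ℕ} (hJ : 1 ≤ J) (a : ℕ) : sj J a < Nat.size a + 1 := by
  by_contra h
  push Not at h
  have h1 : ¬ Nat.size a + 1 ≤ (Nat.size a + 1) ^ J :=
    mu_min (n := Nat.size a + 1) (p := fun s => Nat.size a + 1 ≤ (s + 1) ^ J) (i := Nat.size a)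
      (by unfold sj at h; omega)
  exact h1 (Nat.le_self_pow (by omega) _)

theorem sj_spec {J : ℕ} (hJ : 1 ≤ J) (a : ℕ) : Nat.size a + 1 ≤ (sj J a + 1) ^ J :=
  mu_spec (sj_lt hJ a)

theorem sj_le {J : ℕ} (a : ℕ) : (sj J a + 1) ^ J ≤ 2 ^ J * (Nat.size a + 1) := by
  rcases Nat.eq_zero_or_pos (sj J a) with h | h
  · rw [h]
    simp only [zero_add, one_pow]
    exact Nat.mul_pos (pow_pos (by norm_num) _) (by omega)
  · have h1 : ¬ Nat.size a + 1 ≤ (sj J a - 1 + 1) ^ J :=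
      mu_min (n := Nat.size a + 1) (p := fun s => Nat.size a + 1 ≤ (s + 1) ^ J)
        (i := sj J a - 1) (by unfold sj at h ⊢; omega)
    rw [Nat.sub_add_cancel h] at h1
    calc (sj J a + 1) ^ J ≤ (2 * sj J a) ^ J := Nat.pow_le_pow_left (by omega) _
      _ = 2 ^ J * sj J a ^ J := mul_pow _ _ _
      _ ≤ 2 ^ J * (Nat.size a + 1) := Nat.mul_le_mul_left _ (by omega)

theorem fn_sj {C : NClass} [Calc C] (J : ℕ) : Fn C (sj J) := by
  unfold sj
  have h0 : Fn C (fun q : ℕ × ℕ => (q.2 + 1) ^ J) := Fn.npow (by fun_prop) J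
  exact Fn.mu (n := fun a => Nat.size a + 1) (p := fun a s => Nat.size a + 1 ≤ (s + 1) ^ J)
    (by fun_prop) (by fun_prop)

theorem coreJ {C D : NClass} [Calc C] [Calc D] (hl : LocChk C D) {J : ℕ} (hJ : 2 ≤ J)
    {l : ℕ → ℕ} (hlJ : ∀ c, ∃ s₀, ∀ s ≥ s₀, ∀ n ≤ c * (s + 1) ^ J, l n ≤ (s + 1) ^ (J - 1))
    (h : AvgL l C D) (P : ℕ → Prop) (hP : Pr D P) : Pr C P := by
  classical
  obtain ⟨F, c₁, hF, hG⟩ := hl P hP
  obtain ⟨c, hc⟩ : ∃ c, c = c₁ + 1 := ⟨_, rfl⟩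
  obtain ⟨Q, A, c', hQ, hA, hav⟩ := h (LJ J c (msgJ J F)) (Pr.LJ hJ c (Pr.msgJ J hF))
  obtain ⟨s₁, hs₁⟩ := fam_ok hJ c le_rfl
  obtain ⟨Cn, hCn⟩ := nJ_le hJ c
  obtain ⟨s₂, hs₂⟩ := hlJ Cn
  obtain ⟨Cv, hCv⟩ := vb_le hJ c (j := J) le_rfl
  have hdfb := fam_dfb hJ c (j := J) le_rfl
  obtain ⟨W, hW⟩ : ∃ W, W = c' * (Cn + 1) + Cn + Cv := ⟨_, rfl⟩
  -- the advice for a parameter
  have hadv : ∀ s, s₁ ≤ s → s₂ ≤ s → ∃ u < 2 ^ (3 * (W * (s + 1) ^ J)), ∀ y < 2 ^ (c * (s + 1) ^ J),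
      ((fam J c J s).dec (fun r => Q (2 ^ nJ J c s + (r + (fam J c J s).M *
          (u / 2 ^ (W * (s + 1) ^ J) % 2 ^ (W * (s + 1) ^ J))), u % 2 ^ (W * (s + 1) ^ J)))
        (u / 2 ^ (W * (s + 1) ^ J) / 2 ^ (W * (s + 1) ^ J)) y ↔ msgJ J F s y) := by
    intro s hs1 hs2
    obtain ⟨n, hn⟩ : ∃ n, n = nJ J c s := ⟨_, rfl⟩
    obtain ⟨M, hM⟩ : ∃ M, M = (fam J c J s).M := ⟨_, rfl⟩
    have hM0 : 0 < M := by rw [hM]; exact M_pos J c J s
    have hMn : M * 2 ^ ((s + 1) ^ (J - 1) + 1) ≤ 2 ^ n := by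
      have h1 := M_le J c J s
      rw [← hM] at h1
      calc M * 2 ^ ((s + 1) ^ (J - 1) + 1)
          ≤ 2 ^ (fam J c J s).nb * 2 ^ ((s + 1) ^ (J - 1) + 1) := Nat.mul_le_mul_right _ h1
        _ = 2 ^ n := by
          rw [← pow_add, hn]
          rfl
    have e1 : Adv (2 ^ n) ((s + 1) ^ (J - 1)) (fun x => Q (2 ^ n + x, A n))
        (fun x => (fam J c J s).enc (msgJ J F s) (x % M)) := by
      refine ((hav n).symm.mono (hs₂ s hs2 n (by rw [hn]; exact hCn s))).congr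
        (fun x _ => Iff.rfl) fun x hx => ?_
      rw [hn] at hx ⊢
      rw [hM]
      exact (LJ_iff hJ c (msgJ J F) hx).symm
    obtain ⟨p, hp, e2⟩ := adv_pad hM0 hMn _ _ e1
    have e3 : Adv (fam J c J s).M (fam J c J s).lam
        (fun r => Q (2 ^ n + (r + M * p), A n)) ((fam J c J s).enc (msgJ J F s)) := by
      rw [← hM, lam_eq]
      have : lmj J J s = (s + 1) ^ (J - 1) + 1 := by
        unfold lmj
        omega
      rw [this]
      exact e2
    have e4 := hs₁ s hs1 _ _ e3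
    have e5 : ∃ u' < (fam J c J s).V, ∀ y < 2 ^ (fam J c J s).K,
        ((fam J c J s).dec (fun r => Q (2 ^ n + (r + M * p), A n)) u' y ↔ msgJ J F s y) := by
      have h1 := V_pos J c J s
      by_contra hcon
      push Not at hcon
      rw [Finset.filter_false_of_mem, Finset.card_empty, mul_zero] at e4
      · omega
      · intro u' hu' h2
        obtain ⟨y, hy, h3⟩ := hcon u' (Finset.mem_range.mp hu')
        have h4 := h2 y hy
        tauto
    obtain ⟨u', hu', e6⟩ := e5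
    rw [K_eq hJ] at e6
    -- sizes
    obtain ⟨X, hX⟩ : ∃ X, X = 2 ^ (W * (s + 1) ^ J) := ⟨_, rfl⟩
    have hs1' : 1 ≤ (s + 1) ^ J := Nat.one_le_pow _ _ (by omega)
    have hX1 : ∀ m, m ≤ W * (s + 1) ^ J → 2 ^ m ≤ X := fun m hm => by
      rw [hX]
      exact Nat.pow_le_pow_right (by norm_num) hm
    have hnC : n ≤ Cn * (s + 1) ^ J := by
      rw [hn]
      exact hCn s
    have b1 : A n < X := by
      refine (Nat.lt_size_self _).trans_le (hX1 _ ((hA n).trans ?_))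
      calc c' * (n + 1) ≤ c' * (Cn * (s + 1) ^ J + (s + 1) ^ J) :=
            Nat.mul_le_mul_left _ (by omega)
        _ = c' * (Cn + 1) * (s + 1) ^ J := by ring
        _ ≤ W * (s + 1) ^ J := Nat.mul_le_mul_right _ (by omega)
    have b2 : p < X := by
      refine hp.trans_le (hX1 _ (hnC.trans (Nat.mul_le_mul_right _ ?_)))
      rw [hW]
      omega
    have b3 : u' < X := by
      refine hu'.trans_le ((V_le J c J s).trans (hX1 _ ((hCv s).trans (Nat.mul_le_mul_right _ ?_))))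
      omega
    have hX0 : 0 < X := by omega
    refine ⟨A n + X * (p + X * u'), ?_, ?_⟩
    · have : 2 ^ (3 * (W * (s + 1) ^ J)) = X * (X * X) := by
        rw [hX, ← pow_add, ← pow_add]
        congr 1
        ring
      rw [this]
      have d1 : p + X * u' + 1 ≤ X * X := by
        have : X * (u' + 1) ≤ X * X := Nat.mul_le_mul_left _ b3
        rw [Nat.mul_add, mul_one] at this
        omega
      have d2 := Nat.mul_le_mul_left X d1
      rw [Nat.mul_add, mul_one] at d2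
      omega
    · intro y hy
      rw [← hX, ← hn, ← hM]
      have f1 : (A n + X * (p + X * u')) % X = A n := by
        rw [Nat.add_mul_mod_self_left, Nat.mod_eq_of_lt b1]
      have f2 : (A n + X * (p + X * u')) / X = p + X * u' := by
        rw [Nat.add_mul_div_left _ _ hX0, Nat.div_eq_of_lt b1, zero_add]
      have f3 : (p + X * u') % X = p := by
        rw [Nat.add_mul_mod_self_left, Nat.mod_eq_of_lt b2]
      have f4 : (p + X * u') / X = u' := by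
        rw [Nat.add_mul_div_left _ _ hX0, Nat.div_eq_of_lt b2, zero_add]
      rw [f2, f3, f4, f1]
      exact e6 y hy
  -- definability
  have hsC : ∀ {α : Type} [Ctx α] {a : α → ℕ}, Fn C a → Fn C (fun q => sj J (a q)) :=
    fun ha => (fn_sj J).comp ha
  have hLin : ∀ {α : Type} [Ctx α] {a : α → ℕ}, Fn C a → Lin J (fun q => sj J (a q)) := by
    intro α _ a ha
    refine Lin.comp (C := C) (s := sj J) ⟨2 ^ J, fun x => ?_⟩ ha
    rw [sz_nat]
    exact sj_le x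
  have hpow : ∀ {α : Type} [Ctx α] {a : α → ℕ} (w : ℕ), Fn C a →
      Fn C (fun q => 2 ^ (w * (sj J (a q) + 1) ^ J)) := by
    intro α _ a w ha
    obtain ⟨c, hc⟩ := hLin ha
    refine Fn.pow2 ?_ (w * c) fun q => ?_
    · exact Fn.mul (by fun_prop) (Fn.npow (Fn.add (hsC ha) (by fun_prop)) J)
    · rw [mul_assoc]
      exact Nat.mul_le_mul_left _ (hc q)
  have hpown : ∀ {α : Type} [Ctx α] {a : α → ℕ}, Fn C a →
      Fn C (fun q => 2 ^ nJ J c (sj J (a q))) := by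
    intro α _ a ha
    obtain ⟨c, hc⟩ := hLin ha
    refine Fn.pow2 ((fn_nJ hJ _ C).comp (hsC ha)) (Cn * c) fun q => ?_
    rw [mul_assoc]
    exact (hCn _).trans (Nat.mul_le_mul_left _ (hc q))
  have hGC : Pr C (fun q : ℕ × ℕ × ℕ => (fam J c J (sj J q.2.1)).dec
      (fun r => Q (2 ^ nJ J c (sj J q.2.1) + (r + (fam J c J (sj J q.2.1)).M *
          (q.1 / 2 ^ (W * (sj J q.2.1 + 1) ^ J) % 2 ^ (W * (sj J q.2.1 + 1) ^ J))),
        q.1 % 2 ^ (W * (sj J q.2.1 + 1) ^ J)))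
      (q.1 / 2 ^ (W * (sj J q.2.1 + 1) ^ J) / 2 ^ (W * (sj J q.2.1 + 1) ^ J))
      (q.2.1 + 2 ^ (1 * (sj J q.2.1 + 1) ^ J) * q.2.2)) := by
    have g1 : Fn C (fun q : ℕ × ℕ × ℕ => q.2.1) := by fun_prop
    have g2 := hpow W g1
    have g3 := hpow 1 g1
    refine hdfb.dec C (ℕ × ℕ × ℕ) (fun q => sj J q.2.1)
      (fun q => q.1 / 2 ^ (W * (sj J q.2.1 + 1) ^ J) / 2 ^ (W * (sj J q.2.1 + 1) ^ J))
      (fun q => q.2.1 + 2 ^ (1 * (sj J q.2.1 + 1) ^ J) * q.2.2)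
      (fun q r => Q (2 ^ nJ J c (sj J q.2.1) + (r + (fam J c J (sj J q.2.1)).M *
          (q.1 / 2 ^ (W * (sj J q.2.1 + 1) ^ J) % 2 ^ (W * (sj J q.2.1 + 1) ^ J))),
        q.1 % 2 ^ (W * (sj J q.2.1 + 1) ^ J))) (hsC g1) (hLin g1) (by fun_prop) (by fun_prop) ?_
    have k1 : Fn C (fun q : (ℕ × ℕ × ℕ) × ℕ => q.1.2.1) := by fun_prop
    have k2 := hpow W k1
    have k3 := hpown k1
    have k4 := hdfb.M C ((ℕ × ℕ × ℕ) × ℕ) (fun q => sj J q.1.2.1) (hsC k1) (hLin k1)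
    exact hQ.comp (f := fun q : (ℕ × ℕ × ℕ) × ℕ =>
      (2 ^ nJ J c (sj J q.1.2.1) + (q.2 + (fam J c J (sj J q.1.2.1)).M *
          (q.1.1 / 2 ^ (W * (sj J q.1.2.1 + 1) ^ J) % 2 ^ (W * (sj J q.1.2.1 + 1) ^ J))),
        q.1.1 % 2 ^ (W * (sj J q.1.2.1 + 1) ^ J))) (by fun_prop)
  obtain ⟨ok, out, hok, hout, h1, h2⟩ := hG _ hGC
  have hJ1 : 1 ≤ J := by omega
  have hgood : ∀ a, s₁ ≤ sj J a → s₂ ≤ sj J a →
      ∃ u < 2 ^ (3 * (W * (sj J a + 1) ^ J)), ok (u, a) := by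
    intro a ha1 ha2
    obtain ⟨u, hu, hu2⟩ := hadv (sj J a) ha1 ha2
    refine ⟨u, hu, h2 _ _ fun t ht => ?_⟩
    show (fam J c J (sj J a)).dec (fun r => Q (2 ^ nJ J c (sj J a) + (r +
        (fam J c J (sj J a)).M * (u / 2 ^ (W * (sj J a + 1) ^ J) % 2 ^ (W * (sj J a + 1) ^ J))),
          u % 2 ^ (W * (sj J a + 1) ^ J)))
      (u / 2 ^ (W * (sj J a + 1) ^ J) / 2 ^ (W * (sj J a + 1) ^ J))
      (a + 2 ^ (1 * (sj J a + 1) ^ J) * t) ↔ F (a, t)
    have h3 := sj_spec hJ1 a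
    have ha : a < 2 ^ (sj J a + 1) ^ J :=
      (Nat.lt_size_self a).trans_le (Nat.pow_le_pow_right (by norm_num) (by omega))
    have ht' : t < 2 ^ (c₁ * (sj J a + 1) ^ J) :=
      ht.trans_le (Nat.pow_le_pow_right (by norm_num) (Nat.mul_le_mul_left _ h3))
    rw [one_mul]
    have hy : a + 2 ^ (sj J a + 1) ^ J * t < 2 ^ (c * (sj J a + 1) ^ J) := by
      have h5 : 2 ^ (sj J a + 1) ^ J * (t + 1) ≤
          2 ^ (sj J a + 1) ^ J * 2 ^ (c₁ * (sj J a + 1) ^ J) := Nat.mul_le_mul_left _ ht'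
      rw [← pow_add, Nat.mul_add, mul_one] at h5
      have h6 : (sj J a + 1) ^ J + c₁ * (sj J a + 1) ^ J = c * (sj J a + 1) ^ J := by
        rw [hc]
        ring
      rw [h6] at h5
      omega
    rw [hu2 _ hy, msgJ_iff, Nat.add_mul_mod_self_left, Nat.mod_eq_of_lt ha,
      Nat.add_mul_div_left _ _ (by positivity), Nat.div_eq_of_lt ha, zero_add]
  -- the search for the advice
  obtain ⟨s₀, hs₀⟩ : ∃ s₀, s₀ = max s₁ s₂ := ⟨_, rfl⟩
  have key : ∀ a, P a ↔ (sj J a < s₀ ∧ ∃ i : Fin (2 ^ (s₀ + 1) ^ J), P i ∧ a = i) ∨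
      (s₀ ≤ sj J a ∧ ∃ u < 2 ^ (3 * W * (sj J a + 1) ^ J), ok (u, a) ∧ out (u, a)) := by
    intro a
    constructor
    · intro hPa
      rcases Nat.lt_or_ge (sj J a) s₀ with h3 | h3
      · left
        refine ⟨h3, ⟨a, ?_⟩, hPa, rfl⟩
        have h4 := sj_spec hJ1 a
        have h5 : (sj J a + 1) ^ J ≤ (s₀ + 1) ^ J := Nat.pow_le_pow_left (by omega) _
        exact (Nat.lt_size_self a).trans_le (Nat.pow_le_pow_right (by norm_num) (by omega))
      · right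
        obtain ⟨u, hu, hu2⟩ := hgood a (by omega) (by omega)
        refine ⟨h3, u, ?_, hu2, (h1 _ _ hu2).2 hPa⟩
        rw [mul_assoc]
        exact hu
    · rintro (⟨-, i, hi, rfl⟩ | ⟨-, u, -, h3, h4⟩)
      · exact hi
      · exact (h1 _ _ h3).1 h4
  refine Pr.congr ?_ key
  have g0 : Fn C (fun a : ℕ => a) := by fun_prop
  have g1 := hsC g0
  refine Pr.or (Pr.and (Pr.lt g1 (by fun_prop)) ?_) (Pr.and (Pr.le (by fun_prop) g1) ?_)
  · exact Pr_finex fun i => (Pr.const _).and (by fun_prop)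
  · refine Pr.ex (n := fun a => 2 ^ (3 * W * (sj J a + 1) ^ J))
      (p := fun a u => ok (u, a) ∧ out (u, a)) (hpow _ g0) ?_
    exact (hok.comp (f := fun p : ℕ × ℕ => (p.2, p.1)) (by fun_prop)).and
      (hout.comp (f := fun p : ℕ × ℕ => (p.2, p.1)) (by fun_prop))

end LSA
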