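import Pool.Agent.H69B.Defs
import Pool.Agent.H85P.Lift

/-!
# H85B: agreement `1 / 2 + 2 ^ (- n ^ (1 - η))` (MP_b7da94_lc)

An encoding scheme (`Sc`) has messages of `2 ^ K` bits (predicates on the numbers below `2 ^ K`), `M` words
(the codeword of `f` is the predicate `enc f` on the numbers below `M`) and `V` advices. It is correct (`Sc.Ok`)
if, for every received word `R` which agrees with `enc f` on a fraction of at least
`1 / 2 + 2 ^ (- lam) / 2` of the words, at least a fraction `2 ^ (- mu)` of the advices `u` give the message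
(`dec R u`). The base scheme is the Hadamard code (`had`). In the scheme `level S₁` the message is extended to
a polynomial of low degree on `F_q ^ d`; the words are `(z, v, x)`, where `(z, v)` is a line, and the values on
this line are encoded by the scheme `S₁`, at `x`. Points of `F_q ^ d` are numbers below `q ^ d` (digits `dg q`).
-/

set_option autoImplicit false

namespace LSA

open LSC

/-! ### The level -/

/-- the bits of the values at `t < 2 ^ w'` of the extension of `f` on the line `z + t v`; the bit `k` of the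
value at `t` has the number `t + 2 ^ w' * k` -/
noncomputable def tup (q d w w' : ℕ) (f : ℕ → Prop) (z v i : ℕ) : Prop :=
  bt (lq q d w f (lp q d z v (i % 2 ^ w'))) (i / 2 ^ w') = 1

/-- the part of the received word which belongs to the line `(z, v)` -/
def rin (P : ℕ) (R : ℕ → Prop) (z v x : ℕ) : Prop := R (z + P * (v + P * x))

open Classical in
/-- the value at `t` given by the bits `B` -/
noncomputable def tval (q β w' : ℕ) (B : ℕ → Prop) (t : ℕ) : ℕ :=
  (∑ k ∈ Finset.range β, if B (t + 2 ^ w' * k) then 2 ^ k else 0) % q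

/-- the value at `τ` of the polynomial of degree below `2 ^ w'` with these values -/
noncomputable def teval (q β w' : ℕ) (B : ℕ → Prop) (τ : ℕ) : ℕ :=
  (∑ t ∈ Finset.range (2 ^ w'), del q w' t τ * tval q β w' B t) % q

/-- the direction of the line which is at `x₀` at `τ₀` and at `x` at `τ₁` -/
noncomputable def ldir (q d x₀ τ₀ τ₁ x : ℕ) : ℕ :=
  ∑ j ∈ Finset.range d,
    (((dg q x j + (q - dg q x₀ j)) * inv q (τ₁ + (q - τ₀))) % q) * q ^ j

/-- the point of this line at `0` -/
noncomputable def lbas (q d x₀ τ₀ τ₁ x : ℕ) : ℕ := lp q d x₀ (ldir q d x₀ τ₀ τ₁ x) (q - τ₀)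

/-- The table `B` (`B z v` are the bits for the line `(z, v)`) has the value `v₀` at `x₀` on the line through
`x₀` and `x`. -/
def gdef (q d β w' : ℕ) (B : ℕ → ℕ → ℕ → Prop) (x₀ τ₀ τ₁ v₀ x : ℕ) : Prop :=
  teval q β w' (B (lbas q d x₀ τ₀ τ₁ x) (ldir q d x₀ τ₀ τ₁ x)) τ₀ = v₀

/-- the value of the table `B` at `x` on the line through `x₀` and `x` -/
noncomputable def gval (q d β w' : ℕ) (B : ℕ → ℕ → ℕ → Prop) (x₀ τ₀ τ₁ x : ℕ) : ℕ :=
  teval q β w' (B (lbas q d x₀ τ₀ τ₁ x) (ldir q d x₀ τ₀ τ₁ x)) τ₁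

/-- the point `y + t z + t ^ 2 v`, where the coordinates of `y` are its digits in base `2 ^ w` -/
def cpt (q d w y z v t : ℕ) : ℕ :=
  ∑ j ∈ Finset.range d, ((dgt w y j + t * dg q z j + t * t * dg q v j) % q) * q ^ j

open Classical in
/-- the value at `0` of the polynomial of least degree with the value `g t` at `t + 1` for all `t < m` with
`D t` -/
noncomputable def itp (q m : ℕ) (D : ℕ → Prop) (g : ℕ → ℕ) : ℕ :=
  (∑ t ∈ Finset.range m, if D t then g t * ((∏ u ∈ Finset.range m,
    if D u ∧ u ≠ t then (u + 1) * inv q (u + 1 + (q - (t + 1))) else 1) % q) else 0) % q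

open Classical in
/-- the message given by the partial function `g` (defined where `D` holds): the value at `y` is `1` for more
than half of the curves -/
def cdec (q d w m : ℕ) (D : ℕ → Prop) (g : ℕ → ℕ) (y : ℕ) : Prop :=
  q ^ d * q ^ d < 2 * ((Finset.range (q ^ d * q ^ d)).filter fun x =>
    itp q m (fun t => D (cpt q d w y (x % q ^ d) (x / q ^ d) (t + 1)))
      (fun t => g (cpt q d w y (x % q ^ d) (x / q ^ d) (t + 1))) = 1).card

/-! ### Schemes -/

/-- an encoding scheme; `nb` and `vb` are the exponents of powers of two above `M` and `V` -/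
structure Sc where
  K : ℕ
  M : ℕ
  V : ℕ
  lam : ℕ
  mu : ℕ
  nb : ℕ
  vb : ℕ
  enc : (ℕ → Prop) → ℕ → Prop
  dec : (ℕ → Prop) → ℕ → ℕ → Prop

open Classical in
/-- the number of the `x < M` with `R x ↔ W x` -/
noncomputable def agr (M : ℕ) (R W : ℕ → Prop) : ℕ :=
  ((Finset.range M).filter fun x => R x ↔ W x).card

/-- the agreement is at least `1 / 2 + 2 ^ (- lam) / 2` -/
def Adv (M lam : ℕ) (R W : ℕ → Prop) : Prop := M ≤ 2 ^ lam * (2 * agr M R W - M)

open Classical in
/-- correctness -/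
def Sc.Ok (S : Sc) : Prop := ∀ f R : ℕ → Prop, Adv S.M S.lam R (S.enc f) →
  S.V ≤ 2 ^ S.mu * ((Finset.range S.V).filter fun u => ∀ y < 2 ^ S.K, (S.dec R u y ↔ f y)).card

open Classical in
/-- the Hadamard code of the message `f` of `l` bits -/
def hde (l : ℕ) (f : ℕ → Prop) (r : ℕ) : Prop :=
  ((Finset.range l).filter fun i => f i ∧ bt r i = 1).card % 2 = 1

open Classical in
/-- the Hadamard scheme for messages of `2 ^ K` bits -/
noncomputable def had (K lam : ℕ) : Sc where
  K := K
  M := 2 ^ 2 ^ K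
  V := 2 ^ (2 * lam)
  lam := lam
  mu := 2 * lam
  nb := 2 ^ K
  vb := 2 * lam
  enc f r := hde (2 ^ K) f r
  dec R u y := ∃ m < 2 ^ 2 ^ K, Adv (2 ^ 2 ^ K) lam R (hde (2 ^ K) fun i => bt m i = 1) ∧
    ((Finset.range m).filter fun m' =>
      Adv (2 ^ 2 ^ K) lam R (hde (2 ^ K) fun i => bt m' i = 1)).card = u ∧ bt m y = 1

/-! ### The parameters of a level; `mu₁` is the parameter `mu` of the inner scheme -/

/-- the exponent of the fraction of the lines with a correct table -/
def kap (lam mu₁ : ℕ) : ℕ := lam + 2 + mu₁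

/-- the number of bits of `t` -/
def wpr (d w : ℕ) : ℕ := w + Nat.size d

/-- the number of bits of the values -/
def bet (lam mu₁ d w : ℕ) : ℕ := 2 * kap lam mu₁ + 2 * wpr d w + 13

/-- the prime number -/
noncomputable def prm (b : ℕ) : ℕ := LSC.mu (2 ^ b + 1) fun i => 2 ^ (b - 1) ≤ i ∧ i.Prime

/-- the number of points on a curve -/
def mpt (lam mu₁ d w : ℕ) : ℕ := 2 ^ (kap lam mu₁ + wpr d w + 6)

/-- the decoder of a level -/
noncomputable def ldec (S₁ : Sc) (q d w w' β m : ℕ) (R : ℕ → Prop) (u y : ℕ) : Prop :=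
  cdec q d w m
    (gdef q d β w' (fun z v => S₁.dec (rin (q ^ d) R z v) (u / q ^ d / q / q / q)) (u % q ^ d)
      (u / q ^ d % q) (u / q ^ d / q % q) (u / q ^ d / q / q % q))
    (gval q d β w' (fun z v => S₁.dec (rin (q ^ d) R z v) (u / q ^ d / q / q / q)) (u % q ^ d)
      (u / q ^ d % q) (u / q ^ d / q % q)) y

/-- the level over the scheme `S₁`: `d` coordinates of `w` bits -/
noncomputable def level (S₁ : Sc) (lam d w : ℕ) : Sc where
  K := w * d
  M := prm (bet lam S₁.mu d w) ^ d * prm (bet lam S₁.mu d w) ^ d * S₁.M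
  V := prm (bet lam S₁.mu d w) ^ d * prm (bet lam S₁.mu d w) * prm (bet lam S₁.mu d w) *
    prm (bet lam S₁.mu d w) * S₁.V
  lam := lam
  mu := 2 * kap lam S₁.mu + 3 + bet lam S₁.mu d w
  nb := 2 * d * bet lam S₁.mu d w + S₁.nb
  vb := (d + 3) * bet lam S₁.mu d w + S₁.vb
  enc f x := S₁.enc (tup (prm (bet lam S₁.mu d w)) d w (wpr d w) f
      (x % prm (bet lam S₁.mu d w) ^ d)
      (x / prm (bet lam S₁.mu d w) ^ d % prm (bet lam S₁.mu d w) ^ d))
    (x / prm (bet lam S₁.mu d w) ^ d / prm (bet lam S₁.mu d w) ^ d)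
  dec R u y := ldec S₁ (prm (bet lam S₁.mu d w)) d w (wpr d w) (bet lam S₁.mu d w)
    (mpt lam S₁.mu d w) R u y

/-! ### The family of schemes; `σ = s + 1` -/

/-- the parameter `lam` at the level `j` (of `J`) -/
def lmj (J j s : ℕ) : ℕ := (s + 1) ^ (J - 1) + 1 + (J - j)

/-- the number of bits of a coordinate at the level `j + 1` (of `J`) -/
def wj (J c j s : ℕ) : ℕ := (c + (J - (j + 1))) * (s + 1) ^ j

/-- the index length of the Hadamard scheme at the bottom -/
def K0 (J c s : ℕ) : ℕ :=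
  wpr (s + 1) (wj J c 0 s) + Nat.size (bet (lmj J 1 s) (2 * lmj J 0 s) (s + 1) (wj J c 0 s))

/-- the scheme of the level `j` (of `J`) -/
noncomputable def fam (J c : ℕ) : ℕ → ℕ → Sc
  | 0, s => had (K0 J c s) (lmj J 0 s)
  | j + 1, s => level (fam J c j s) (lmj J (j + 1) s) (s + 1) (wj J c j s)

/-! ### Definability -/

/-- `(s a + 1) ^ J` is linear in the length of `a` -/
def Lin (J : ℕ) {α : Type} [Ctx α] (s : α → ℕ) : Prop := ∃ c, ∀ a, (s a + 1) ^ J ≤ c * (sz a + 1)

/-- the schemes `S s` are definable in every class in contexts in which `(s + 1) ^ J` is linear -/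
structure Dfb (J : ℕ) (S : ℕ → Sc) : Prop where
  K : ∀ (C : NClass) [Calc C], Fn C (fun s : ℕ => (S s).K)
  lam : ∀ (C : NClass) [Calc C], Fn C (fun s : ℕ => (S s).lam)
  mu : ∀ (C : NClass) [Calc C], Fn C (fun s : ℕ => (S s).mu)
  M : ∀ (C : NClass) [Calc C] (α : Type) [Ctx α] (s : α → ℕ), Fn C s → Lin J s →
    Fn C (fun a => (S (s a)).M)
  V : ∀ (C : NClass) [Calc C] (α : Type) [Ctx α] (s : α → ℕ), Fn C s → Lin J s →
    Fn C (fun a => (S (s a)).V)
  enc : ∀ (C : NClass) [Calc C] (α : Type) [Ctx α] (s x : α → ℕ) (f : α → ℕ → Prop), Fn C s →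
    Lin J s → Fn C x → Pr C (fun q : α × ℕ => f q.1 q.2) →
    Pr C (fun a => (S (s a)).enc (f a) (x a))
  dec : ∀ (C : NClass) [Calc C] (α : Type) [Ctx α] (s u y : α → ℕ) (R : α → ℕ → Prop), Fn C s →
    Lin J s → Fn C u → Fn C y → Pr C (fun q : α × ℕ => R q.1 q.2) →
    Pr C (fun a => (S (s a)).dec (R a) (u a) (y a))

/-- the word length for the parameter `s` -/
noncomputable def nJ (J c s : ℕ) : ℕ := (fam J c J s).nb + (s + 1) ^ (J - 1) + 1

/-- the parameter of the word `N` (a word of length `n` is a number in `[2 ^ n, 2 ^ (n + 1))`) -/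
noncomputable def sJ (J c N : ℕ) : ℕ := LSC.mu (Nat.size N) fun s => nJ J c s + 1 = Nat.size N

/-- the language: the codewords, with padding -/
noncomputable def LJ (J c : ℕ) (f : ℕ → ℕ → Prop) (N : ℕ) : Prop :=
  sJ J c N < Nat.size N ∧ (fam J c J (sJ J c N)).enc (f (sJ J c N))
    ((N - 2 ^ nJ J c (sJ J c N)) % (fam J c J (sJ J c N)).M)

/-- Every predicate of the class `D` agrees with a predicate of the class `C` with linear advice on a fraction
of at least `1 / 2 + 2 ^ (- l n) / 2` of the words of length `n`, for every `n`. -/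
def AvgL (l : ℕ → ℕ) (C D : NClass) : Prop := ∀ P : ℕ → Prop, Pr D P →
  ∃ (Q : ℕ × ℕ → Prop) (A : ℕ → ℕ) (c : ℕ), Pr C Q ∧ (∀ n, Nat.size (A n) ≤ c * (n + 1)) ∧
    ∀ n, Adv (2 ^ n) (l n) (fun x => P (2 ^ n + x)) (fun x => Q (2 ^ n + x, A n))

end LSA
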