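import Pool.Agent.H85B.FnQ

/-!
# H85B/FnHad: the Hadamard schemes are definable

Module `H85B/FnHad`. `hde`: `Fn.count` and `bt` (`LSC.Fn.bt` in `H85P/Lift`); `agr`: `Fn.count`; `Adv`: arithmetic;
`dec`: `Pr.ex` over `m < 2 ^ 2 ^ K`, `Fn.count` over `m' < m`. `2 ^ K` and `2 ^ 2 ^ K`, `2 ^ lam`, `2 ^ (2 * lam)` in
contexts with `Lin J s`: the exponents are linear by `hK`, `hl` (`Fn.two_powL`; `K s ≤ 2 ^ K s`).
-/

set_option autoImplicit false

namespace LSA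

open LSC

variable {C : NClass} [Calc C] {α : Type} [Ctx α]

theorem Ll.ofLinH {J : ℕ} {t : ℕ → ℕ} {s : α → ℕ} (h : ∃ c, ∀ s, t s ≤ c * (s + 1) ^ J)
    (hs : Lin J s) : Ll (fun a => t (s a)) := by
  obtain ⟨c, hc⟩ := h
  obtain ⟨c', hc'⟩ := hs
  refine ⟨c * c', fun a => (hc (s a)).trans ?_⟩
  calc c * (s a + 1) ^ J ≤ c * (c' * (sz a + 1)) := Nat.mul_le_mul_left _ (hc' a)
    _ = c * c' * (sz a + 1) := by ring

theorem Ll.monoH {t u : α → ℕ} (h : Ll u) (h2 : ∀ a, t a ≤ u a) : Ll t := by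
  obtain ⟨c, hc⟩ := h
  exact ⟨c, fun a => (h2 a).trans (hc a)⟩

protected theorem Pr.hde {l r : α → ℕ} {f : α → ℕ → Prop} (hl : Fn C l) (hr : Fn C r)
    (hf : Pr C (fun q : α × ℕ => f q.1 q.2)) :
    Pr C (fun a => hde (l a) (f a) (r a)) := by
  have h1 := Fn.count (p := fun a i => f a i ∧ bt (r a) i = 1) hl
    (Pr.and hf (Pr.eq (Fn.bt (hr.comp Fn.fst) Fn.snd) (Fn.const 1)))
  refine (Pr.eq (h1.mod (Fn.const 2)) (Fn.const 1)).congr fun a => ?_
  unfold hde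
  apply iff_of_eq
  congr

protected theorem Fn.agr {M : α → ℕ} {R W : α → ℕ → Prop} (hM : Fn C M)
    (hR : Pr C (fun q : α × ℕ => R q.1 q.2)) (hW : Pr C (fun q : α × ℕ => W q.1 q.2)) :
    Fn C (fun a => agr (M a) (R a) (W a)) := by
  have h1 := Fn.count (p := fun a i => R a i ↔ W a i) hM (Pr.iff hR hW)
  refine h1.congr fun a => ?_
  unfold agr
  congr

protected theorem Pr.Adv {M lam : α → ℕ} {R W : α → ℕ → Prop} (hM : Fn C M)
    (hl : Fn C (fun a => 2 ^ lam a))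
    (hR : Pr C (fun q : α × ℕ => R q.1 q.2)) (hW : Pr C (fun q : α × ℕ => W q.1 q.2)) :
    Pr C (fun a => Adv (M a) (lam a) (R a) (W a)) := by
  unfold Adv
  exact Pr.le hM (hl.mul (((Fn.const 2).mul (Fn.agr hM hR hW)).sub hM))

theorem Dfb.had {J : ℕ} {K lam : ℕ → ℕ} (fK : ∀ (C : NClass) [Calc C], Fn C K)
    (fl : ∀ (C : NClass) [Calc C], Fn C lam) (hK : ∃ c, ∀ s, 2 ^ K s ≤ c * (s + 1) ^ J)
    (hl : ∃ c, ∀ s, lam s ≤ c * (s + 1) ^ J) :
    Dfb J (fun s => LSA.had (K s) (lam s)) := by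
  have h2K : ∀ (C : NClass) [Calc C] (α : Type) [Ctx α] (s : α → ℕ), Fn C s → Lin J s →
      Fn C (fun a => 2 ^ K (s a)) := by
    intro C _ α _ s hs hL
    refine Fn.two_powL ((fK C).comp hs) ?_
    exact Ll.monoH (u := fun a => 2 ^ K (s a)) (Ll.ofLinH (t := fun s => 2 ^ K s) hK hL) fun a => Nat.lt_two_pow_self.le
  have h22K : ∀ (C : NClass) [Calc C] (α : Type) [Ctx α] (s : α → ℕ), Fn C s → Lin J s →
      Fn C (fun a => 2 ^ 2 ^ K (s a)) := by
    intro C _ α _ s hs hL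
    exact Fn.two_powL (h2K C α s hs hL) (Ll.ofLinH (t := fun s => 2 ^ K s) hK hL)
  have h2l : ∀ (C : NClass) [Calc C] (α : Type) [Ctx α] (s : α → ℕ), Fn C s → Lin J s →
      Fn C (fun a => 2 ^ lam (s a)) := by
    intro C _ α _ s hs hL
    exact Fn.two_powL ((fl C).comp hs) (Ll.ofLinH hl hL)
  refine ⟨fun C _ => fK C, fun C _ => fl C, fun C _ => (Fn.const 2).mul (fl C), ?_, ?_, ?_, ?_⟩
  · exact h22K
  · intro C _ α _ s hs hL
    have h : Fn C (fun a => 2 ^ (2 * lam (s a))) := by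
      refine Fn.two_powL ((Fn.const 2).mul ((fl C).comp hs)) ?_
      obtain ⟨c, hc⟩ := Ll.ofLinH hl hL
      exact ⟨2 * c, fun a => by rw [Nat.mul_assoc]; exact Nat.mul_le_mul_left _ (hc a)⟩
    exact h
  · intro C _ α _ s x f hs hL hx hf
    exact Pr.hde (h2K C α s hs hL) hx hf
  · intro C _ α _ s u y R hs hL hu hy hR
    classical
    have key : ∀ (β : Type) [Ctx β] (g : β → α) (m : β → ℕ), Fn C g → Fn C m →
        Pr C (fun b => Adv (2 ^ 2 ^ K (s (g b))) (lam (s (g b))) (R (g b))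
          (hde (2 ^ K (s (g b))) fun i => bt (m b) i = 1)) := by
      intro β _ g m hg hm
      refine Pr.Adv (α := β) (M := fun b => 2 ^ 2 ^ K (s (g b))) (lam := fun b => lam (s (g b)))
        (R := fun b => R (g b)) (W := fun b => hde (2 ^ K (s (g b))) fun i => bt (m b) i = 1)
        ((h22K C α s hs hL).comp hg) ((h2l C α s hs hL).comp hg) ?_ ?_
      · exact hR.comp ((hg.comp Fn.fst).pair Fn.snd)
      · refine Pr.hde (α := β × ℕ) (l := fun q => 2 ^ K (s (g q.1))) (r := fun q => q.2)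
          (f := fun q i => bt (m q.1) i = 1) (((h2K C α s hs hL).comp hg).comp Fn.fst) Fn.snd ?_
        exact Pr.eq (Fn.bt (hm.comp (Fn.fst.comp Fn.fst)) Fn.snd) (Fn.const 1)
    show Pr C (fun a => ∃ m < 2 ^ 2 ^ K (s a), Adv (2 ^ 2 ^ K (s a)) (lam (s a)) (R a)
        (hde (2 ^ K (s a)) fun i => bt m i = 1) ∧
      ((Finset.range m).filter fun m' => Adv (2 ^ 2 ^ K (s a)) (lam (s a)) (R a)
        (hde (2 ^ K (s a)) fun i => bt m' i = 1)).card = u a ∧ bt m (y a) = 1)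
    refine Pr.ex (h22K C α s hs hL) ?_
    refine Pr.and (key (α × ℕ) (fun q => q.1) (fun q => q.2) Fn.fst Fn.snd) (Pr.and ?_ ?_)
    · refine Pr.eq ?_ (hu.comp Fn.fst)
      refine Fn.count (α := α × ℕ) (n := fun q => q.2) Fn.snd ?_
      exact key ((α × ℕ) × ℕ) (fun q => q.1.1) (fun q => q.2) (Fn.fst.comp Fn.fst) Fn.snd
    · exact Pr.eq (Fn.bt Fn.snd (hy.comp Fn.fst)) (Fn.const 1)

end LSA
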