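import Pool.Agent.H85B.FnQ

/-!
# H85B/FnQ3: definability of the interpolation on curves

Module `H85B/FnQ3`. See the header of `H85B/FnQ`: `Fn.sum`, `Fn.prodmod` (`H69A/FnB`: the product in `itp` is taken
modulo `q`; in `cpt` the powers `q ^ j` with `min j d`), `Fn.inv`, `Fn.dgt`, `Fn.dg`, `Fn.count`.
-/

set_option autoImplicit false

namespace LSA

open LSC

variable {C : NClass} [Calc C] {α β : Type} [Ctx α] [Ctx β]

protected theorem Fn.cpt {q d w y z v t : α → ℕ} (hq : Fn C q) (hd : Fn C d) (hL : Ln q d)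
    (hw : Fn C w) (hy : Fn C y) (hz : Fn C z) (hv : Fn C v) (ht : Fn C t) :
    Fn C (fun a => cpt (q a) (d a) (w a) (y a) (z a) (v a) (t a)) := by
  have h1 : Fn C (fun a => ∑ j ∈ Finset.range (d a),
      ((dgt (w a) (y a) j + t a * dg (q a) (z a) j + t a * t a * dg (q a) (v a) j) % q a) *
        q a ^ min j (d a)) := by
    refine Fn.sum (f := fun a j =>
      ((dgt (w a) (y a) j + t a * dg (q a) (z a) j + t a * t a * dg (q a) (v a) j) % q a) *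
        q a ^ min j (d a)) hd ?_
    have hq' : Fn C (fun x : α × ℕ => q x.1) := hq.comp LSC.Fn.fst
    have hd' : Fn C (fun x : α × ℕ => d x.1) := hd.comp LSC.Fn.fst
    have hw' : Fn C (fun x : α × ℕ => w x.1) := hw.comp LSC.Fn.fst
    have hy' : Fn C (fun x : α × ℕ => y x.1) := hy.comp LSC.Fn.fst
    have hz' : Fn C (fun x : α × ℕ => z x.1) := hz.comp LSC.Fn.fst
    have hv' : Fn C (fun x : α × ℕ => v x.1) := hv.comp LSC.Fn.fst
    have ht' : Fn C (fun x : α × ℕ => t x.1) := ht.comp LSC.Fn.fst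
    have h2 : Fn C (fun x : α × ℕ => q x.1 ^ min x.2 (d x.1)) :=
      Fn.powLn (d := fun x : α × ℕ => d x.1) hq' (by fun_prop)
        (Ln.comp (C := C) hL LSC.Fn.fst) (fun x => min_le_right _ _)
    fun_prop
  exact h1.congr fun a => by
    unfold LSA.cpt
    refine Finset.sum_congr rfl fun j hj => ?_
    rw [min_eq_left (Finset.mem_range.mp hj).le]

protected theorem Fn.itp {q m : α → ℕ} {D : α → ℕ → Prop} {g : α → ℕ → ℕ} (hq : Fn C q)
    (hm : Fn C m) (h0 : ∀ a, 0 < q a) (hD : Pr C (fun p : α × ℕ => D p.1 p.2))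
    (hg : Fn C (fun p : α × ℕ => g p.1 p.2)) : Fn C (fun a => itp (q a) (m a) (D a) (g a)) := by
  classical
  unfold LSA.itp
  refine LSC.Fn.mod ?_ hq
  refine LSC.Fn.sum (n := m) (f := fun a t => if D a t then g a t *
    ((∏ u ∈ Finset.range (m a), if D a u ∧ u ≠ t then
      (u + 1) * inv (q a) (u + 1 + (q a - (t + 1))) else 1) % q a) else 0) hm ?_
  refine LSC.Fn.ite hD ?_ (LSC.Fn.const 0)
  refine LSC.Fn.mul hg ?_
  have hq1 : Fn C (fun x : α × ℕ => q x.1) := hq.comp LSC.Fn.fst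
  have hm1 : Fn C (fun x : α × ℕ => m x.1) := hm.comp LSC.Fn.fst
  refine Fn.prodmod (α := α × ℕ) (n := fun x => m x.1)
    (f := fun x u => if D x.1 u ∧ u ≠ x.2 then
      (u + 1) * inv (q x.1) (u + 1 + (q x.1 - (x.2 + 1))) else 1)
    (m := fun x => q x.1) hm1 ?_ hq1 (fun x => h0 x.1)
  have hq2 : Fn C (fun x : (α × ℕ) × ℕ => q x.1.1) := hq1.comp LSC.Fn.fst
  have hD2 : Pr C (fun x : (α × ℕ) × ℕ => D x.1.1 x.2) :=
    hD.comp (f := fun x : (α × ℕ) × ℕ => (x.1.1, x.2)) (by fun_prop)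
  refine LSC.Fn.ite ?_ ?_ (LSC.Fn.const 1)
  · exact hD2.and (LSC.Pr.not (LSC.Pr.eq (by fun_prop) (by fun_prop)))
  · fun_prop

protected theorem Pr.cdec {q d w m y : α → ℕ} {D : α → ℕ → Prop} {g : α → ℕ → ℕ} (hq : Fn C q)
    (hd : Fn C d) (hL : Ln q d) (hw : Fn C w) (hm : Fn C m) (h0 : ∀ a, 0 < q a)
    (hD : Pr C (fun p : α × ℕ => D p.1 p.2)) (hg : Fn C (fun p : α × ℕ => g p.1 p.2))
    (hy : Fn C y) : Pr C (fun a => cdec (q a) (d a) (w a) (m a) (D a) (g a) (y a)) := by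
  classical
  have hP : Fn C (fun a => q a ^ d a) := Fn.powLn hq hd hL (fun a => le_refl _)
  have hc : Fn C (fun a => ((Finset.range (q a ^ d a * q a ^ d a)).filter fun x =>
      itp (q a) (m a) (fun t => D a (cpt (q a) (d a) (w a) (y a) (x % q a ^ d a)
        (x / q a ^ d a) (t + 1)))
      (fun t => g a (cpt (q a) (d a) (w a) (y a) (x % q a ^ d a) (x / q a ^ d a)
        (t + 1))) = 1).card) := by
    refine LSC.Fn.congr (Fn.count (n := fun a => q a ^ d a * q a ^ d a) (p := fun a x =>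
      itp (q a) (m a) (fun t => D a (cpt (q a) (d a) (w a) (y a) (x % q a ^ d a)
        (x / q a ^ d a) (t + 1)))
      (fun t => g a (cpt (q a) (d a) (w a) (y a) (x % q a ^ d a) (x / q a ^ d a)
        (t + 1))) = 1) (LSC.Fn.mul hP hP) ?_) fun a => by congr
    have hq1 : Fn C (fun x : α × ℕ => q x.1) := hq.comp LSC.Fn.fst
    have hm1 : Fn C (fun x : α × ℕ => m x.1) := hm.comp LSC.Fn.fst
    have hq2 : Fn C (fun x : (α × ℕ) × ℕ => q x.1.1) := hq1.comp LSC.Fn.fst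
    have hd2 : Fn C (fun x : (α × ℕ) × ℕ => d x.1.1) :=
      (hd.comp LSC.Fn.fst : Fn C (fun x : α × ℕ => d x.1)).comp LSC.Fn.fst
    have hw2 : Fn C (fun x : (α × ℕ) × ℕ => w x.1.1) :=
      (hw.comp LSC.Fn.fst : Fn C (fun x : α × ℕ => w x.1)).comp LSC.Fn.fst
    have hy2 : Fn C (fun x : (α × ℕ) × ℕ => y x.1.1) :=
      (hy.comp LSC.Fn.fst : Fn C (fun x : α × ℕ => y x.1)).comp LSC.Fn.fst
    have hP2 : Fn C (fun x : (α × ℕ) × ℕ => q x.1.1 ^ d x.1.1) :=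
      (hP.comp LSC.Fn.fst : Fn C (fun x : α × ℕ => q x.1 ^ d x.1)).comp LSC.Fn.fst
    have hL2 : Ln (fun x : (α × ℕ) × ℕ => q x.1.1) (fun x => d x.1.1) :=
      Ln.comp (C := C) (Ln.comp (C := C) hL LSC.Fn.fst) LSC.Fn.fst
    have hcpt : Fn C (fun x : (α × ℕ) × ℕ => cpt (q x.1.1) (d x.1.1) (w x.1.1) (y x.1.1)
        (x.1.2 % q x.1.1 ^ d x.1.1) (x.1.2 / q x.1.1 ^ d x.1.1) (x.2 + 1)) := by
      refine Fn.cpt hq2 hd2 hL2 hw2 hy2 ?_ ?_ ?_
      · exact LSC.Fn.mod (by fun_prop) hP2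
      · exact LSC.Fn.div (by fun_prop) hP2
      · fun_prop
    refine LSC.Pr.eq ?_ (LSC.Fn.const 1)
    refine Fn.itp (α := α × ℕ) (q := fun x => q x.1) (m := fun x => m x.1)
      (D := fun x t => D x.1 (cpt (q x.1) (d x.1) (w x.1) (y x.1) (x.2 % q x.1 ^ d x.1)
        (x.2 / q x.1 ^ d x.1) (t + 1)))
      (g := fun x t => g x.1 (cpt (q x.1) (d x.1) (w x.1) (y x.1) (x.2 % q x.1 ^ d x.1)
        (x.2 / q x.1 ^ d x.1) (t + 1))) hq1 hm1 (fun x => h0 x.1) ?_ ?_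
    · exact hD.comp (f := fun x : (α × ℕ) × ℕ => (x.1.1, cpt (q x.1.1) (d x.1.1) (w x.1.1)
        (y x.1.1) (x.1.2 % q x.1.1 ^ d x.1.1) (x.1.2 / q x.1.1 ^ d x.1.1) (x.2 + 1)))
        (LSC.Fn.pair (by fun_prop) hcpt)
    · exact hg.comp (f := fun x : (α × ℕ) × ℕ => (x.1.1, cpt (q x.1.1) (d x.1.1) (w x.1.1)
        (y x.1.1) (x.1.2 % q x.1.1 ^ d x.1.1) (x.1.2 / q x.1.1 ^ d x.1.1) (x.2 + 1)))
        (LSC.Fn.pair (by fun_prop) hcpt)
  refine LSC.Pr.congr (LSC.Pr.lt (LSC.Fn.mul hP hP) (LSC.Fn.mul (LSC.Fn.const 2) hc)) fun a => ?_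
  unfold LSA.cdec
  apply Iff.of_eq
  congr

end LSA
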