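import Pool.Agent.H85B.FnQ2
import Pool.Agent.H85B.FnQ3

/-!
# H85B/FnLvl: the level over a definable family of schemes is definable

Module `H85B/FnLvl`. `Pr.ldec`: `Pr.cdec`, `Pr.gdef`, `Fn.gval` for the table
`B = fun z v => S₁.dec (rin (q ^ d) R z v) u₁`, i.e. `Pr C (fun p : α × ℕ × ℕ × ℕ => (S (s p.1)).dec (rin ...) ...)`
by `hS.dec` in the context `(α × ℕ × ℕ × ℕ)` (`Lin.comp`), with the received word
`Pr C (fun p : (α × ℕ × ℕ × ℕ) × ℕ => R p.1.1 (z + q ^ d * (v + q ^ d * p.2)))`, and the same for the context of the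
`x` of the partial function `(α × ℕ)`. `Fn C (fun a => q a ^ d a)`: `Fn.powLn`.
`Dfb.level`: in a context with `Lin J s` the parameters `β = bet ...`, `w'`, `w`, `w * d`, `κ + w' + 6` are `Ll`
(by `hw`, `hwd`, `hbd`, `Lin`), `q = prm β < 2 ^ β` so `Nat.size q ≤ β` and `Ln q d` holds (`hbd`).
-/

set_option autoImplicit false

namespace LSA

open LSC

theorem Dfb.level {J : ℕ} {S : ℕ → Sc} (hS : Dfb J S) {lam d w : ℕ → ℕ}
    (fl : ∀ (C : NClass) [Calc C], Fn C lam) (fd : ∀ (C : NClass) [Calc C], Fn C d)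
    (fw : ∀ (C : NClass) [Calc C], Fn C w) (hd : ∀ s, 1 ≤ d s)
    (hwd : ∃ c, ∀ s, w s * d s ≤ c * (s + 1) ^ J)
    (hbd : ∃ c, ∀ s, bet (lam s) (S s).mu (d s) (w s) * d s ≤ c * (s + 1) ^ J) :
    Dfb J (fun s => LSA.level (S s) (lam s) (d s) (w s)) := by
  classical
  obtain ⟨cw, hcw⟩ := hwd
  obtain ⟨cb, hcb⟩ := hbd
  -- parameters
  have fbet : ∀ (C : NClass) [Calc C],
      Fn C (fun s : ℕ => bet (lam s) (S s).mu (d s) (w s)) := by
    intro C _
    have h1 := fl C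
    have h2 := hS.mu C
    have h3 := fd C
    have h4 := fw C
    unfold bet kap wpr
    fun_prop
  have fwpr : ∀ (C : NClass) [Calc C], Fn C (fun s : ℕ => wpr (d s) (w s)) := by
    intro C _
    have h3 := fd C
    have h4 := fw C
    unfold wpr
    fun_prop
  have hβ2 : ∀ s, 2 ≤ bet (lam s) (S s).mu (d s) (w s) := by
    intro s
    unfold bet
    omega
  have hq0 : ∀ s, 0 < prm (bet (lam s) (S s).mu (d s) (w s)) := fun s => (prm_spec (hβ2 s)).1.pos
  have hβ : ∀ s, bet (lam s) (S s).mu (d s) (w s) ≤ cb * (s + 1) ^ J := by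
    intro s
    refine le_trans ?_ (hcb s)
    exact Nat.le_mul_of_pos_right _ (hd s)
  -- in a context
  have cBet : ∀ (C : NClass) [Calc C] (α : Type) [Ctx α] (s : α → ℕ), Fn C s → Lin J s →
      Ll (fun a => bet (lam (s a)) (S (s a)).mu (d (s a)) (w (s a))) := by
    intro C _ α _ s hs hl
    obtain ⟨c, hc⟩ := hl
    refine ⟨cb * c, fun a => ?_⟩
    calc _ ≤ cb * (s a + 1) ^ J := hβ _
      _ ≤ cb * (c * (sz a + 1)) := Nat.mul_le_mul_left _ (hc a)
      _ = _ := by ring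
  have cLn : ∀ (C : NClass) [Calc C] (α : Type) [Ctx α] (s : α → ℕ), Fn C s → Lin J s →
      Ln (fun a => prm (bet (lam (s a)) (S (s a)).mu (d (s a)) (w (s a))))
        (fun a => d (s a)) := by
    intro C _ α _ s hs hl
    obtain ⟨c, hc⟩ := hl
    refine ⟨cb * c, fun a => ?_⟩
    have h1 : Nat.size (prm (bet (lam (s a)) (S (s a)).mu (d (s a)) (w (s a)))) ≤
        bet (lam (s a)) (S (s a)).mu (d (s a)) (w (s a)) := by
      rw [Nat.size_le]
      exact (prm_spec (hβ2 _)).2.2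
    calc _ ≤ d (s a) * bet (lam (s a)) (S (s a)).mu (d (s a)) (w (s a)) :=
          Nat.mul_le_mul_left _ h1
      _ = bet (lam (s a)) (S (s a)).mu (d (s a)) (w (s a)) * d (s a) := mul_comm _ _
      _ ≤ cb * (s a + 1) ^ J := hcb _
      _ ≤ cb * (c * (sz a + 1)) := Nat.mul_le_mul_left _ (hc a)
      _ = _ := by ring
  have fq : ∀ (C : NClass) [Calc C] (α : Type) [Ctx α] (s : α → ℕ), Fn C s → Lin J s →
      Fn C (fun a => prm (bet (lam (s a)) (S (s a)).mu (d (s a)) (w (s a)))) := by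
    intro C _ α _ s hs hl
    exact Fn.prm ((fbet C).comp hs) (cBet C α s hs hl)
  have fqd : ∀ (C : NClass) [Calc C] (α : Type) [Ctx α] (s : α → ℕ), Fn C s → Lin J s →
      Fn C (fun a => prm (bet (lam (s a)) (S (s a)).mu (d (s a)) (w (s a))) ^ d (s a)) := by
    intro C _ α _ s hs hl
    exact Fn.powLn (d := fun a => d (s a)) (fq C α s hs hl) ((fd C).comp hs) (cLn C α s hs hl)
      (fun a => le_refl _)
  have cWpr : ∀ (C : NClass) [Calc C] (α : Type) [Ctx α] (s : α → ℕ), Fn C s → Lin J s →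
      Ll (fun a => wpr (d (s a)) (w (s a))) := by
    intro C _ α _ s hs hl
    obtain ⟨c, hc⟩ := cBet C α s hs hl
    refine ⟨c, fun a => le_trans ?_ (hc a)⟩
    unfold bet
    beta_reduce
    omega
  have cW : ∀ (C : NClass) [Calc C] (α : Type) [Ctx α] (s : α → ℕ), Fn C s → Lin J s →
      Ll (fun a => w (s a)) := by
    intro C _ α _ s hs hl
    obtain ⟨c, hc⟩ := cWpr C α s hs hl
    refine ⟨c, fun a => le_trans ?_ (hc a)⟩
    unfold wpr
    beta_reduce
    omega
  have cWd : ∀ (C : NClass) [Calc C] (α : Type) [Ctx α] (s : α → ℕ), Fn C s → Lin J s →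
      Ll (fun a => w (s a) * d (s a)) := by
    intro C _ α _ s hs hl
    obtain ⟨c, hc⟩ := hl
    refine ⟨cw * c, fun a => ?_⟩
    calc _ ≤ cw * (s a + 1) ^ J := hcw _
      _ ≤ cw * (c * (sz a + 1)) := Nat.mul_le_mul_left _ (hc a)
      _ = _ := by ring
  have fm : ∀ (C : NClass) [Calc C] (α : Type) [Ctx α] (s : α → ℕ), Fn C s → Lin J s →
      Fn C (fun a => mpt (lam (s a)) (S (s a)).mu (d (s a)) (w (s a))) := by
    intro C _ α _ s hs hl
    have h1 : Fn C (fun s : ℕ => kap (lam s) (S s).mu + wpr (d s) (w s) + 6) := by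
      have h1 := fl C
      have h2 := hS.mu C
      have h3 := fwpr C
      unfold kap
      fun_prop
    refine Fn.two_powL (h1.comp hs) ?_
    obtain ⟨c, hc⟩ := cBet C α s hs hl
    refine ⟨c, fun a => le_trans ?_ (hc a)⟩
    unfold bet
    beta_reduce
    omega
  refine
    { K := fun C _ => ?_
      lam := fun C _ => fl C
      mu := fun C _ => ?_
      M := fun C _ α _ s hs hl => ?_
      V := fun C _ α _ s hs hl => ?_
      enc := fun C _ α _ s x f hs hl hx hf => ?_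
      dec := fun C _ α _ s u y R hs hl hu hy hR => ?_ }
  · exact (fw C).mul (fd C)
  · have h1 := fl C
    have h2 := hS.mu C
    have h3 := fbet C
    show Fn C (fun s : ℕ => 2 * kap (lam s) (S s).mu + 3 + bet (lam s) (S s).mu (d s) (w s))
    unfold kap
    fun_prop
  · have h1 := fqd C α s hs hl
    have h2 := hS.M C α s hs hl
    exact (h1.mul h1).mul h2
  · have h1 := fqd C α s hs hl
    have h2 := hS.V C α s hs hl
    have h3 := fq C α s hs hl
    exact (((h1.mul h3).mul h3).mul h3).mul h2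
  · have h1 := fqd C α s hs hl
    refine hS.enc C α s (fun a => x a / prm (bet (lam (s a)) (S (s a)).mu (d (s a)) (w (s a))) ^
        d (s a) / prm (bet (lam (s a)) (S (s a)).mu (d (s a)) (w (s a))) ^ d (s a))
      (fun a => tup (prm (bet (lam (s a)) (S (s a)).mu (d (s a)) (w (s a)))) (d (s a)) (w (s a))
        (wpr (d (s a)) (w (s a))) (f a)
        (x a % prm (bet (lam (s a)) (S (s a)).mu (d (s a)) (w (s a))) ^ d (s a))
        (x a / prm (bet (lam (s a)) (S (s a)).mu (d (s a)) (w (s a))) ^ d (s a) %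
          prm (bet (lam (s a)) (S (s a)).mu (d (s a)) (w (s a))) ^ d (s a))) hs hl
      ((hx.div h1).div h1) ?_
    have hs' : Fn C (fun p : α × ℕ => s p.1) := hs.comp LSC.Fn.fst
    have hl' : Lin J (fun p : α × ℕ => s p.1) := Lin.comp (C := C) hl LSC.Fn.fst
    have hx' : Fn C (fun p : α × ℕ => x p.1) := hx.comp LSC.Fn.fst
    have h1' := fqd C (α × ℕ) _ hs' hl'
    have hf' : Pr C (fun r : (α × ℕ) × ℕ => f r.1.1 r.2) := by
      have h : Fn C (fun r : (α × ℕ) × ℕ => (r.1.1, r.2)) :=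
        (LSC.Fn.fst.comp LSC.Fn.fst).pair LSC.Fn.snd
      exact hf.comp h
    exact Pr.tup (α := α × ℕ)
      (q := fun p => prm (bet (lam (s p.1)) (S (s p.1)).mu (d (s p.1)) (w (s p.1))))
      (d := fun p => d (s p.1)) (w := fun p => w (s p.1))
      (w' := fun p => wpr (d (s p.1)) (w (s p.1)))
      (z := fun p => x p.1 % prm (bet (lam (s p.1)) (S (s p.1)).mu (d (s p.1)) (w (s p.1))) ^
        d (s p.1))
      (v := fun p => x p.1 / prm (bet (lam (s p.1)) (S (s p.1)).mu (d (s p.1)) (w (s p.1))) ^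
        d (s p.1) % prm (bet (lam (s p.1)) (S (s p.1)).mu (d (s p.1)) (w (s p.1))) ^ d (s p.1))
      (i := fun p => p.2) (f := fun p => f p.1)
      (fq C _ _ hs' hl') ((fd C).comp hs') (cLn C _ _ hs' hl') ((fw C).comp hs')
      (cW C _ _ hs' hl') (cWd C _ _ hs' hl') ((fwpr C).comp hs') (cWpr C _ _ hs' hl')
      (fun p => hq0 _) hf' (hx'.mod h1') ((hx'.div h1').mod h1') LSC.Fn.snd
  · -- decoder
    have hB : ∀ (γ : Type) [Ctx γ] (g : γ → α) (_ : Fn C g),
        Pr C (fun p : γ × ℕ × ℕ × ℕ => (S (s (g p.1))).dec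
          (rin (prm (bet (lam (s (g p.1))) (S (s (g p.1))).mu (d (s (g p.1))) (w (s (g p.1)))) ^
            d (s (g p.1))) (R (g p.1)) p.2.1 p.2.2.1)
          (u (g p.1) / prm (bet (lam (s (g p.1))) (S (s (g p.1))).mu (d (s (g p.1)))
              (w (s (g p.1)))) ^ d (s (g p.1)) /
            prm (bet (lam (s (g p.1))) (S (s (g p.1))).mu (d (s (g p.1))) (w (s (g p.1)))) /
            prm (bet (lam (s (g p.1))) (S (s (g p.1))).mu (d (s (g p.1))) (w (s (g p.1)))) /
            prm (bet (lam (s (g p.1))) (S (s (g p.1))).mu (d (s (g p.1))) (w (s (g p.1)))))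
          p.2.2.2) := by
      intro γ _ g hg
      have hg' : Fn C (fun p : γ × ℕ × ℕ × ℕ => g p.1) := hg.comp LSC.Fn.fst
      have hs' : Fn C (fun p : γ × ℕ × ℕ × ℕ => s (g p.1)) := hs.comp hg'
      have hl' : Lin J (fun p : γ × ℕ × ℕ × ℕ => s (g p.1)) := hl.comp hg'
      have hu' : Fn C (fun p : γ × ℕ × ℕ × ℕ => u (g p.1)) := hu.comp hg'
      have h1 := fq C _ _ hs' hl'
      have h2 := fqd C _ _ hs' hl'
      refine hS.dec C (γ × ℕ × ℕ × ℕ) (fun p => s (g p.1))
        (fun p => (u (g p.1) / prm (bet (lam (s (g p.1))) (S (s (g p.1))).mu (d (s (g p.1)))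
              (w (s (g p.1)))) ^ d (s (g p.1)) /
            prm (bet (lam (s (g p.1))) (S (s (g p.1))).mu (d (s (g p.1))) (w (s (g p.1)))) /
            prm (bet (lam (s (g p.1))) (S (s (g p.1))).mu (d (s (g p.1))) (w (s (g p.1)))) /
            prm (bet (lam (s (g p.1))) (S (s (g p.1))).mu (d (s (g p.1))) (w (s (g p.1))))))
        (fun p => p.2.2.2)
        (fun p => rin (prm (bet (lam (s (g p.1))) (S (s (g p.1))).mu (d (s (g p.1)))
            (w (s (g p.1)))) ^ d (s (g p.1))) (R (g p.1)) p.2.1 p.2.2.1)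
        hs' hl' ((((hu'.div h2).div h1).div h1).div h1) (by fun_prop) ?_
      unfold rin
      have hg2 : Fn C (fun p : (γ × ℕ × ℕ × ℕ) × ℕ => g p.1.1) := hg'.comp LSC.Fn.fst
      have hs2 : Fn C (fun p : (γ × ℕ × ℕ × ℕ) × ℕ => s (g p.1.1)) := hs.comp hg2
      have hl2 : Lin J (fun p : (γ × ℕ × ℕ × ℕ) × ℕ => s (g p.1.1)) := hl.comp hg2
      have h3 := fqd C _ _ hs2 hl2
      have h4 : Fn C (fun p : (γ × ℕ × ℕ × ℕ) × ℕ => p.1.2.1 +
          prm (bet (lam (s (g p.1.1))) (S (s (g p.1.1))).mu (d (s (g p.1.1)))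
            (w (s (g p.1.1)))) ^ d (s (g p.1.1)) * (p.1.2.2.1 +
          prm (bet (lam (s (g p.1.1))) (S (s (g p.1.1))).mu (d (s (g p.1.1)))
            (w (s (g p.1.1)))) ^ d (s (g p.1.1)) * p.2)) := by
        have h5 : Fn C (fun p : (γ × ℕ × ℕ × ℕ) × ℕ => p.1.2.1) := by fun_prop
        have h6 : Fn C (fun p : (γ × ℕ × ℕ × ℕ) × ℕ => p.1.2.2.1) := by fun_prop
        exact h5.add (h3.mul (h6.add (h3.mul LSC.Fn.snd)))
      exact hR.comp (hg2.pair h4)
    have hs' : Fn C (fun p : α × ℕ => s p.1) := hs.comp LSC.Fn.fst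
    have hl' : Lin J (fun p : α × ℕ => s p.1) := Lin.comp (C := C) hl LSC.Fn.fst
    have hu' : Fn C (fun p : α × ℕ => u p.1) := hu.comp LSC.Fn.fst
    have h1 := fq C _ _ hs' hl'
    have h2 := fqd C _ _ hs' hl'
    have hB' := hB (α × ℕ) (fun p => p.1) LSC.Fn.fst
    have hD : Pr C (fun p : α × ℕ =>
        gdef (prm (bet (lam (s p.1)) (S (s p.1)).mu (d (s p.1)) (w (s p.1)))) (d (s p.1))
          (bet (lam (s p.1)) (S (s p.1)).mu (d (s p.1)) (w (s p.1))) (wpr (d (s p.1)) (w (s p.1)))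
          (fun z v => (S (s p.1)).dec (rin (prm (bet (lam (s p.1)) (S (s p.1)).mu (d (s p.1))
              (w (s p.1))) ^ d (s p.1)) (R p.1) z v)
            (u p.1 / prm (bet (lam (s p.1)) (S (s p.1)).mu (d (s p.1)) (w (s p.1))) ^ d (s p.1) /
              prm (bet (lam (s p.1)) (S (s p.1)).mu (d (s p.1)) (w (s p.1))) /
              prm (bet (lam (s p.1)) (S (s p.1)).mu (d (s p.1)) (w (s p.1))) /
              prm (bet (lam (s p.1)) (S (s p.1)).mu (d (s p.1)) (w (s p.1)))))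
          (u p.1 % prm (bet (lam (s p.1)) (S (s p.1)).mu (d (s p.1)) (w (s p.1))) ^ d (s p.1))
          (u p.1 / prm (bet (lam (s p.1)) (S (s p.1)).mu (d (s p.1)) (w (s p.1))) ^ d (s p.1) %
            prm (bet (lam (s p.1)) (S (s p.1)).mu (d (s p.1)) (w (s p.1))))
          (u p.1 / prm (bet (lam (s p.1)) (S (s p.1)).mu (d (s p.1)) (w (s p.1))) ^ d (s p.1) /
            prm (bet (lam (s p.1)) (S (s p.1)).mu (d (s p.1)) (w (s p.1))) %
            prm (bet (lam (s p.1)) (S (s p.1)).mu (d (s p.1)) (w (s p.1))))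
          (u p.1 / prm (bet (lam (s p.1)) (S (s p.1)).mu (d (s p.1)) (w (s p.1))) ^ d (s p.1) /
            prm (bet (lam (s p.1)) (S (s p.1)).mu (d (s p.1)) (w (s p.1))) /
            prm (bet (lam (s p.1)) (S (s p.1)).mu (d (s p.1)) (w (s p.1))) %
            prm (bet (lam (s p.1)) (S (s p.1)).mu (d (s p.1)) (w (s p.1)))) p.2) :=
      Pr.gdef (α := α × ℕ) h1 ((fd C).comp hs') (cLn C _ _ hs' hl') ((fbet C).comp hs')
        (cBet C _ _ hs' hl') ((fwpr C).comp hs') (cWpr C _ _ hs' hl') (fun p => hq0 _) hB'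
        (hu'.mod h2) ((hu'.div h2).mod h1) (((hu'.div h2).div h1).mod h1)
        ((((hu'.div h2).div h1).div h1).mod h1) LSC.Fn.snd
    have hG : Fn C (fun p : α × ℕ =>
        gval (prm (bet (lam (s p.1)) (S (s p.1)).mu (d (s p.1)) (w (s p.1)))) (d (s p.1))
          (bet (lam (s p.1)) (S (s p.1)).mu (d (s p.1)) (w (s p.1))) (wpr (d (s p.1)) (w (s p.1)))
          (fun z v => (S (s p.1)).dec (rin (prm (bet (lam (s p.1)) (S (s p.1)).mu (d (s p.1))
              (w (s p.1))) ^ d (s p.1)) (R p.1) z v)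
            (u p.1 / prm (bet (lam (s p.1)) (S (s p.1)).mu (d (s p.1)) (w (s p.1))) ^ d (s p.1) /
              prm (bet (lam (s p.1)) (S (s p.1)).mu (d (s p.1)) (w (s p.1))) /
              prm (bet (lam (s p.1)) (S (s p.1)).mu (d (s p.1)) (w (s p.1))) /
              prm (bet (lam (s p.1)) (S (s p.1)).mu (d (s p.1)) (w (s p.1)))))
          (u p.1 % prm (bet (lam (s p.1)) (S (s p.1)).mu (d (s p.1)) (w (s p.1))) ^ d (s p.1))
          (u p.1 / prm (bet (lam (s p.1)) (S (s p.1)).mu (d (s p.1)) (w (s p.1))) ^ d (s p.1) %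
            prm (bet (lam (s p.1)) (S (s p.1)).mu (d (s p.1)) (w (s p.1))))
          (u p.1 / prm (bet (lam (s p.1)) (S (s p.1)).mu (d (s p.1)) (w (s p.1))) ^ d (s p.1) /
            prm (bet (lam (s p.1)) (S (s p.1)).mu (d (s p.1)) (w (s p.1))) %
            prm (bet (lam (s p.1)) (S (s p.1)).mu (d (s p.1)) (w (s p.1)))) p.2) :=
      Fn.gval (α := α × ℕ) h1 ((fd C).comp hs') (cLn C _ _ hs' hl') ((fbet C).comp hs')
        (cBet C _ _ hs' hl') ((fwpr C).comp hs') (cWpr C _ _ hs' hl') (fun p => hq0 _) hB'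
        (hu'.mod h2) ((hu'.div h2).mod h1) (((hu'.div h2).div h1).mod h1) LSC.Fn.snd
    exact Pr.cdec (α := α) (fq C α s hs hl) ((fd C).comp hs) (cLn C α s hs hl) ((fw C).comp hs)
      (fm C α s hs hl) (fun a => hq0 _) hD hG hy

end LSA
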