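import Pool.Agent.H85B.PrmB
import Pool.Agent.H69B.FnP

/-!
# H85B/FnQ: definability of the functions of a level

Module `H85B/FnQ`. The calculus: `Pool/Agent/H85P/Calc.lean`, `Arith.lean` (`fun_prop`, `Fn.sum`, `Fn.count`, `Fn.mu`,
`Fn.pow2`, `Pr.ex`, `Pr.all`, `Fn.congr`, `Pr.congr`), `H69A/FnB` (`Fn.prodmod`, `Fn.dgt`, `Fn.inv`, `Pr.prime`) and
`H69B/FnP` (`Ln`, `Fn.powLn`, `Fn.dg`, `Fn.lp`). `Ll t` (the exponent `t` is linear) gives `Fn C (fun a => 2 ^ t a)`.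
Powers `q ^ j` and `2 ^ k` in the bodies of sums: replace `j` by `min j d` and `k` by `min k β`
(`Finset.sum_congr`) and use `Fn.powLn`, `Fn.pow2` in the context `(a, j)`.

`Fn.delL`, `Fn.lqL`: the proofs of `Fn.del` (`H69A/FnLde`) and `Fn.lq` (`H69B/FnP`) with `Ll w` instead of `Sm w`.
-/

set_option autoImplicit false

namespace LSA

open LSC

variable {C : NClass} [Calc C] {α β : Type} [Ctx α] [Ctx β]

/-- linear -/
def Ll (t : α → ℕ) : Prop := ∃ c, ∀ a, t a ≤ c * (sz a + 1)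

theorem Ll.comp {t : β → ℕ} (h : Ll t) {g : α → β} (hg : Fn C g) : Ll (fun a => t (g a)) := by
  obtain ⟨c, hc⟩ := h
  obtain ⟨c', hc'⟩ := hg.bd
  exact ⟨c * (c' + 1), fun a => lin_trans (hc (g a)) (hc' a)⟩

theorem Lin.comp {J : ℕ} {s : β → ℕ} (h : Lin J s) {g : α → β} (hg : Fn C g) :
    Lin J (fun a => s (g a)) := by
  obtain ⟨c, hc⟩ := h
  obtain ⟨c', hc'⟩ := hg.bd
  exact ⟨c * (c' + 1), fun a => lin_trans (hc (g a)) (hc' a)⟩

protected theorem Fn.two_powL {t : α → ℕ} (ht : Fn C t) (h : Ll t) : Fn C (fun a => 2 ^ t a) := by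
  obtain ⟨c, hc⟩ := h
  exact Fn.pow2 ht c hc

protected theorem Fn.prm {b : α → ℕ} (hb : Fn C b) (h : Ll b) : Fn C (fun a => prm (b a)) := by
  have h2 := Fn.two_powL hb h
  have h3 : Fn C (fun a => 2 ^ (b a - 1)) := by
    refine Fn.two_powL (by fun_prop) ?_
    obtain ⟨c, hc⟩ := h
    exact ⟨c, fun a => (Nat.sub_le _ _).trans (hc a)⟩
  have h5 : Fn C (fun a => LSC.mu (2 ^ b a + 1) fun i => 2 ^ (b a - 1) ≤ i ∧ i.Prime) := by
    refine Fn.mu (by fun_prop) ?_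
    have h6 : Fn C (fun q : α × ℕ => 2 ^ (b q.1 - 1)) :=
      h3.comp (f := fun q : α × ℕ => q.1) (by fun_prop)
    fun_prop
  exact h5

protected theorem Fn.delL {p w y z : α → ℕ} (hp : Fn C p) (hw : Fn C w) (h : Ll w) (hy : Fn C y)
    (hz : Fn C z) (h0 : ∀ a, 0 < p a) : Fn C (fun a => del (p a) (w a) (y a) (z a)) := by
  unfold del
  have h1 : Fn C (fun a => 2 ^ w a) := Fn.two_powL hw h
  refine Fn.prodmod (n := fun a => 2 ^ w a)
    (f := fun a v => if v = y a then 1 else (z a + (p a - v)) * inv (p a) (y a + (p a - v)))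
    (m := p) h1 ?_ hp h0
  have hp' : Fn C (fun q : α × ℕ => p q.1) := hp.comp Fn.fst
  have hy' : Fn C (fun q : α × ℕ => y q.1) := hy.comp Fn.fst
  have hz' : Fn C (fun q : α × ℕ => z q.1) := hz.comp Fn.fst
  have h2 : Fn C (fun q : α × ℕ => q.2) := Fn.snd
  exact LSC.Fn.ite (Pr.eq h2 hy') (Fn.const 1)
    ((hz'.add (hp'.sub h2)).mul (Fn.inv hp' (hy'.add (hp'.sub h2))))

protected theorem Fn.lqL {p d w Z : α → ℕ} {f : α → ℕ → Prop} (hp : Fn C p) (hd : Fn C d)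
    (hw : Fn C w) (h : Ll w) (hwd : Ll fun a => w a * d a) (h0 : ∀ a, 0 < p a)
    (hf : Pr C (fun q : α × ℕ => f q.1 q.2)) (hZ : Fn C Z) :
    Fn C (fun a => lq (p a) (d a) (w a) (f a) (Z a)) := by
  classical
  unfold lq
  have hpow : Fn C (fun a => 2 ^ (w a * d a)) := Fn.two_powL (hw.mul hd) hwd
  refine LSC.Fn.mod ?_ hp
  refine LSC.Fn.sum (n := fun a => 2 ^ (w a * d a))
    (f := fun a y => if f a y then (∏ j ∈ Finset.range (d a),
      del (p a) (w a) (dgt (w a) y j) (dg (p a) (Z a) j)) % p a else 0)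
    hpow ?_
  refine LSC.Fn.ite hf ?_ (LSC.Fn.const 0)
  have hs1 : Fn C (fun q : α × ℕ => w q.1) := hw.comp LSC.Fn.fst
  have hp1 : Fn C (fun q : α × ℕ => p q.1) := hp.comp LSC.Fn.fst
  have hd1 : Fn C (fun q : α × ℕ => d q.1) := hd.comp LSC.Fn.fst
  have hZ1 : Fn C (fun q : α × ℕ => Z q.1) := hZ.comp LSC.Fn.fst
  have hS1 : Ll (fun q : α × ℕ => w q.1) := Ll.comp (C := C) h LSC.Fn.fst
  refine Fn.prodmod (α := α × ℕ) (n := fun q => d q.1)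
    (f := fun q j => del (p q.1) (w q.1) (dgt (w q.1) q.2 j) (dg (p q.1) (Z q.1) j))
    (m := fun q => p q.1) hd1 ?_ hp1 (fun q => h0 q.1)
  have hs2 : Fn C (fun q : (α × ℕ) × ℕ => w q.1.1) := hs1.comp LSC.Fn.fst
  have hp2 : Fn C (fun q : (α × ℕ) × ℕ => p q.1.1) := hp1.comp LSC.Fn.fst
  have hZ2 : Fn C (fun q : (α × ℕ) × ℕ => Z q.1.1) := hZ1.comp LSC.Fn.fst
  have hS2 : Ll (fun q : (α × ℕ) × ℕ => w q.1.1) := Ll.comp (C := C) hS1 LSC.Fn.fst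
  exact Fn.delL hp2 hs2 hS2
    (Fn.dgt hs2 (LSC.Fn.snd.comp LSC.Fn.fst) LSC.Fn.snd)
    (Fn.dg hp2 hZ2 LSC.Fn.snd) (fun q => h0 q.1.1)

protected theorem Pr.tup {q d w w' z v i : α → ℕ} {f : α → ℕ → Prop} (hq : Fn C q) (hd : Fn C d)
    (hL : Ln q d) (hw : Fn C w) (h : Ll w) (hwd : Ll fun a => w a * d a) (hw' : Fn C w')
    (h' : Ll w') (h0 : ∀ a, 0 < q a) (hf : Pr C (fun p : α × ℕ => f p.1 p.2)) (hz : Fn C z)
    (hv : Fn C v) (hi : Fn C i) :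
    Pr C (fun a => tup (q a) (d a) (w a) (w' a) (f a) (z a) (v a) (i a)) := by
  unfold tup
  have h1 : Fn C (fun a => 2 ^ w' a) := Fn.two_powL hw' h'
  have h2 : Fn C (fun a => lp (q a) (d a) (z a) (v a) (i a % 2 ^ w' a)) :=
    Fn.lp hq hd hL hz hv (hi.mod h1)
  have h3 : Fn C (fun a => lq (q a) (d a) (w a) (f a)
      (lp (q a) (d a) (z a) (v a) (i a % 2 ^ w' a))) :=
    Fn.lqL hq hd hw h hwd h0 hf h2
  exact Pr.eq (Fn.bt h3 (hi.div h1)) (Fn.const 1)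

end LSA
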