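import Pool.Agent.H85B.FnQ

/-!
# H85B/FnQ2: definability of the tables

Module `H85B/FnQ2`. See the header of `H85B/FnQ`: `Fn.sum`, `Fn.prodmod`; powers `q ^ j`, `2 ^ k` in the bodies of
sums with `min j d`, `min k b` (`Finset.sum_congr`, `Fn.powLn`, `Fn.pow2`, `Fn.two_powL`), `Fn.delL`.
-/

set_option autoImplicit false

namespace LSA

open LSC

variable {C : NClass} [Calc C] {α β : Type} [Ctx α] [Ctx β]

protected theorem Fn.tval {q b w' t : α → ℕ} {B : α → ℕ → Prop} (hq : Fn C q) (hb : Fn C b)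
    (hbL : Ll b) (hw' : Fn C w') (h' : Ll w') (hB : Pr C (fun p : α × ℕ => B p.1 p.2))
    (ht : Fn C t) : Fn C (fun a => tval (q a) (b a) (w' a) (B a) (t a)) := by
  classical
  have h1 : Fn C (fun a => (∑ k ∈ Finset.range (b a),
      if B a (t a + 2 ^ w' a * k) then 2 ^ min k (b a) else 0) % q a) := by
    refine LSC.Fn.mod ?_ hq
    refine LSC.Fn.sum (f := fun a k => if B a (t a + 2 ^ w' a * k) then 2 ^ min k (b a) else 0) hb ?_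
    have ht1 : Fn C (fun p : α × ℕ => t p.1) := ht.comp LSC.Fn.fst
    have hb1 : Fn C (fun p : α × ℕ => b p.1) := hb.comp LSC.Fn.fst
    have hw1 : Fn C (fun p : α × ℕ => 2 ^ w' p.1) := (Fn.two_powL hw' h').comp LSC.Fn.fst
    have h2 : Fn C (fun p : α × ℕ => p.2) := LSC.Fn.snd
    have h3 : Fn C (fun p : α × ℕ => (p.1, t p.1 + 2 ^ w' p.1 * p.2)) :=
      LSC.Fn.fst.pair (ht1.add (hw1.mul h2))
    have h4 : Fn C (fun p : α × ℕ => 2 ^ min p.2 (b p.1)) := by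
      obtain ⟨c, hc⟩ := Ll.comp (C := C) hbL (LSC.Fn.fst (α := α) (β := ℕ))
      exact LSC.Fn.pow2 (h2.min hb1) c fun p => (min_le_right _ _).trans (hc p)
    exact LSC.Fn.ite (hB.comp h3) h4 (LSC.Fn.const 0)
  refine h1.congr fun a => ?_
  unfold LSA.tval
  congr 1
  refine Finset.sum_congr rfl fun k hk => ?_
  rw [min_eq_left (Finset.mem_range.mp hk).le]

protected theorem Fn.teval {q b w' τ : α → ℕ} {B : α → ℕ → Prop} (hq : Fn C q) (hb : Fn C b)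
    (hbL : Ll b) (hw' : Fn C w') (h' : Ll w') (h0 : ∀ a, 0 < q a)
    (hB : Pr C (fun p : α × ℕ => B p.1 p.2)) (hτ : Fn C τ) :
    Fn C (fun a => teval (q a) (b a) (w' a) (B a) (τ a)) := by
  unfold LSA.teval
  refine LSC.Fn.mod ?_ hq
  refine LSC.Fn.sum (n := fun a => 2 ^ w' a)
    (f := fun a t => del (q a) (w' a) t (τ a) * tval (q a) (b a) (w' a) (B a) t)
    (Fn.two_powL hw' h') ?_
  have hq1 : Fn C (fun p : α × ℕ => q p.1) := hq.comp LSC.Fn.fst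
  have hb1 : Fn C (fun p : α × ℕ => b p.1) := hb.comp LSC.Fn.fst
  have hw1 : Fn C (fun p : α × ℕ => w' p.1) := hw'.comp LSC.Fn.fst
  have hτ1 : Fn C (fun p : α × ℕ => τ p.1) := hτ.comp LSC.Fn.fst
  have h2 : Fn C (fun p : α × ℕ => p.2) := LSC.Fn.snd
  have hL1 : Ll (fun p : α × ℕ => w' p.1) := Ll.comp (C := C) h' (LSC.Fn.fst (α := α) (β := ℕ))
  have hb2 : Ll (fun p : α × ℕ => b p.1) := Ll.comp (C := C) hbL (LSC.Fn.fst (α := α) (β := ℕ))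
  have hB1 : Pr C (fun p : (α × ℕ) × ℕ => B p.1.1 p.2) :=
    hB.comp (f := fun p : (α × ℕ) × ℕ => (p.1.1, p.2))
      ((LSC.Fn.fst.comp LSC.Fn.fst).pair LSC.Fn.snd)
  exact (Fn.delL hq1 hw1 hL1 h2 hτ1 (fun p => h0 p.1)).mul
    (Fn.tval (α := α × ℕ) (B := fun p i => B p.1 i) hq1 hb1 hb2 hw1 hL1 hB1 h2)

protected theorem Fn.ldir {q d x₀ τ₀ τ₁ x : α → ℕ} (hq : Fn C q) (hd : Fn C d) (hL : Ln q d)
    (hx₀ : Fn C x₀) (hτ₀ : Fn C τ₀) (hτ₁ : Fn C τ₁) (hx : Fn C x) :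
    Fn C (fun a => ldir (q a) (d a) (x₀ a) (τ₀ a) (τ₁ a) (x a)) := by
  have h1 : Fn C (fun a => ∑ j ∈ Finset.range (d a),
      (((dg (q a) (x a) j + (q a - dg (q a) (x₀ a) j)) *
        inv (q a) (τ₁ a + (q a - τ₀ a))) % q a) * q a ^ min j (d a)) := by
    refine LSC.Fn.sum (f := fun a j => (((dg (q a) (x a) j + (q a - dg (q a) (x₀ a) j)) *
        inv (q a) (τ₁ a + (q a - τ₀ a))) % q a) * q a ^ min j (d a)) hd ?_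
    have hq1 : Fn C (fun p : α × ℕ => q p.1) := hq.comp LSC.Fn.fst
    have hd1 : Fn C (fun p : α × ℕ => d p.1) := hd.comp LSC.Fn.fst
    have hx1 : Fn C (fun p : α × ℕ => x p.1) := hx.comp LSC.Fn.fst
    have hx₀1 : Fn C (fun p : α × ℕ => x₀ p.1) := hx₀.comp LSC.Fn.fst
    have hτ₀1 : Fn C (fun p : α × ℕ => τ₀ p.1) := hτ₀.comp LSC.Fn.fst
    have hτ₁1 : Fn C (fun p : α × ℕ => τ₁ p.1) := hτ₁.comp LSC.Fn.fst
    have h2 : Fn C (fun p : α × ℕ => p.2) := LSC.Fn.snd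
    have h3 : Fn C (fun p : α × ℕ => q p.1 ^ min p.2 (d p.1)) :=
      Fn.powLn (d := fun p : α × ℕ => d p.1) hq1 (h2.min hd1)
        (Ln.comp (C := C) hL LSC.Fn.fst) (fun p => min_le_right _ _)
    exact ((((Fn.dg hq1 hx1 h2).add (hq1.sub (Fn.dg hq1 hx₀1 h2))).mul
      (Fn.inv hq1 (hτ₁1.add (hq1.sub hτ₀1)))).mod hq1).mul h3
  refine h1.congr fun a => ?_
  unfold LSA.ldir
  refine Finset.sum_congr rfl fun j hj => ?_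
  rw [min_eq_left (Finset.mem_range.mp hj).le]

protected theorem Fn.lbas {q d x₀ τ₀ τ₁ x : α → ℕ} (hq : Fn C q) (hd : Fn C d) (hL : Ln q d)
    (hx₀ : Fn C x₀) (hτ₀ : Fn C τ₀) (hτ₁ : Fn C τ₁) (hx : Fn C x) :
    Fn C (fun a => lbas (q a) (d a) (x₀ a) (τ₀ a) (τ₁ a) (x a)) := by
  unfold LSA.lbas
  exact Fn.lp hq hd hL hx₀ (Fn.ldir hq hd hL hx₀ hτ₀ hτ₁ hx) (hq.sub hτ₀)

/-- the table of one line -/
private theorem pr_line {q d x₀ τ₀ τ₁ x : α → ℕ} {B : α → ℕ → ℕ → ℕ → Prop}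
    (hq : Fn C q) (hd : Fn C d) (hL : Ln q d)
    (hB : Pr C (fun p : α × ℕ × ℕ × ℕ => B p.1 p.2.1 p.2.2.1 p.2.2.2)) (hx₀ : Fn C x₀)
    (hτ₀ : Fn C τ₀) (hτ₁ : Fn C τ₁) (hx : Fn C x) :
    Pr C (fun p : α × ℕ => B p.1 (lbas (q p.1) (d p.1) (x₀ p.1) (τ₀ p.1) (τ₁ p.1) (x p.1))
      (ldir (q p.1) (d p.1) (x₀ p.1) (τ₀ p.1) (τ₁ p.1) (x p.1)) p.2) :=
  hB.comp (f := fun p : α × ℕ => (p.1, lbas (q p.1) (d p.1) (x₀ p.1) (τ₀ p.1) (τ₁ p.1) (x p.1),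
      ldir (q p.1) (d p.1) (x₀ p.1) (τ₀ p.1) (τ₁ p.1) (x p.1), p.2))
    (LSC.Fn.fst.pair (((Fn.lbas hq hd hL hx₀ hτ₀ hτ₁ hx).comp LSC.Fn.fst).pair
      (((Fn.ldir hq hd hL hx₀ hτ₀ hτ₁ hx).comp LSC.Fn.fst).pair LSC.Fn.snd)))

protected theorem Pr.gdef {q d b w' x₀ τ₀ τ₁ v₀ x : α → ℕ} {B : α → ℕ → ℕ → ℕ → Prop}
    (hq : Fn C q) (hd : Fn C d) (hL : Ln q d) (hb : Fn C b) (hbL : Ll b) (hw' : Fn C w')
    (h' : Ll w') (h0 : ∀ a, 0 < q a)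
    (hB : Pr C (fun p : α × ℕ × ℕ × ℕ => B p.1 p.2.1 p.2.2.1 p.2.2.2)) (hx₀ : Fn C x₀)
    (hτ₀ : Fn C τ₀) (hτ₁ : Fn C τ₁) (hv₀ : Fn C v₀) (hx : Fn C x) :
    Pr C (fun a => gdef (q a) (d a) (b a) (w' a) (B a) (x₀ a) (τ₀ a) (τ₁ a) (v₀ a) (x a)) := by
  unfold LSA.gdef
  exact LSC.Pr.eq (Fn.teval (B := fun a => B a
    (lbas (q a) (d a) (x₀ a) (τ₀ a) (τ₁ a) (x a)) (ldir (q a) (d a) (x₀ a) (τ₀ a) (τ₁ a) (x a)))
    hq hb hbL hw' h' h0 (pr_line hq hd hL hB hx₀ hτ₀ hτ₁ hx) hτ₀) hv₀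

protected theorem Fn.gval {q d b w' x₀ τ₀ τ₁ x : α → ℕ} {B : α → ℕ → ℕ → ℕ → Prop}
    (hq : Fn C q) (hd : Fn C d) (hL : Ln q d) (hb : Fn C b) (hbL : Ll b) (hw' : Fn C w')
    (h' : Ll w') (h0 : ∀ a, 0 < q a)
    (hB : Pr C (fun p : α × ℕ × ℕ × ℕ => B p.1 p.2.1 p.2.2.1 p.2.2.2)) (hx₀ : Fn C x₀)
    (hτ₀ : Fn C τ₀) (hτ₁ : Fn C τ₁) (hx : Fn C x) :
    Fn C (fun a => gval (q a) (d a) (b a) (w' a) (B a) (x₀ a) (τ₀ a) (τ₁ a) (x a)) := by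
  unfold LSA.gval
  exact Fn.teval (B := fun a => B a
    (lbas (q a) (d a) (x₀ a) (τ₀ a) (τ₁ a) (x a)) (ldir (q a) (d a) (x₀ a) (τ₀ a) (τ₁ a) (x a)))
    hq hb hbL hw' h' h0 (pr_line hq hd hL hB hx₀ hτ₀ hτ₁ hx) hτ₁

end LSA
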