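import Pool.Agent.H85B.Defs

/-!
# H85B/HadOk: the Hadamard scheme is correct

Module `H85B/HadOk`. Let `l = 2 ^ K`, `N = 2 ^ l`; for `m < N` let `χ_m(r) = 1` if `hde l (fun i => bt m i = 1) r` and
`-1` if not (`r < N`), and `ρ(r) = 1` if `R r` and `-1` if not.

* `had_ortho`: `∑ r < N, χ_m(r) χ_{m'}(r) = 0` for `m ≠ m'` below `N` (and `N` for `m = m'`); equivalently (the
  roles of `m` and `r` are symmetric) `∑ m < N, χ_m(r) χ_m(r') = 0` for `r ≠ r'`. Proof by induction on `l`:
  `m = m₀ + 2 ^ l * b`, `bt (m₀ + 2 ^ l * b) i = bt m₀ i` for `i < l` and `b` for `i = l`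
  (`hde l f r` is the parity of the number of the `i < l` with `f i` and `bt r i = 1`). Or: the two numbers
  differ in a bit `i < l`; flipping the bit `i` of the other argument changes the sign (`fl`, `fl_fl`, `fl_lt`,
  `hd_fl` in `H69B/Had`).
* Parseval: `∑ m < N, (∑ r < N, ρ(r) χ_m(r)) ^ 2 = N ^ 2` (exchange the sums).
* `Adv N lam R (hde l (bt m)) ` means `N ≤ 2 ^ lam * (2 * agr - N)`, and `2 * agr - N = ∑ r, ρ(r) χ_m(r)`; so at
  most `4 ^ lam` numbers `m < N` have it.
* `hadOk`: for `f` let `m = ofBits l f` (`H85P/Lift`: `ofBits`, `ofBits_bt`; `H85P/Avg`: `bt_ofBits`;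
  `H85P/Code`: `ofBits_lt`; import `Pool.Agent.H85P.Avg` or prove these facts again). Then
  `hde l f r ↔ hde l (fun i => bt m i = 1) r`. The rank `u` of `m` among the numbers with `Adv` is smaller than
  `4 ^ lam = V`, and `dec R u y ↔ bt m y = 1 ↔ f y` (a number with `Adv` is determined by its rank).
-/

set_option autoImplicit false

namespace LSA

open LSC

theorem hb_add_lt {l i x : ℕ} (hi : i < l) : bt (2 ^ l + x) i = bt x i := by
  unfold bt
  have h1 : 2 ^ l = 2 ^ i * (2 * 2 ^ (l - i - 1)) := by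
    rw [← pow_succ', ← pow_add]
    congr 1
    omega
  rw [h1, Nat.mul_add_div (by positivity)]
  omega

theorem hb_add_self {l x : ℕ} (hx : x < 2 ^ l) : bt (2 ^ l + x) l = 1 := by
  unfold bt
  have h1 : 2 ^ l + x = 2 ^ l * 1 + x := by ring
  rw [h1, Nat.mul_add_div (by positivity), Nat.div_eq_of_lt hx]

theorem hb_lt_self {l x : ℕ} (hx : x < 2 ^ l) : bt x l = 0 := by
  unfold bt
  rw [Nat.div_eq_of_lt hx]

theorem hb_ne {l r r' : ℕ} (hr : r < 2 ^ l) (hr' : r' < 2 ^ l) (hne : r ≠ r') :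
    ∃ i < l, bt r i ≠ bt r' i := by
  by_contra hcon
  push Not at hcon
  apply hne
  apply Nat.eq_of_testBit_eq
  intro i
  by_cases hi : i < l
  · have h1 := hcon i hi
    unfold bt at h1
    rw [Nat.testBit_eq_decide_div_mod_eq, Nat.testBit_eq_decide_div_mod_eq, h1]
  · push Not at hi
    have h1 : r < 2 ^ i := hr.trans_le (Nat.pow_le_pow_right (by norm_num) hi)
    have h2 : r' < 2 ^ i := hr'.trans_le (Nat.pow_le_pow_right (by norm_num) hi)
    rw [Nat.testBit_lt_two_pow h1, Nat.testBit_lt_two_pow h2]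

/-- sums of products over the bits -/
theorem sum_prod_bt (g : ℕ → ℕ → ℤ) (l : ℕ) :
    ∑ m ∈ Finset.range (2 ^ l), ∏ i ∈ Finset.range l, g i (bt m i) =
      ∏ i ∈ Finset.range l, (g i 0 + g i 1) := by
  induction l with
  | zero => simp
  | succ l ih =>
    have h1 : 2 ^ (l + 1) = 2 ^ l + 2 ^ l := by ring
    rw [h1, Finset.sum_range_add, Finset.prod_range_succ, ← ih, mul_add, Finset.sum_mul,
      Finset.sum_mul]
    congr 1
    · refine Finset.sum_congr rfl fun m hm => ?_
      rw [Finset.prod_range_succ, hb_lt_self (Finset.mem_range.1 hm)]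
    · refine Finset.sum_congr rfl fun m hm => ?_
      rw [Finset.prod_range_succ, hb_add_self (Finset.mem_range.1 hm)]
      congr 1
      refine Finset.prod_congr rfl fun i hi => ?_
      rw [hb_add_lt (Finset.mem_range.1 hi)]

open Classical in
/-- the sign of the Hadamard code -/
noncomputable def hsg (l m r : ℕ) : ℤ :=
  ∏ i ∈ Finset.range l, if bt m i = 1 ∧ bt r i = 1 then (-1 : ℤ) else 1

theorem cardf_eq {s : Finset ℕ} {p q : ℕ → Prop} (hp : DecidablePred p) (hq : DecidablePred q)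
    (h : ∀ i ∈ s, (p i ↔ q i)) :
    (@Finset.filter ℕ p hp s).card = (@Finset.filter ℕ q hq s).card := by
  have h1 : @Finset.filter ℕ p hp s = @Finset.filter ℕ q hq s := by
    ext i
    simp only [Finset.mem_filter]
    exact ⟨fun h' => ⟨h'.1, (h i h'.1).1 h'.2⟩, fun h' => ⟨h'.1, (h i h'.1).2 h'.2⟩⟩
  rw [h1]

open Classical in
theorem hsg_eq (l m r : ℕ) :
    hsg l m r = if hde l (fun i => bt m i = 1) r then (-1 : ℤ) else 1 := by
  have key : hde l (fun i => bt m i = 1) r ↔
      ((Finset.range l).filter fun i => bt m i = 1 ∧ bt r i = 1).card % 2 = 1 := by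
    unfold hde
    exact Iff.of_eq (congrArg (fun c => c % 2 = 1) (cardf_eq _ _ fun i _ => Iff.rfl))
  unfold hsg
  rw [Finset.prod_ite, Finset.prod_const, Finset.prod_const_one, mul_one]
  rcases Nat.even_or_odd ((Finset.range l).filter fun i => bt m i = 1 ∧ bt r i = 1).card with h | h
  · rw [h.neg_one_pow, if_neg]
    rw [key]
    rw [Nat.even_iff] at h
    omega
  · rw [h.neg_one_pow, if_pos]
    rw [key]
    exact Nat.odd_iff.1 h

theorem hsg_ortho {l r r' : ℕ} (hr : r < 2 ^ l) (hr' : r' < 2 ^ l) (hne : r ≠ r') :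
    ∑ m ∈ Finset.range (2 ^ l), hsg l m r * hsg l m r' = 0 := by
  classical
  obtain ⟨i, hi, hir⟩ := hb_ne hr hr' hne
  obtain ⟨g, hg⟩ : ∃ g : ℕ → ℕ → ℤ, g = fun i b => (if b = 1 ∧ bt r i = 1 then (-1 : ℤ) else 1) *
        (if b = 1 ∧ bt r' i = 1 then (-1 : ℤ) else 1) := ⟨_, rfl⟩
  have h1 : ∀ m, hsg l m r * hsg l m r' = ∏ i ∈ Finset.range l, g i (bt m i) := by
    intro m
    unfold hsg
    rw [← Finset.prod_mul_distrib, hg]
  rw [Finset.sum_congr rfl fun m _ => h1 m, sum_prod_bt]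
  refine Finset.prod_eq_zero (Finset.mem_range.2 hi) ?_
  rw [hg]
  have b1 := bt_le r i
  have b2 := bt_le r' i
  rcases Nat.le_one_iff_eq_zero_or_eq_one.1 b1 with h3 | h3 <;>
    rcases Nat.le_one_iff_eq_zero_or_eq_one.1 b2 with h4 | h4 <;>
    simp [h3, h4] <;> omega

theorem hsg_self (l m r : ℕ) : hsg l m r * hsg l m r = 1 := by
  classical
  rw [hsg_eq]
  split_ifs <;> norm_num

/-- Parseval -/
theorem hsg_parseval (l : ℕ) (ρ : ℕ → ℤ) (hρ : ∀ r, ρ r * ρ r = 1) :
    ∑ m ∈ Finset.range (2 ^ l), (∑ r ∈ Finset.range (2 ^ l), ρ r * hsg l m r) ^ 2 =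
      (2 ^ l : ℤ) ^ 2 := by
  have h1 : ∀ m, (∑ r ∈ Finset.range (2 ^ l), ρ r * hsg l m r) ^ 2 =
      ∑ r ∈ Finset.range (2 ^ l), ∑ r' ∈ Finset.range (2 ^ l),
        ρ r * ρ r' * (hsg l m r * hsg l m r') := by
    intro m
    rw [sq, Finset.sum_mul_sum]
    refine Finset.sum_congr rfl fun r _ => Finset.sum_congr rfl fun r' _ => ?_
    ring
  simp_rw [h1]
  rw [Finset.sum_comm]
  have h2 : ∀ r ∈ Finset.range (2 ^ l), ∑ m ∈ Finset.range (2 ^ l),
      ∑ r' ∈ Finset.range (2 ^ l), ρ r * ρ r' * (hsg l m r * hsg l m r') = 2 ^ l := by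
    intro r hr
    rw [Finset.sum_comm, Finset.sum_eq_single r]
    · simp only [hsg_self, hρ, mul_one]
      simp
    · intro r' hr' hne
      rw [← Finset.mul_sum, hsg_ortho (Finset.mem_range.1 hr) (Finset.mem_range.1 hr')
        (fun h => hne h.symm), mul_zero]
    · intro h
      exact absurd hr h
  rw [Finset.sum_congr rfl h2]
  simp [sq]

open Classical in
theorem agr_sum (l : ℕ) (R W : ℕ → Prop) :
    ∑ r ∈ Finset.range (2 ^ l), (if R r then (-1 : ℤ) else 1) * (if W r then (-1 : ℤ) else 1) =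
      2 * (agr (2 ^ l) R W : ℤ) - 2 ^ l := by
  have h1 : ∀ r, (if R r then (-1 : ℤ) else 1) * (if W r then (-1 : ℤ) else 1) =
      2 * (if (R r ↔ W r) then 1 else 0) - 1 := by
    intro r
    by_cases h : R r <;> by_cases h' : W r <;> simp [h, h']
  simp_rw [h1]
  rw [Finset.sum_sub_distrib, ← Finset.mul_sum]
  unfold agr
  simp

open Classical in
/-- the number with the given bits -/
noncomputable def hof (l : ℕ) (f : ℕ → Prop) : ℕ := ∑ i ∈ Finset.range l, if f i then 2 ^ i else 0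

theorem hof_spec (l : ℕ) (f : ℕ → Prop) : hof l f < 2 ^ l ∧ ∀ i < l, (bt (hof l f) i = 1 ↔ f i) := by
  classical
  induction l with
  | zero => simp [hof]
  | succ l ih =>
    have h1 : hof (l + 1) f = hof l f + if f l then 2 ^ l else 0 := by
      unfold hof
      rw [Finset.sum_range_succ]
    have h2 : 2 ^ (l + 1) = 2 ^ l + 2 ^ l := by ring
    by_cases hf : f l
    · rw [if_pos hf, Nat.add_comm (hof l f) (2 ^ l)] at h1
      rw [h1]
      refine ⟨by omega, fun i hi => ?_⟩
      rcases Nat.lt_succ_iff_lt_or_eq.1 hi with h | h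
      · rw [hb_add_lt h]
        exact ih.2 i h
      · rw [h, hb_add_self ih.1]
        exact ⟨fun _ => hf, fun _ => rfl⟩
    · rw [if_neg hf, add_zero] at h1
      rw [h1]
      refine ⟨by omega, fun i hi => ?_⟩
      rcases Nat.lt_succ_iff_lt_or_eq.1 hi with h | h
      · exact ih.2 i h
      · rw [h, hb_lt_self ih.1]
        exact ⟨fun h => absurd h (by norm_num), fun h => absurd h hf⟩

open Classical in
theorem had_list (l lam : ℕ) (R : ℕ → Prop) :
    ((Finset.range (2 ^ l)).filter fun m =>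
      Adv (2 ^ l) lam R (hde l fun i => bt m i = 1)).card ≤ 2 ^ (2 * lam) := by
  set N : ℤ := 2 ^ l with hN
  have hNpos : 0 < N := by positivity
  set F := (Finset.range (2 ^ l)).filter fun m =>
      Adv (2 ^ l) lam R (hde l fun i => bt m i = 1) with hF
  set X : ℕ → ℤ := fun m => ∑ r ∈ Finset.range (2 ^ l), (if R r then (-1 : ℤ) else 1) * hsg l m r
    with hX
  have hpar : ∑ m ∈ Finset.range (2 ^ l), X m ^ 2 = N ^ 2 :=
    hsg_parseval l (fun r => if R r then (-1 : ℤ) else 1) (fun r => by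
      by_cases h : R r <;> simp [h])
  have hadv : ∀ m ∈ F, N ^ 2 ≤ 2 ^ (2 * lam) * X m ^ 2 := by
    intro m hm
    have h1 := (Finset.mem_filter.1 hm).2
    unfold Adv at h1
    have h2 : X m = 2 * (agr (2 ^ l) R (hde l fun i => bt m i = 1) : ℤ) - 2 ^ l := by
      rw [hX]
      simp only [hsg_eq]
      exact agr_sum l R _
    have hpos : 0 < 2 ^ l := by positivity
    have h3 : 2 ^ l ≤ 2 * agr (2 ^ l) R (hde l fun i => bt m i = 1) := by
      by_contra hcon
      push Not at hcon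
      rw [Nat.sub_eq_zero_of_le hcon.le, mul_zero] at h1
      omega
    have h4 : N ≤ 2 ^ lam * X m := by
      have h5 : ((2 ^ l : ℕ) : ℤ) ≤ ((2 ^ lam * (2 * agr (2 ^ l) R (hde l fun i => bt m i = 1) -
        2 ^ l) : ℕ) : ℤ) := by exact_mod_cast h1
      rw [Nat.cast_mul, Nat.cast_sub h3] at h5
      push_cast at h5
      rw [h2]
      exact h5
    calc N ^ 2 ≤ (2 ^ lam * X m) ^ 2 := pow_le_pow_left₀ hNpos.le h4 2
      _ = 2 ^ (2 * lam) * X m ^ 2 := by ring
  have h6 : (F.card : ℤ) * N ^ 2 ≤ 2 ^ (2 * lam) * N ^ 2 := by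
    calc (F.card : ℤ) * N ^ 2 = ∑ _m ∈ F, N ^ 2 := by rw [Finset.sum_const, nsmul_eq_mul]
      _ ≤ ∑ m ∈ F, 2 ^ (2 * lam) * X m ^ 2 := Finset.sum_le_sum hadv
      _ ≤ ∑ m ∈ Finset.range (2 ^ l), 2 ^ (2 * lam) * X m ^ 2 :=
          Finset.sum_le_sum_of_subset_of_nonneg (Finset.filter_subset _ _)
            fun m _ _ => by positivity
      _ = 2 ^ (2 * lam) * N ^ 2 := by rw [← Finset.mul_sum, hpar]
  have h7 : (F.card : ℤ) ≤ 2 ^ (2 * lam) := le_of_mul_le_mul_right h6 (by positivity)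
  exact_mod_cast h7

theorem hadOk (K lam : ℕ) : (had K lam).Ok := by
  classical
  intro f R hA
  set l := 2 ^ K with hl
  obtain ⟨hm, hbits⟩ := hof_spec l f
  set m := hof l f with hmdef
  have hcode : ∀ r, hde l f r ↔ hde l (fun i => bt m i = 1) r := by
    intro r
    unfold hde
    refine Iff.of_eq (congrArg (fun c => c % 2 = 1) (cardf_eq _ _ fun i hi => ?_))
    exact and_congr_left fun _ => (hbits i (Finset.mem_range.1 hi)).symm
  have hcode' : hde l f = hde l (fun i => bt m i = 1) := funext fun r => propext (hcode r)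
  have hAm : Adv (2 ^ l) lam R (hde l (fun i => bt m i = 1)) := by
    have h1 : Adv (2 ^ l) lam R (hde l f) := hA
    rwa [hcode'] at h1
  set rk : ℕ → ℕ := fun m' => ((Finset.range m').filter fun m'' =>
      Adv (2 ^ l) lam R (hde l fun i => bt m'' i = 1)).card with hrk
  have hrklt : ∀ a b, a < b → Adv (2 ^ l) lam R (hde l (fun i => bt a i = 1)) → rk a < rk b := by
    intro a b hab ha
    refine Finset.card_lt_card ?_
    rw [Finset.ssubset_iff_of_subset]
    · refine ⟨a, ?_, ?_⟩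
      · rw [Finset.mem_filter, Finset.mem_range]
        exact ⟨hab, ha⟩
      · rw [Finset.mem_filter, Finset.mem_range]
        exact fun h => absurd h.1 (lt_irrefl a)
    · intro x hx
      rw [Finset.mem_filter, Finset.mem_range] at hx ⊢
      exact ⟨hx.1.trans hab, hx.2⟩
  have hu : rk m < 2 ^ (2 * lam) := (hrklt m (2 ^ l) hm hAm).trans_le (had_list l lam R)
  have hgood : ∀ y < l, ((had K lam).dec R (rk m) y ↔ f y) := by
    intro y hy
    constructor
    · rintro ⟨m', hm', hA', hr', hb'⟩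
      have h1 : m' = m := by
        have hr'' : rk m' = rk m := hr'
        rcases lt_trichotomy m' m with h | h | h
        · have := hrklt m' m h hA'
          omega
        · exact h
        · have := hrklt m m' h hAm
          omega
      rw [h1] at hb'
      exact (hbits y hy).1 hb'
    · intro hf
      exact ⟨m, hm, hAm, rfl, (hbits y hy).2 hf⟩
  have hcard : 1 ≤ ((Finset.range (had K lam).V).filter fun u =>
      ∀ y < 2 ^ (had K lam).K, ((had K lam).dec R u y ↔ f y)).card := by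
    rw [Nat.one_le_iff_ne_zero, ← Nat.pos_iff_ne_zero, Finset.card_pos]
    refine ⟨rk m, ?_⟩
    rw [Finset.mem_filter, Finset.mem_range]
    exact ⟨hu, hgood⟩
  calc (had K lam).V = 2 ^ (had K lam).mu * 1 := by rw [mul_one]; rfl
    _ ≤ _ := Nat.mul_le_mul_left _ hcard

end LSA
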