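import Pool.Agent.H85B.Defs
import Pool.Agent.H69A.Inv

/-!
# H85B/Itp: interpolation at `0` from an arbitrary set of points

Module `H85B/Itp`.

* `interp`: Lagrange interpolation, `Mathlib/LinearAlgebra/Lagrange.lean`: `Lagrange.eq_interpolate_of_eval_eq`,
  `Lagrange.interpolate_apply`, `Lagrange.eval_basis...`: the basis polynomial of `t ∈ S` has at `0` the value
  `∏ u ∈ S.erase t, (t - u)⁻¹ * (0 - u) = ∏ u ∈ S.erase t, u * (u - t)⁻¹`.
* `itp_eq`: cast `itp` to `ZMod q`; for `u ≠ t`, both below `m < q`, `q` does not divide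
  `u + 1 + (q - (t + 1))`, and its cast is `(u + 1) - (t + 1)` (`cast_inv`, `H69A/Inv`). Take
  `S = ((range m).filter D).image (fun t => ((t + 1 : ℕ) : ZMod q))` (injective because `m < q`; `0 ∉ S`).
-/

set_option autoImplicit false

namespace LSA

open Polynomial

theorem interp {F : Type} [Field F] [DecidableEq F] (S : Finset F) (h0 : (0 : F) ∉ S) (g : F[X])
    (hg : g.natDegree < S.card) :
    ∑ t ∈ S, g.eval t * ∏ u ∈ S.erase t, u * (u - t)⁻¹ = g.eval 0 := by
  have hdeg : g.degree < S.card :=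
    lt_of_le_of_lt degree_le_natDegree (by exact_mod_cast hg)
  have h1 := Lagrange.eq_interpolate_of_eval_eq (s := S) (v := fun x : F => x)
    (r := fun t => g.eval t) (fun _ _ _ _ h => h) hdeg (fun i _ => rfl)
  have h2 : g.eval 0 = (Lagrange.interpolate S (fun x : F => x) (fun t => g.eval t)).eval 0 := by
    rw [← h1]
  rw [h2, Lagrange.interpolate_apply, eval_finsetSum]
  refine Finset.sum_congr rfl fun t _ => ?_
  rw [eval_mul, eval_C]
  congr 1
  unfold Lagrange.basis
  rw [eval_prod]
  refine Finset.prod_congr rfl fun u _ => ?_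
  unfold Lagrange.basisDivisor
  rw [eval_mul, eval_C, eval_sub, eval_X, eval_C, ← neg_sub u t, inv_neg]
  ring

theorem itp_lt {q : ℕ} (hq : 0 < q) (m : ℕ) (D : ℕ → Prop) (g : ℕ → ℕ) : itp q m D g < q :=
  Nat.mod_lt _ hq

open Classical in
theorem itp_eq {q : ℕ} [Fact q.Prime] {m : ℕ} (hm : m < q) (D : ℕ → Prop) (g : ℕ → ℕ)
    (h : (ZMod q)[X])
    (hg : ∀ t < m, D t → ((g t : ℕ) : ZMod q) = h.eval ((t + 1 : ℕ) : ZMod q))
    (hcard : h.natDegree < ((Finset.range m).filter fun t => D t).card) :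
    ((itp q m D g : ℕ) : ZMod q) = h.eval 0 := by
  set A : Finset ℕ := (Finset.range m).filter fun t => D t with hA
  set φ : ℕ → ZMod q := fun t => ((t + 1 : ℕ) : ZMod q) with hφ
  have hAm : ∀ t ∈ A, t < m := fun t ht => Finset.mem_range.1 (Finset.mem_filter.1 ht).1
  have hinj : ∀ t ∈ A, ∀ u ∈ A, φ t = φ u → t = u := by
    intro t ht u hu e
    have h1 := (ZMod.natCast_eq_natCast_iff' (t + 1) (u + 1) q).1 e
    have ht' := hAm t ht
    have hu' := hAm u hu
    rw [Nat.mod_eq_of_lt (by omega), Nat.mod_eq_of_lt (by omega)] at h1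
    omega
  have h0 : (0 : ZMod q) ∉ A.image φ := by
    intro hmem
    obtain ⟨t, ht, e⟩ := Finset.mem_image.1 hmem
    have ht' := hAm t ht
    have h1 : ((t + 1 : ℕ) : ZMod q) = ((0 : ℕ) : ZMod q) := by simpa [hφ] using e
    have h2 := (ZMod.natCast_eq_natCast_iff' (t + 1) 0 q).1 h1
    rw [Nat.mod_eq_of_lt (by omega), Nat.mod_eq_of_lt (by omega)] at h2
    omega
  have hcd : h.natDegree < (A.image φ).card := by
    rw [Finset.card_image_of_injOn (fun t ht u hu e => hinj t ht u hu e)]
    exact hcard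
  rw [← interp (A.image φ) h0 h hcd, Finset.sum_image hinj]
  unfold itp
  rw [ZMod.natCast_mod, Nat.cast_sum]
  rw [hA, Finset.sum_filter]
  refine Finset.sum_congr rfl fun t ht => ?_
  have htm := Finset.mem_range.1 ht
  by_cases hD : D t
  · rw [if_pos hD, if_pos hD, Nat.cast_mul, hg t htm hD, ZMod.natCast_mod, Nat.cast_prod]
    congr 1
    have htA : t ∈ A := Finset.mem_filter.2 ⟨ht, hD⟩
    have hE : (A.image φ).erase (φ t) = (A.erase t).image φ := by
      ext y
      simp only [Finset.mem_erase, Finset.mem_image]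
      constructor
      · rintro ⟨hne, u, hu, rfl⟩
        exact ⟨u, ⟨fun e => hne (by rw [e]), hu⟩, rfl⟩
      · rintro ⟨u, ⟨hne, hu⟩, rfl⟩
        exact ⟨fun e => hne (hinj u hu t htA e), u, hu, rfl⟩
    rw [← hA]
    show _ = ∏ u ∈ (A.image φ).erase (φ t), u * (u - φ t)⁻¹
    rw [hE, Finset.prod_image (fun u hu w hw e =>
      hinj u (Finset.mem_of_mem_erase hu) w (Finset.mem_of_mem_erase hw) e)]
    have hAe : A.erase t = (Finset.range m).filter fun u => D u ∧ u ≠ t := by
      ext u
      simp only [hA, Finset.mem_erase, Finset.mem_filter]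
      tauto
    rw [hAe, Finset.prod_filter]
    refine Finset.prod_congr rfl fun u hu => ?_
    have hum := Finset.mem_range.1 hu
    by_cases hDu : D u ∧ u ≠ t
    · rw [if_pos hDu, if_pos hDu, Nat.cast_mul]
      have hnd : ¬ q ∣ u + 1 + (q - (t + 1)) := by
        intro hdvd
        obtain ⟨k, hk⟩ := hdvd
        have hne := hDu.2
        have hk1 : k < 2 := by
          by_contra hk2
          have : q * 2 ≤ q * k := Nat.mul_le_mul_left q (by omega)
          omega
        interval_cases k <;> omega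
      rw [cast_inv hnd]
      have hc : ((u + 1 + (q - (t + 1)) : ℕ) : ZMod q) = φ u - φ t := by
        have e1 : (u + 1 + (q - (t + 1))) + (t + 1) = (u + 1) + q := by omega
        have e2 := congrArg (fun n : ℕ => (n : ZMod q)) e1
        simp only [Nat.cast_add (R := ZMod q) (u + 1 + (q - (t + 1))) (t + 1),
          Nat.cast_add (R := ZMod q) (u + 1) q, CharP.cast_eq_zero, add_zero] at e2
        simp only [hφ]
        rw [← e2]
        ring
      rw [hc]
    · rw [if_neg hDu, if_neg hDu, Nat.cast_one]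
  · rw [if_neg hD, if_neg hD, Nat.cast_zero]

end LSA
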