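import Pool.Agent.H85B.ParJ2
import Pool.Agent.H69A.Lang

/-!
# H85B/LangJ: the language

Module `H85B/LangJ`.

* `sJ_eq`: `Nat.size (2 ^ n + x) = n + 1` for `x < 2 ^ n` (`size_two_pow_add` in `H69A/Lang`), `LSC.mu_eq`, `nJ_lt`,
  and `s < nJ J c s + 1` (`nJ_ge`, `s < (s + 1) ^ J`).
* `Pr.LJ`: let `s' N = if nJ J c (sJ J c N) + 1 = Nat.size N then sJ J c N else 0`; then `Fn C s'` (`fn_nJ`, `Fn.mu`,
  `Fn.ite`) and `Lin J s'` (`nJ_ge`: `(s' + 1) ^ J ≤ nJ J c s' ≤ Nat.size N`, or `(0 + 1) ^ J = 1`). If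
  `sJ J c N < Nat.size N` then `s' N = sJ J c N` (`LSC.mu_spec`), so `LJ J c f N` is equivalent to
  `sJ J c N < Nat.size N ∧ (fam J c J (s' N)).enc (f (s' N)) ((N - 2 ^ nJ J c (s' N)) % (fam J c J (s' N)).M)`;
  `fam_dfb` (`enc`, `M`); `2 ^ nJ J c (s' N)`: `nJ_le` and `Lin`.
-/

set_option autoImplicit false

namespace LSA

open LSC

theorem sJ_eq {J : ℕ} (hJ : 2 ≤ J) (c : ℕ) {s x : ℕ} (hx : x < 2 ^ nJ J c s) :
    sJ J c (2 ^ nJ J c s + x) = s := by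
  unfold sJ
  rw [size_two_pow_add hx]
  refine mu_eq ?_ rfl ?_
  · have h1 := nJ_ge hJ c s
    have h2 : s + 1 ≤ (s + 1) ^ J := Nat.le_self_pow (by omega) _
    omega
  · intro j hj h
    have h3 := nJ_lt hJ c hj
    omega

theorem LJ_iff {J : ℕ} (hJ : 2 ≤ J) (c : ℕ) (f : ℕ → ℕ → Prop) {s x : ℕ}
    (hx : x < 2 ^ nJ J c s) :
    LJ J c f (2 ^ nJ J c s + x) ↔ (fam J c J s).enc (f s) (x % (fam J c J s).M) := by
  unfold LJ
  rw [sJ_eq hJ c hx, Nat.add_sub_cancel_left, size_two_pow_add hx]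
  have h1 := nJ_ge hJ c s
  have h2 : s + 1 ≤ (s + 1) ^ J := Nat.le_self_pow (by omega) _
  constructor
  · rintro ⟨-, h⟩; exact h
  · intro h; exact ⟨by omega, h⟩

protected theorem Pr.LJ {C : NClass} [Calc C] {J : ℕ} (hJ : 2 ≤ J) (c : ℕ) {f : ℕ → ℕ → Prop}
    (hf : Pr C (fun q : ℕ × ℕ => f q.1 q.2)) : Pr C (fun N : ℕ => LJ J c f N) := by
  classical
  have fS : Fn C (fun N : ℕ => sJ J c N) := by
    unfold sJ
    refine Fn.mu (n := fun N : ℕ => Nat.size N)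
      (p := fun N s => nJ J c s + 1 = Nat.size N) (by fun_prop) ?_
    have h1 : Fn C (fun q : ℕ × ℕ => nJ J c q.2) := (fn_nJ hJ c C).comp Fn.snd
    fun_prop
  have fn : Fn C (nJ J c) := fn_nJ hJ c C
  let s' : ℕ → ℕ := fun N => if nJ J c (sJ J c N) + 1 = Nat.size N then sJ J c N else 0
  have fs' : Fn C s' := by
    have h1 : Fn C (fun N : ℕ => nJ J c (sJ J c N)) := fn.comp fS
    have h2 : Pr C (fun N : ℕ => nJ J c (sJ J c N) + 1 = Nat.size N) := by fun_prop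
    exact Fn.ite h2 fS (Fn.const 0)
  have hlin : Lin J s' := by
    refine ⟨1, fun N => ?_⟩
    rw [sz_nat, one_mul]
    show ((if nJ J c (sJ J c N) + 1 = Nat.size N then sJ J c N else 0) + 1) ^ J ≤ _
    split_ifs with h
    · have := nJ_ge hJ c (sJ J c N)
      omega
    · rw [zero_add, one_pow]
      omega
  have hD := fam_dfb hJ c (le_refl J)
  have fM : Fn C (fun N => (fam J c J (s' N)).M) := hD.M C ℕ s' fs' hlin
  have fP : Fn C (fun N => 2 ^ nJ J c (s' N)) := by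
    obtain ⟨c1, hc1⟩ := nJ_le hJ c
    obtain ⟨c2, hc2⟩ := hlin
    refine Fn.pow2 (fn.comp fs') (c1 * c2) fun N => ?_
    calc nJ J c (s' N) ≤ c1 * (s' N + 1) ^ J := hc1 _
      _ ≤ c1 * (c2 * (sz N + 1)) := Nat.mul_le_mul_left _ (hc2 N)
      _ = c1 * c2 * (sz N + 1) := by ring
  have fx : Fn C (fun N => (N - 2 ^ nJ J c (s' N)) % (fam J c J (s' N)).M) := by
    have h1 : Fn C (fun N : ℕ => N) := Fn.id
    exact (h1.sub fP).mod fM
  have hf' : Pr C (fun q : ℕ × ℕ => f (s' q.1) q.2) := by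
    have h1 : Fn C (fun q : ℕ × ℕ => (s' q.1, q.2)) := (fs'.comp Fn.fst).pair Fn.snd
    exact hf.comp h1
  have hE := hD.enc C ℕ s' (fun N => (N - 2 ^ nJ J c (s' N)) % (fam J c J (s' N)).M)
    (fun N => f (s' N)) fs' hlin fx hf'
  have hL : Pr C (fun N : ℕ => sJ J c N < Nat.size N) := by fun_prop
  refine (hL.and hE).congr fun N => ?_
  unfold LJ
  refine and_congr_right fun h => ?_
  have h1 : nJ J c (sJ J c N) + 1 = Nat.size N :=
    mu_spec (n := Nat.size N) (p := fun s => nJ J c s + 1 = Nat.size N) h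
  have h2 : s' N = sJ J c N := if_pos h1
  rw [h2]

end LSA
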