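import Pool.Agent.H85P.Half
import Pool.Agent.H85B.CoreJ

/-!
# Average case and worst case: agreement `1 / 2 + 2 ^ (- n ^ (1 - η))`
-/

set_option autoImplicit false

namespace LSC

open H85L LSP LSA

/-- the exponents: `n ^ (1 - η)` is at most `(s + 1) ^ (J - 1)` for `n ≤ c * (s + 1) ^ J` and large `s` -/
theorem ceil_rpow_le {η : ℝ} (h1 : η < 1) {J : ℕ} (hJ : 1 ≤ J) (hJη : 1 < J * η)
    (c : ℕ) : ∃ s₀ : ℕ, ∀ s ≥ s₀, ∀ n ≤ c * (s + 1) ^ J,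
      ⌈(n : ℝ) ^ (1 - η)⌉₊ ≤ (s + 1) ^ (J - 1) := by
  have hδ : 0 < J * η - 1 := by linarith
  have ht : Filter.Tendsto (fun s : ℕ => ((s : ℝ) + 1) ^ (J * η - 1)) Filter.atTop
      Filter.atTop := by
    refine (tendsto_rpow_atTop hδ).comp ?_
    exact Filter.tendsto_atTop_add_const_right _ _ tendsto_natCast_atTop_atTop
  obtain ⟨s₀, hs₀⟩ := Filter.eventually_atTop.mp
    (ht.eventually (Filter.eventually_ge_atTop ((c : ℝ) ^ (1 - η))))
  refine ⟨s₀, fun s hs n hn => ?_⟩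
  rw [Nat.ceil_le]
  have hs1 : (0 : ℝ) < (s : ℝ) + 1 := by positivity
  have e1 : (n : ℝ) ≤ c * ((s : ℝ) + 1) ^ J := by exact_mod_cast hn
  have e2 : (n : ℝ) ^ (1 - η) ≤ (c * ((s : ℝ) + 1) ^ J) ^ (1 - η) :=
    Real.rpow_le_rpow (Nat.cast_nonneg _) e1 (by linarith)
  have e3 : (c * ((s : ℝ) + 1) ^ J) ^ (1 - η) = (c : ℝ) ^ (1 - η) * ((s : ℝ) + 1) ^ (J * (1 - η)) := by
    rw [Real.mul_rpow (Nat.cast_nonneg _) (by positivity), ← Real.rpow_natCast,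
      ← Real.rpow_mul hs1.le]
  have e4 : ((s : ℝ) + 1) ^ (J * η - 1) * ((s : ℝ) + 1) ^ (J * (1 - η)) =
      ((s : ℝ) + 1) ^ (J - 1) := by
    rw [← Real.rpow_add hs1, show (J : ℝ) * η - 1 + J * (1 - η) = ((J - 1 : ℕ) : ℝ) by
      rw [Nat.cast_sub hJ]
      push_cast
      ring, Real.rpow_natCast]
  have e5 : (c : ℝ) ^ (1 - η) * ((s : ℝ) + 1) ^ (J * (1 - η)) ≤
      ((s : ℝ) + 1) ^ (J * η - 1) * ((s : ℝ) + 1) ^ (J * (1 - η)) :=
    mul_le_mul_of_nonneg_right (hs₀ s hs) (by positivity)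
  push_cast
  rw [← e4]
  exact (e2.trans e3.le).trans e5

/-- the theorem for the agreement `1 / 2 + 2 ^ (- n ^ (1 - η))` -/
theorem incl_iff_near {κ₁ κ₂ : Kind} (h₁ : κ₁.det = true ∨ κ₁.time = false)
    (h₂ : κ₂.det = true ∨ κ₂.time = false) {η : ℝ} (h0 : 0 < η) (h1 : η < 1) :
    LinIncl κ₂ κ₁ ↔ ∀ L : Set (List Bool), LinClass κ₂ L →
      ∃ (k : ℕ) (L' : Set (List (Bool × (Fin k → Bool)))) (adv : ∀ n, Fin n → Fin k → Bool)
        (n0 : ℕ), LinClass κ₁ L' ∧ ∀ n ≥ n0, (1 / 2 + (2 : ℝ) ^ (-(n : ℝ) ^ (1 - η))) * 2 ^ n ≤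
          ({w : Fin n → Bool |
            List.ofFn w ∈ L ↔ (List.ofFn fun i => (w i, adv n i)) ∈ L'}.ncard : ℝ) := by
  classical
  obtain ⟨ε, hε⟩ : ∃ ε : ℕ → ℝ, ∀ n, ε n = (2 : ℝ) ^ (-(n : ℝ) ^ (1 - η)) := ⟨_, fun _ => rfl⟩
  simp only [← hε]
  have hεpos : ∀ n, 0 < ε n := fun n => by
    rw [hε]
    positivity
  have hε1 : ∀ n, n ≠ 0 → ε n ≤ 1 / 2 := fun n hn => by
    have e1 : (1 : ℝ) ≤ (n : ℝ) := by exact_mod_cast Nat.one_le_iff_ne_zero.mpr hn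
    have e2 : (1 : ℝ) ≤ (n : ℝ) ^ (1 - η) := Real.one_le_rpow e1 (by linarith)
    rw [hε]
    calc (2 : ℝ) ^ (-(n : ℝ) ^ (1 - η)) ≤ (2 : ℝ) ^ (-1 : ℝ) :=
          Real.rpow_le_rpow_of_exponent_le (by norm_num) (by linarith)
      _ = 1 / 2 := by
        rw [Real.rpow_neg_one]
        norm_num
  have hεl : ∀ n : ℕ, 1 ≤ (2 : ℝ) ^ ⌈(n : ℝ) ^ (1 - η)⌉₊ * ε n := fun n => by
    rw [hε, ← Real.rpow_natCast, ← Real.rpow_add (by norm_num)]
    refine Real.one_le_rpow (by norm_num) ?_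
    have := Nat.le_ceil ((n : ℝ) ^ (1 - η))
    linarith
  obtain ⟨good, hgood⟩ : ∃ good : ℕ → ℕ → Prop, ∀ n b, good n b ↔
      ((n = 0 ∧ b = 0) ∨ (n ≠ 0 ∧ (1 / 2 + ε n) * 2 ^ n + (b : ℝ) ≤ 2 ^ n)) :=
    ⟨_, fun _ _ => Iff.rfl⟩
  have hg0 : ∀ n, good n 0 := by
    intro n
    rw [hgood]
    rcases Nat.eq_zero_or_pos n with h | h
    · exact Or.inl ⟨h, rfl⟩
    · refine Or.inr ⟨by omega, ?_⟩
      have e1 := hε1 n (by omega)
      have e2 : (0 : ℝ) < 2 ^ n := by positivity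
      simp only [Nat.cast_zero, add_zero]
      nlinarith
  have hmono : ∀ n b b', b' ≤ b → good n b → good n b' := by
    intro n b b' hb
    rw [hgood, hgood]
    rintro (⟨h, h'⟩ | ⟨h, h'⟩)
    · exact Or.inl ⟨h, by omega⟩
    · refine Or.inr ⟨h, ?_⟩
      have : (b' : ℝ) ≤ b := by exact_mod_cast hb
      linarith
  have hg : ∀ n (w : Set (Fin n → Bool)) (b : ℕ), n ≠ 0 → w.ncard + b = 2 ^ n →
      ((1 / 2 + ε n) * 2 ^ n ≤ (w.ncard : ℝ) ↔ good n b) := by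
    intro n w b hn h
    have h3 : (w.ncard : ℝ) + b = 2 ^ n := by exact_mod_cast h
    rw [hgood]
    constructor
    · intro h4
      exact Or.inr ⟨hn, by linarith⟩
    · rintro (⟨h4, -⟩ | ⟨-, h4⟩)
      · exact absurd h4 hn
      · linarith
  constructor
  · intro h L hL
    obtain ⟨k, L', adv, n0, hL', hgd⟩ := mach_of_incl hg0 h L hL
    refine ⟨k, L', adv, max n0 1, hL', fun n hn => ?_⟩
    have hn0 : n ≠ 0 := by
      have := le_max_right n0 1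
      omega
    exact (hg n _ _ hn0 (ncard_agree _)).mpr (hgd n ((le_max_left _ _).trans hn))
  · intro h Δ _ L hL
    have hM : MAvg good κ₂ κ₁ := by
      intro L hL
      obtain ⟨k, L', adv, n0, hL', hgd⟩ := h L hL
      refine ⟨k, L', adv, max n0 1, hL', fun n hn => ?_⟩
      have hn0 : n ≠ 0 := by
        have := le_max_right n0 1
        omega
      exact (hg n _ _ hn0 (ncard_agree _)).mp (hgd n ((le_max_left _ _).trans hn))
    have hA : AvgL (fun n => ⌈(n : ℝ) ^ (1 - η)⌉₊) (KC κ₁) (KC κ₂) := by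
      intro P hP
      obtain ⟨Q, A, c, hQ, hA, hgd⟩ := avg_of_mach hmono hg0 h₁ hM P hP
      refine ⟨Q, A, c, hQ, hA, fun n => ?_⟩
      have h3 := card_agree n (fun x => P (2 ^ n + x) ↔ Q (2 ^ n + x, A n))
      have h2 := hgd n
      rw [hgood] at h2
      unfold Adv agr
      obtain ⟨a, ha⟩ : ∃ a, a = ((Finset.range (2 ^ n)).filter fun x =>
        P (2 ^ n + x) ↔ Q (2 ^ n + x, A n)).card := ⟨_, rfl⟩
      obtain ⟨b, hb⟩ : ∃ b, b =
        {x | x < 2 ^ n ∧ ¬ (P (2 ^ n + x) ↔ Q (2 ^ n + x, A n))}.ncard := ⟨_, rfl⟩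
      rw [← ha, ← hb] at h3
      rw [← hb] at h2
      have key : 2 ^ n ≤ 2 ^ ⌈(n : ℝ) ^ (1 - η)⌉₊ * (2 * a - 2 ^ n) := by
        rcases h2 with ⟨h4, h5⟩ | ⟨h4, h5⟩
        · have h6 : 1 ≤ 2 ^ ⌈(n : ℝ) ^ (1 - η)⌉₊ := Nat.one_le_two_pow
          have h7 : 2 * a - 2 ^ n = 2 ^ n := by omega
          rw [h7]
          exact Nat.le_mul_of_pos_left _ h6
        · have h6 : (a : ℝ) + b = 2 ^ n := by exact_mod_cast h3
          have h7 : (0 : ℝ) < 2 ^ n := by positivity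
          have h8 : (2 : ℝ) ^ n ≤ 2 * a := by
            have := mul_pos (hεpos n) h7
            nlinarith
          have h9 : 2 ^ n ≤ 2 * a := by exact_mod_cast h8
          have h10 : ((2 * a - 2 ^ n : ℕ) : ℝ) = 2 * a - 2 ^ n := by
            rw [Nat.cast_sub h9]
            push_cast
            ring
          have h11 : 2 * ε n * 2 ^ n ≤ 2 * a - 2 ^ n := by linarith
          have h12 : (2 : ℝ) ^ n ≤ 2 ^ ⌈(n : ℝ) ^ (1 - η)⌉₊ * (2 * a - 2 ^ n) := by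
            calc (2 : ℝ) ^ n = 1 * 2 ^ n := (one_mul _).symm
              _ ≤ (2 ^ ⌈(n : ℝ) ^ (1 - η)⌉₊ * ε n) * 2 ^ n :=
                mul_le_mul_of_nonneg_right (hεl n) h7.le
              _ ≤ 2 ^ ⌈(n : ℝ) ^ (1 - η)⌉₊ * (2 * ε n * 2 ^ n) := by
                have : (0 : ℝ) < 2 ^ ⌈(n : ℝ) ^ (1 - η)⌉₊ := by positivity
                have := mul_pos (mul_pos this (hεpos n)) h7
                nlinarith
              _ ≤ 2 ^ ⌈(n : ℝ) ^ (1 - η)⌉₊ * (2 * a - 2 ^ n) :=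
                mul_le_mul_of_nonneg_left h11 (by positivity)
          rw [← h10] at h12
          exact_mod_cast h12
      convert key
      rw [ha]
    obtain ⟨m, hm⟩ := exists_nat_gt (1 / η)
    have hm2 : 1 < ((m + 2 : ℕ) : ℝ) * η := by
      have h3 := (div_lt_iff₀ h0).mp hm
      push_cast
      nlinarith
    exact (lin_iff h₁).mpr (coreJ (locChk h₂) (J := m + 2) (by omega)
      (fun c => ceil_rpow_le h1 (by omega) hm2 c) hA _ (lin_pr h₂ hL))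

end LSC
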