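import Pool.Agent.H85B.Defs

/-!
# H85B/Pad: averaging

Module `H85B/Pad`. `Adv M lam R W` means `M ≤ 2 ^ lam * (2 * agr M R W - M)` (truncated subtraction). Work in the
integers: for `M > 0` it says `M ≤ 2 ^ lam * (2 * agr M R W - M)` in `ℤ`.

* `adv_pad`: the word `x < 2 ^ n` is `x = r + M * p` with `r < M`; let `k = 2 ^ n / M` be the number of the complete
  blocks `p < k`. The rest has fewer than `M` elements, and `M * 2 ^ (l + 1) ≤ 2 ^ n`. If no block `p < k` had
  the property, then `2 ^ (l + 1) * (2 * agr_p - M) < M` for all `p < k` (in `ℤ`); the sum over `p` gives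
  `2 ^ (l + 1) * (2 * agr_blocks - k M) < k M ≤ 2 ^ n`, and `2 * agr - 2 ^ n ≤ 2 * agr_blocks - k M + M`, so
  `2 ^ (l + 1) * (2 * agr - 2 ^ n) < 2 ^ n + 2 ^ (l + 1) * M ≤ 2 * 2 ^ n`, a contradiction. (Sums over `x < k M` as
  double sums: `Finset.sum_range`-type lemma for `range (k * M)`, or induction on `k`.)
* `adv_fib`: words `x = a + A * b`, `a < A`, `b < M`. If `T` is the number of the `a < A` with `Adv M (l + 1)` for the
  fibre, then `A M ≤ 2 ^ l (2 agr - A M)` and `2 agr - A M = ∑ a, (2 agr_a - M) ≤ T M + A M / 2 ^ (l + 1)`,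
  so `A ≤ 2 ^ (l + 1) T`.
-/

set_option autoImplicit false

namespace LSA

open LSC

private theorem sum_blocks {β : Type*} [AddCommMonoid β] (f : ℕ → β) (k M : ℕ) :
    ∑ x ∈ Finset.range (k * M), f x =
      ∑ p ∈ Finset.range k, ∑ r ∈ Finset.range M, f (r + M * p) := by
  induction k with
  | zero => simp
  | succ k ih =>
    rw [Nat.succ_mul, Finset.sum_range_add, ih, Finset.sum_range_succ]
    congr 1
    refine Finset.sum_congr rfl fun r _ => ?_
    rw [Nat.add_comm, Nat.mul_comm]

open Classical in
private noncomputable def sg (R W : ℕ → Prop) (x : ℕ) : ℤ := if R x ↔ W x then 1 else -1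

private theorem sg_le (R W : ℕ → Prop) (x : ℕ) : sg R W x ≤ 1 := by
  unfold sg
  split_ifs <;> norm_num

private theorem agr_int (M : ℕ) (R W : ℕ → Prop) :
    2 * (agr M R W : ℤ) - M = ∑ x ∈ Finset.range M, sg R W x := by
  classical
  have h : ∀ x, sg R W x = 2 * (if (R x ↔ W x) then (1 : ℤ) else 0) - 1 := by
    intro x
    unfold sg
    split_ifs <;> norm_num
  simp only [h]
  rw [Finset.sum_sub_distrib, ← Finset.mul_sum, Finset.sum_boole]
  simp only [Finset.sum_const, Finset.card_range, nsmul_eq_mul, mul_one]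
  unfold agr
  congr

private theorem adv_iff {M : ℕ} (hM : 0 < M) (lam : ℕ) (R W : ℕ → Prop) :
    Adv M lam R W ↔ (M : ℤ) ≤ 2 ^ lam * ∑ x ∈ Finset.range M, sg R W x := by
  rw [← agr_int]
  unfold Adv
  constructor
  · intro h
    have h1 : M ≤ 2 * agr M R W := by
      by_contra hc
      have h2 : 2 * agr M R W - M = 0 := by omega
      rw [h2, Nat.mul_zero] at h
      omega
    have h3 : ((2 * agr M R W - M : ℕ) : ℤ) = 2 * (agr M R W : ℤ) - M := by
      push_cast [Nat.cast_sub h1]
      ring
    rw [← h3]
    exact_mod_cast h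
  · intro h
    have h1 : M ≤ 2 * agr M R W := by
      by_contra hc
      have h2 : 2 * (agr M R W : ℤ) - M ≤ 0 := by
        push Not at hc
        have h4 : (2 * (agr M R W : ℤ)) < M := by exact_mod_cast hc
        linarith
      have h5 : (2 : ℤ) ^ lam * (2 * (agr M R W : ℤ) - M) ≤ 0 :=
        mul_nonpos_of_nonneg_of_nonpos (by positivity) h2
      have h6 : (0 : ℤ) < M := by exact_mod_cast hM
      linarith
    have h3 : ((2 * agr M R W - M : ℕ) : ℤ) = 2 * (agr M R W : ℤ) - M := by
      push_cast [Nat.cast_sub h1]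
      ring
    rw [← h3] at h
    exact_mod_cast h

/-- padding -/
theorem adv_pad {M n l : ℕ} (hM : 0 < M) (hn : M * 2 ^ (l + 1) ≤ 2 ^ n) (R W : ℕ → Prop)
    (h : Adv (2 ^ n) l R fun x => W (x % M)) :
    ∃ p, p < 2 ^ n ∧ Adv M (l + 1) (fun r => R (r + M * p)) W := by
  by_contra hcon
  push Not at hcon
  rw [adv_iff (by positivity)] at h
  set N : ℕ := 2 ^ n with hN
  set k : ℕ := N / M with hk
  have hkM : k * M ≤ N := Nat.div_mul_le_self N M
  have hrest : N - k * M < M := by
    have h1 : k * M + N % M = N := by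
      rw [Nat.mul_comm]
      exact Nat.div_add_mod N M
    have h2 := Nat.mod_lt N hM
    omega
  have hsplit : N = k * M + (N - k * M) := by omega
  have hsum : ∑ x ∈ Finset.range N, sg R (fun x => W (x % M)) x =
      ∑ p ∈ Finset.range k, ∑ r ∈ Finset.range M, sg R (fun x => W (x % M)) (r + M * p) +
      ∑ x ∈ Finset.range (N - k * M), sg R (fun x => W (x % M)) (k * M + x) := by
    conv_lhs => rw [hsplit]
    rw [Finset.sum_range_add, sum_blocks]
  have hblock : ∀ p ∈ Finset.range k, (2 : ℤ) ^ (l + 1) *
      ∑ r ∈ Finset.range M, sg R (fun x => W (x % M)) (r + M * p) ≤ M := by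
    intro p hp
    have hp1 : p < N := by
      have h1 := Finset.mem_range.1 hp
      have h2 : k ≤ N := Nat.div_le_self _ _
      omega
    have h1 := hcon p hp1
    rw [adv_iff hM] at h1
    push Not at h1
    have h2 : ∑ r ∈ Finset.range M, sg R (fun x => W (x % M)) (r + M * p) =
        ∑ x ∈ Finset.range M, sg (fun r => R (r + M * p)) W x := by
      refine Finset.sum_congr rfl fun r hr => ?_
      have h3 : (r + M * p) % M = r := by
        rw [Nat.add_mul_mod_self_left, Nat.mod_eq_of_lt (Finset.mem_range.1 hr)]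
      have h4 : (R (r + M * p) ↔ W ((r + M * p) % M)) ↔ (R (r + M * p) ↔ W r) := by rw [h3]
      unfold sg
      by_cases hh : (R (r + M * p) ↔ W r)
      · exact (if_pos (h4.2 hh)).trans (if_pos hh).symm
      · exact (if_neg fun h5 => hh (h4.1 h5)).trans (if_neg hh).symm
    rw [h2]
    exact h1.le
  have h1 : (2 : ℤ) ^ (l + 1) *
      ∑ p ∈ Finset.range k, ∑ r ∈ Finset.range M, sg R (fun x => W (x % M)) (r + M * p) ≤
      k * M := by
    rw [Finset.mul_sum]
    refine (Finset.sum_le_sum hblock).trans ?_
    rw [Finset.sum_const, Finset.card_range, nsmul_eq_mul]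
  have h2 : ∑ x ∈ Finset.range (N - k * M), sg R (fun x => W (x % M)) (k * M + x) ≤
      ((N - k * M : ℕ) : ℤ) := by
    refine (Finset.sum_le_sum fun x _ => sg_le _ _ _).trans ?_
    rw [Finset.sum_const, Finset.card_range, nsmul_eq_mul, mul_one]
  have h3 : (2 : ℤ) ^ (l + 1) *
      ∑ x ∈ Finset.range (N - k * M), sg R (fun x => W (x % M)) (k * M + x) < N := by
    have h4 : (2 : ℤ) ^ (l + 1) * ((N - k * M : ℕ) : ℤ) < 2 ^ (l + 1) * M := by
      have h5 : ((N - k * M : ℕ) : ℤ) < M := by exact_mod_cast hrest
      exact mul_lt_mul_of_pos_left h5 (by positivity)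
    have h6 : (2 : ℤ) ^ (l + 1) * M ≤ N := by
      have h7 : 2 ^ (l + 1) * M ≤ N := by rw [Nat.mul_comm]; exact hn
      exact_mod_cast h7
    have h8 := mul_le_mul_of_nonneg_left h2 (show (0 : ℤ) ≤ 2 ^ (l + 1) by positivity)
    linarith
  have h9 : ((k * M : ℕ) : ℤ) ≤ N := by exact_mod_cast hkM
  push_cast at h9
  have h10 : (2 : ℤ) ^ (l + 1) * ∑ x ∈ Finset.range N, sg R (fun x => W (x % M)) x < 2 * N := by
    rw [hsum, mul_add]
    linarith
  rw [pow_succ] at h10
  have h11 : ((N : ℕ) : ℤ) ≤ 2 ^ l * ∑ x ∈ Finset.range N, sg R (fun x => W (x % M)) x := h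
  linarith

open Classical in
/-- many fibres have a large agreement -/
theorem adv_fib {A M l : ℕ} (hA : 0 < A) (hM : 0 < M) (R W : ℕ → Prop) (h : Adv (A * M) l R W) :
    A ≤ 2 ^ (l + 1) * ((Finset.range A).filter fun a =>
      Adv M (l + 1) (fun b => R (a + A * b)) (fun b => W (a + A * b))).card := by
  rw [adv_iff (Nat.mul_pos hA hM)] at h
  set T := (Finset.range A).filter fun a =>
      Adv M (l + 1) (fun b => R (a + A * b)) (fun b => W (a + A * b)) with hT
  have hsum : ∑ x ∈ Finset.range (A * M), sg R W x =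
      ∑ a ∈ Finset.range A, ∑ b ∈ Finset.range M, sg R W (a + A * b) := by
    rw [Nat.mul_comm, sum_blocks, Finset.sum_comm]
  have hfib : ∀ a ∈ Finset.range A, (2 : ℤ) ^ (l + 1) *
      ∑ b ∈ Finset.range M, sg R W (a + A * b) ≤
      (if Adv M (l + 1) (fun b => R (a + A * b)) (fun b => W (a + A * b)) then
        (2 : ℤ) ^ (l + 1) * M else 0) + M := by
    intro a _
    have h2 : ∑ b ∈ Finset.range M, sg R W (a + A * b) =
        ∑ x ∈ Finset.range M, sg (fun b => R (a + A * b)) (fun b => W (a + A * b)) x := rfl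
    split_ifs with hadv
    · have h3 : ∑ b ∈ Finset.range M, sg R W (a + A * b) ≤ (M : ℤ) := by
        refine (Finset.sum_le_sum fun x _ => sg_le _ _ _).trans ?_
        rw [Finset.sum_const, Finset.card_range, nsmul_eq_mul, mul_one]
      have h4 := mul_le_mul_of_nonneg_left h3 (show (0 : ℤ) ≤ 2 ^ (l + 1) by positivity)
      have h5 : (0 : ℤ) ≤ M := by positivity
      linarith
    · rw [adv_iff hM] at hadv
      push Not at hadv
      rw [h2]
      linarith
  have h1 : (2 : ℤ) ^ (l + 1) * ∑ x ∈ Finset.range (A * M), sg R W x ≤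
      T.card * (2 ^ (l + 1) * M) + A * M := by
    rw [hsum, Finset.mul_sum]
    refine (Finset.sum_le_sum hfib).trans ?_
    rw [Finset.sum_add_distrib, Finset.sum_const, Finset.card_range, nsmul_eq_mul,
      ← Finset.sum_filter, Finset.sum_const, nsmul_eq_mul]
  have h2 : 2 * ((A * M : ℕ) : ℤ) ≤ 2 ^ (l + 1) * ∑ x ∈ Finset.range (A * M), sg R W x := by
    rw [pow_succ]
    linarith
  push_cast at h2
  have h3 : (M : ℤ) * A ≤ M * (2 ^ (l + 1) * T.card) := by linarith
  have h4 : (0 : ℤ) < M := by exact_mod_cast hM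
  have h5 := le_of_mul_le_mul_left h3 h4
  exact_mod_cast h5

open Classical in
private theorem card_eq_sum (n : ℕ) (P : ℕ → Prop) :
    ((Finset.range n).filter P).card = ∑ x ∈ Finset.range n, if P x then 1 else 0 := by
  rw [Finset.card_filter]

open Classical in
/-- the numbers `u < U` with `A ≤ 2 ^ k' c_u` -/
private theorem good_le {U A k' : ℕ} (c : ℕ → ℕ) :
    ((Finset.range U).filter fun u => A ≤ 2 ^ k' * c u).card * A ≤
      2 ^ k' * ∑ u ∈ Finset.range U, c u := by
  rw [Finset.mul_sum, ← smul_eq_mul (a := (Finset.card _)), ← Finset.sum_const]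
  refine (Finset.sum_le_sum (f := fun _ => A) (g := fun u => 2 ^ k' * c u) ?_).trans ?_
  · intro u hu
    exact (Finset.mem_filter.1 hu).2
  · exact Finset.sum_le_sum_of_subset (Finset.filter_subset _ _)

open Classical in
/-- Averaging: if for at least a fraction `2 ^ (- k)` of the `a < A` at least a fraction `2 ^ (- k')` of the
`u < U` has the property, then for at least a fraction `2 ^ (- (k + k' + 1))` of the `u` at least a fraction
`2 ^ (- (k + k' + 1))` of the `a` has it. -/
theorem avg_swap {A U k k' : ℕ} (G : ℕ → ℕ → Prop)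
    (h : A ≤ 2 ^ k * ((Finset.range A).filter fun a =>
      U ≤ 2 ^ k' * ((Finset.range U).filter fun u => G a u).card).card) :
    U ≤ 2 ^ (k + k' + 1) * ((Finset.range U).filter fun u =>
      A ≤ 2 ^ (k + k' + 1) * ((Finset.range A).filter fun a => G a u).card).card := by
  rcases Nat.eq_zero_or_pos A with hA | hA
  · subst hA
    have h1 : ((Finset.range U).filter fun u =>
      0 ≤ 2 ^ (k + k' + 1) * ((Finset.range 0).filter fun a => G a u).card) =
        Finset.range U := by
      apply Finset.filter_true_of_mem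
      intro u _
      exact Nat.zero_le _
    rw [h1, Finset.card_range]
    exact Nat.le_mul_of_pos_left _ (by positivity)
  · set K := k + k' + 1 with hK
    have h1 := good_le (U := A) (A := U) (k' := k')
      (fun a => ((Finset.range U).filter fun u => G a u).card)
    have hswap : ∑ a ∈ Finset.range A, ((Finset.range U).filter fun u => G a u).card =
        ∑ u ∈ Finset.range U, ((Finset.range A).filter fun a => G a u).card := by
      simp only [card_eq_sum]
      rw [Finset.sum_comm]
    rw [hswap] at h1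
    set N := ∑ u ∈ Finset.range U, ((Finset.range A).filter fun a => G a u).card with hN
    set g := ((Finset.range A).filter fun a =>
      U ≤ 2 ^ k' * ((Finset.range U).filter fun u => G a u).card).card with hg
    set t := ((Finset.range U).filter fun u =>
      A ≤ 2 ^ K * ((Finset.range A).filter fun a => G a u).card).card with ht
    have h2 : A * U ≤ 2 ^ (k + k') * N := by
      calc A * U ≤ 2 ^ k * g * U := Nat.mul_le_mul_right _ h
        _ = 2 ^ k * (g * U) := by ring
        _ ≤ 2 ^ k * (2 ^ k' * N) := Nat.mul_le_mul_left _ h1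
        _ = 2 ^ (k + k') * N := by rw [pow_add]; ring
    have h3 : 2 ^ K * N ≤ t * (2 ^ K * A) + U * A := by
      rw [hN, Finset.mul_sum]
      have h4 : ∀ u ∈ Finset.range U, 2 ^ K * ((Finset.range A).filter fun a => G a u).card ≤
          (if A ≤ 2 ^ K * ((Finset.range A).filter fun a => G a u).card then 2 ^ K * A else 0) +
            A := by
        intro u _
        split_ifs with hu
        · have h5 : ((Finset.range A).filter fun a => G a u).card ≤ A := by
            have h6 := Finset.card_filter_le (Finset.range A) fun a => G a u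
            rwa [Finset.card_range] at h6
          have h7 := Nat.mul_le_mul_left (2 ^ K) h5
          omega
        · push Not at hu
          omega
      refine (Finset.sum_le_sum h4).trans ?_
      rw [Finset.sum_add_distrib, Finset.sum_const, Finset.card_range, smul_eq_mul,
        ← Finset.sum_filter, Finset.sum_const, smul_eq_mul]
    have h5 : 2 * (A * U) ≤ 2 ^ K * N := by
      calc 2 * (A * U) ≤ 2 * (2 ^ (k + k') * N) := Nat.mul_le_mul_left _ h2
        _ = 2 ^ K * N := by rw [hK, pow_succ]; ring
    have h6 : A * U ≤ A * (2 ^ K * t) := by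
      have h7 : t * (2 ^ K * A) = A * (2 ^ K * t) := by ring
      have h8 : U * A = A * U := Nat.mul_comm _ _
      omega
    exact Nat.le_of_mul_le_mul_left h6 hA

open Classical in
/-- products of densities: if for at least a fraction `2 ^ (- k)` of the `u < U` at least a fraction
`2 ^ (- k')` of the `r < A` have the property, then at least a fraction `2 ^ (- (k + k'))` of the numbers
`r + A * u < A * U` have it. -/
theorem dens_mul {A U k k' : ℕ} (hA : 0 < A) (G : ℕ → ℕ → Prop)
    (h : U ≤ 2 ^ k * ((Finset.range U).filter fun u =>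
      A ≤ 2 ^ k' * ((Finset.range A).filter fun r => G r u).card).card) :
    A * U ≤ 2 ^ (k + k') * ((Finset.range (A * U)).filter fun x => G (x % A) (x / A)).card := by
  have h1 := good_le (U := U) (A := A) (k' := k')
    (fun u => ((Finset.range A).filter fun r => G r u).card)
  have h2 : ((Finset.range (A * U)).filter fun x => G (x % A) (x / A)).card =
      ∑ u ∈ Finset.range U, ((Finset.range A).filter fun r => G r u).card := by
    rw [card_eq_sum, Nat.mul_comm, sum_blocks]
    refine Finset.sum_congr rfl fun u _ => ?_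
    rw [card_eq_sum]
    refine Finset.sum_congr rfl fun r hr => ?_
    have hr1 := Finset.mem_range.1 hr
    rw [Nat.add_mul_mod_self_left, Nat.mod_eq_of_lt hr1, Nat.add_mul_div_left _ _ hA,
      Nat.div_eq_of_lt hr1, Nat.zero_add]
  rw [h2]
  calc A * U = U * A := Nat.mul_comm _ _
    _ ≤ 2 ^ k * ((Finset.range U).filter fun u =>
      A ≤ 2 ^ k' * ((Finset.range A).filter fun r => G r u).card).card * A :=
        Nat.mul_le_mul_right _ h
    _ = 2 ^ k * (((Finset.range U).filter fun u =>
      A ≤ 2 ^ k' * ((Finset.range A).filter fun r => G r u).card).card * A) := by ring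
    _ ≤ 2 ^ k * (2 ^ k' * ∑ u ∈ Finset.range U, ((Finset.range A).filter fun r => G r u).card) :=
        Nat.mul_le_mul_left _ h1
    _ = 2 ^ (k + k') * ∑ u ∈ Finset.range U, ((Finset.range A).filter fun r => G r u).card := by
        rw [pow_add]; ring

end LSA
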