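import Pool.Agent.H85B.Defs

/-!
# H85B/PrmB: the prime number

Module `H85B/PrmB`. Bertrand's postulate `Nat.exists_prime_lt_and_le_two_mul` for `2 ^ (b - 1)`, with `LSC.mu_spec`,
`LSC.mu_le`, `LSC.mu_min` (compare `pp_spec` in `H69A/Par`); `2 ^ b` is not prime for `b ≥ 2`.
-/

set_option autoImplicit false

namespace LSA

open LSC

theorem prm_spec {b : ℕ} (hb : 2 ≤ b) : (prm b).Prime ∧ 2 ^ (b - 1) ≤ prm b ∧ prm b < 2 ^ b := by
  obtain ⟨q, hq, h1, h2⟩ := Nat.exists_prime_lt_and_le_two_mul (2 ^ (b - 1)) (by positivity)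
  have hb2 : 2 ^ b = 2 * 2 ^ (b - 1) := by
    rw [← pow_succ']
    congr 1
    omega
  have h3 : q ≤ 2 ^ b := by rw [hb2]; omega
  have hle : prm b ≤ 2 ^ b := by
    by_contra hcon
    have hlt : q < prm b := by omega
    exact mu_min (p := fun i => 2 ^ (b - 1) ≤ i ∧ i.Prime) hlt ⟨h1.le, hq⟩
  have h := mu_spec (n := 2 ^ b + 1) (p := fun i => 2 ^ (b - 1) ≤ i ∧ i.Prime)
    (Nat.lt_succ_of_le hle)
  refine ⟨h.2, h.1, lt_of_le_of_ne hle fun heq => ?_⟩
  have h4 : (prm b).Prime := h.2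
  rw [heq] at h4
  exact Nat.Prime.not_prime_pow (by omega) h4

end LSA
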