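import Pool.Agent.H85B.Tab
import Pool.Agent.H85B.Pad
import Pool.Agent.H85B.PrmB

/-!
# H85B/Ok: the level over a correct scheme is correct

Module `H85B/Ok`. Put `q = prm β`, `β = bet lam S.mu d w`, `P = q ^ d`, `w' = wpr d w`, `κ = kap lam S.mu`.
`2 ^ (β - 1) ≤ q < 2 ^ β` (`prm_spec`), `β - 1 = 2 * κ + 2 * w' + 12`; `d * 2 ^ w < 2 ^ w'` (`Nat.lt_size_self`).

The words are `x = z + P * (v + P * x₁)`, that is `x = a + (P * P) * x₁` with `a = z + P * v`, `a % P = z`,
`a / P = v`. For `Adv (P * P * S.M) lam R (enc f)`: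

1. `adv_fib` (`A = P * P`): for at least a fraction `2 ^ (- (lam + 1))` of the `a < P * P` the word
   `rin P R z v` agrees with `S.enc (tup q d w w' f z v)` with `Adv S.M (lam + 1)` (note
   `(z + P * (v + P * x₁)) % P = z` and so on for `z, v < P`).
2. `S.Ok`, `S.lam = lam + 1`: for such `a`, at least a fraction `2 ^ (- S.mu)` of the `u₁ < S.V` have
   `S.dec (rin P R z v) u₁ i ↔ tup q d w w' f z v i` for all `i < 2 ^ S.K`, in particular for all
   `i < 2 ^ w' * β`.
3. `avg_swap` with `k = lam + 1`, `k' = S.mu`: `k + k' + 1 = κ`.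
4. `table_ok` for each of these `u₁`, with `B z v = S.dec (rin P R z v) u₁`: a fraction `2 ^ (- (κ + 3))` of the
   `r < P * q * q` decode the message with `v₀ = lq q d w f (r % P)`.
5. The advices are `u = r + (P * q * q) * (v₀ + q * u₁)`; for the good `(r, u₁)` the value `v₀ = lq q d w f (r % P) < q`
   is one of `q < 2 ^ β` values: a fraction `2 ^ (- (κ + (κ + 3) + β))` of all `u` is good
   (`dens_mul`; count with the injective map `(r, u₁) ↦ r + P q q (v₀(r) + q u₁)`).
-/

set_option autoImplicit false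

namespace LSA

open LSC

theorem bet_two (lam mu₁ d w : ℕ) : 2 ≤ bet lam mu₁ d w := by
  unfold bet
  omega

open Classical in
theorem level_aux {S : Sc} (hS : S.Ok) {q P w' β lam d w : ℕ} (hq : q.Prime) (hP : P = q ^ d)
    (hβ : q < 2 ^ β) (hqb : 2 ^ (2 * kap lam S.mu + 2 * w' + 12) ≤ q) (hlam : S.lam = lam + 1)
    (hd : 1 ≤ d) (hw' : d * 2 ^ w < 2 ^ w') (hw : 2 ^ w ≤ q) (hK : 2 ^ w' * β ≤ 2 ^ S.K)
    (hM : 0 < S.M) (f R : ℕ → Prop)
    (hR : Adv (P * P * S.M) lam R fun x => S.enc (tup q d w w' f (x % P) (x / P % P)) (x / P / P)) :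
    P * q * q * q * S.V ≤ 2 ^ (2 * kap lam S.mu + 3 + β) *
      ((Finset.range (P * q * q * q * S.V)).filter fun u => ∀ y < 2 ^ (w * d),
        (cdec q d w (2 ^ (kap lam S.mu + w' + 6))
          (gdef q d β w' (fun z v => S.dec (rin P R z v) (u / P / q / q / q)) (u % P)
            (u / P % q) (u / P / q % q) (u / P / q / q % q))
          (gval q d β w' (fun z v => S.dec (rin P R z v) (u / P / q / q / q)) (u % P)
            (u / P % q) (u / P / q % q)) y ↔ f y)).card := by
  have hq0 := hq.pos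
  have hP0 : 0 < P := by
    rw [hP]
    exact pow_pos hq0 d
  have hPP : 0 < P * P := Nat.mul_pos hP0 hP0
  obtain ⟨κ, hκ⟩ : ∃ κ, κ = kap lam S.mu := ⟨_, rfl⟩
  have hκ' : lam + 1 + S.mu + 1 = κ := by
    rw [hκ]
    unfold kap
    omega
  rw [← hκ] at hqb ⊢
  -- step 1
  have s1 := adv_fib hPP hM _ _ hR
  -- steps 2 and 3
  obtain ⟨G, hG⟩ : ∃ G : ℕ → ℕ → Prop, ∀ a u₁, G a u₁ ↔ ∀ i < 2 ^ w' * β,
    (S.dec (rin P R (a % P) (a / P)) u₁ i ↔ tup q d w w' f (a % P) (a / P) i) :=
    ⟨_, fun _ _ => Iff.rfl⟩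
  have s2 : P * P ≤ 2 ^ (lam + 1) * ((Finset.range (P * P)).filter fun a =>
      S.V ≤ 2 ^ S.mu * ((Finset.range S.V).filter fun u => G a u).card).card := by
    refine s1.trans (Nat.mul_le_mul_left _ (Finset.card_le_card fun a ha => ?_))
    rw [Finset.mem_filter] at ha ⊢
    refine ⟨ha.1, ?_⟩
    have ha1 := Finset.mem_range.mp ha.1
    have haP : a / P < P := Nat.div_lt_of_lt_mul ha1
    have e1 : (fun b => R (a + P * P * b)) = rin P R (a % P) (a / P) := by
      funext b
      unfold rin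
      have : a + P * P * b = a % P + P * (a / P + P * b) := by
        have := Nat.mod_add_div a P
        rw [Nat.mul_add, ← Nat.add_assoc, this, Nat.mul_assoc]
      rw [this]
    have e2 : (fun b => S.enc (tup q d w w' f ((a + P * P * b) % P) ((a + P * P * b) / P % P))
        ((a + P * P * b) / P / P)) = S.enc (tup q d w w' f (a % P) (a / P)) := by
      funext b
      have b1 : (a + P * P * b) % P = a % P := by
        rw [Nat.mul_assoc, Nat.add_mul_mod_self_left]
      have b2 : (a + P * P * b) / P = a / P + P * b := by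
        rw [Nat.mul_assoc, Nat.add_mul_div_left _ _ hP0]
      have b3 : (a / P + P * b) % P = a / P := by
        rw [Nat.add_mul_mod_self_left, Nat.mod_eq_of_lt haP]
      have b4 : (a / P + P * b) / P = b := by
        rw [Nat.add_mul_div_left _ _ hP0, Nat.div_eq_of_lt haP, zero_add]
      rw [b1, b2, b3, b4]
    have h1 := ha.2
    rw [e1, e2, ← hlam] at h1
    refine (hS _ _ h1).trans (Nat.mul_le_mul_left _ (Finset.card_le_card fun u hu => ?_))
    rw [Finset.mem_filter] at hu ⊢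
    refine ⟨hu.1, ?_⟩
    rw [hG]
    intro i hi
    exact hu.2 i (hi.trans_le hK)
  have s3 := avg_swap G s2
  rw [hκ'] at s3
  -- step 4
  obtain ⟨G', hG'⟩ : ∃ G' : ℕ → ℕ → Prop, ∀ r u₁, G' r u₁ ↔ ∀ y < 2 ^ (w * d),
    (cdec q d w (2 ^ (κ + w' + 6))
      (gdef q d β w' (fun z v => S.dec (rin P R z v) u₁) (r % P) (r / P % q) (r / P / q % q)
        (lq q d w f (r % P)))
      (gval q d β w' (fun z v => S.dec (rin P R z v) u₁) (r % P) (r / P % q) (r / P / q % q)) y ↔
        f y) := ⟨_, fun _ _ => Iff.rfl⟩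
  have s4 : S.V ≤ 2 ^ κ * ((Finset.range S.V).filter fun u =>
      P * q * q ≤ 2 ^ (κ + 3) * ((Finset.range (P * q * q)).filter fun r => G' r u).card).card := by
    refine s3.trans (Nat.mul_le_mul_left _ (Finset.card_le_card fun u₁ hu => ?_))
    rw [Finset.mem_filter] at hu ⊢
    refine ⟨hu.1, ?_⟩
    have h1 := hu.2
    simp only [hG] at h1
    have h2 := table_ok (q := q) (d := d) (w := w) (w' := w') (β := β) (κ := κ) hq hβ hqb hd hw'
      hw f (fun z v => S.dec (rin P R z v) u₁) (by rw [← hP]; exact h1)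
    rw [← hP] at h2
    simp only [hG']
    exact h2
  -- step 5
  have hA0 : 0 < P * q * q := Nat.mul_pos (Nat.mul_pos hP0 hq0) hq0
  have s5 := dens_mul hA0 G' s4
  have s6 : ((Finset.range (P * q * q * S.V)).filter fun x =>
        G' (x % (P * q * q)) (x / (P * q * q))).card ≤
      ((Finset.range (P * q * q * q * S.V)).filter fun u => ∀ y < 2 ^ (w * d),
        (cdec q d w (2 ^ (κ + w' + 6))
          (gdef q d β w' (fun z v => S.dec (rin P R z v) (u / P / q / q / q)) (u % P)
            (u / P % q) (u / P / q % q) (u / P / q / q % q))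
          (gval q d β w' (fun z v => S.dec (rin P R z v) (u / P / q / q / q)) (u % P)
            (u / P % q) (u / P / q % q)) y ↔ f y)).card := by
    refine Finset.card_le_card_of_injOn (fun x => x % (P * q * q) + P * q * q *
      (lq q d w f (x % (P * q * q) % P) + q * (x / (P * q * q)))) ?_ ?_
    · intro x hx
      rw [Finset.mem_coe, Finset.mem_filter] at hx ⊢
      obtain ⟨hx1, hx2⟩ := hx
      rw [Finset.mem_range] at hx1
      obtain ⟨r, hr⟩ : ∃ r, r = x % (P * q * q) := ⟨_, rfl⟩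
      obtain ⟨u₁, hu₁⟩ : ∃ u₁, u₁ = x / (P * q * q) := ⟨_, rfl⟩
      obtain ⟨v₀, hv₀⟩ : ∃ v₀, v₀ = lq q d w f (r % P) := ⟨_, rfl⟩
      have hrA : r < P * q * q := by
        rw [hr]
        exact Nat.mod_lt _ hA0
      have hu₁V : u₁ < S.V := by
        rw [hu₁]
        exact Nat.div_lt_of_lt_mul hx1
      have hv₀q : v₀ < q := by
        rw [hv₀]
        exact lq_lt hq0 _ _ _ _
      rw [← hr, ← hu₁] at hx2
      simp only
      rw [← hr, ← hu₁, ← hv₀]
      have c1 : (r + P * q * q * (v₀ + q * u₁)) % P = r % P := by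
        rw [show P * q * q * (v₀ + q * u₁) = P * (q * q * (v₀ + q * u₁)) by ring,
          Nat.add_mul_mod_self_left]
      have c2 : (r + P * q * q * (v₀ + q * u₁)) / P = r / P + q * (q * (v₀ + q * u₁)) := by
        rw [show P * q * q * (v₀ + q * u₁) = P * (q * (q * (v₀ + q * u₁))) by ring,
          Nat.add_mul_div_left _ _ hP0]
      have c3 : (r / P + q * (q * (v₀ + q * u₁))) % q = r / P % q := by
        rw [Nat.add_mul_mod_self_left]
      have c4 : (r / P + q * (q * (v₀ + q * u₁))) / q = r / P / q + q * (v₀ + q * u₁) := by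
        rw [Nat.add_mul_div_left _ _ hq0]
      have c5 : (r / P / q + q * (v₀ + q * u₁)) % q = r / P / q % q := by
        rw [Nat.add_mul_mod_self_left]
      have hrq : r / P / q < q := by
        rw [Nat.div_div_eq_div_mul]
        exact Nat.div_lt_of_lt_mul hrA
      have c6 : (r / P / q + q * (v₀ + q * u₁)) / q = v₀ + q * u₁ := by
        rw [Nat.add_mul_div_left _ _ hq0, Nat.div_eq_of_lt hrq, zero_add]
      have c7 : (v₀ + q * u₁) % q = v₀ := by
        rw [Nat.add_mul_mod_self_left, Nat.mod_eq_of_lt hv₀q]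
      have c8 : (v₀ + q * u₁) / q = u₁ := by
        rw [Nat.add_mul_div_left _ _ hq0, Nat.div_eq_of_lt hv₀q, zero_add]
      refine ⟨?_, ?_⟩
      · rw [Finset.mem_range]
        have d1 : v₀ + q * u₁ + 1 ≤ q * S.V := by
          have : q * (u₁ + 1) ≤ q * S.V := Nat.mul_le_mul_left _ hu₁V
          rw [Nat.mul_add, mul_one] at this
          omega
        have d2 := Nat.mul_le_mul_left (P * q * q) d1
        rw [Nat.mul_add, mul_one, ← Nat.mul_assoc (P * q * q) q S.V] at d2
        omega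
      · rw [c1, c2, c3, c4, c5, c6, c7, c8, hv₀]
        exact (hG' _ _).mp hx2
    · intro x hx x' hx' h
      simp only at h
      have e0 : x % (P * q * q) < P * q * q := Nat.mod_lt _ hA0
      have e0' : x' % (P * q * q) < P * q * q := Nat.mod_lt _ hA0
      have e1 := congrArg (· % (P * q * q)) h
      simp only [Nat.add_mul_mod_self_left, Nat.mod_eq_of_lt e0, Nat.mod_eq_of_lt e0'] at e1
      have e2 := congrArg (· / (P * q * q)) h
      simp only [Nat.add_mul_div_left _ _ hA0, Nat.div_eq_of_lt e0, Nat.div_eq_of_lt e0',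
        zero_add] at e2
      rw [e1] at e2
      have e3 : q * (x / (P * q * q)) = q * (x' / (P * q * q)) := by omega
      have e4 := Nat.eq_of_mul_eq_mul_left hq0 e3
      rw [← Nat.mod_add_div x (P * q * q), ← Nat.mod_add_div x' (P * q * q), e1, e4]
  have s7 : P * q * q * q * S.V = q * (P * q * q * S.V) := by ring
  calc P * q * q * q * S.V = q * (P * q * q * S.V) := s7
    _ ≤ 2 ^ β * (2 ^ (κ + (κ + 3)) * ((Finset.range (P * q * q * q * S.V)).filter fun u =>
        ∀ y < 2 ^ (w * d),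
        (cdec q d w (2 ^ (κ + w' + 6))
          (gdef q d β w' (fun z v => S.dec (rin P R z v) (u / P / q / q / q)) (u % P)
            (u / P % q) (u / P / q % q) (u / P / q / q % q))
          (gval q d β w' (fun z v => S.dec (rin P R z v) (u / P / q / q / q)) (u % P)
            (u / P % q) (u / P / q % q)) y ↔ f y)).card) :=
      Nat.mul_le_mul hβ.le (s5.trans (Nat.mul_le_mul_left _ s6))
    _ = _ := by
      rw [← Nat.mul_assoc, ← pow_add, show β + (κ + (κ + 3)) = 2 * κ + 3 + β by ring]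

theorem level_ok {S : Sc} (hS : S.Ok) {lam d w : ℕ} (hlam : S.lam = lam + 1) (hd : 1 ≤ d)
    (hK : 2 ^ wpr d w * bet lam S.mu d w ≤ 2 ^ S.K) (hM : 0 < S.M) : (level S lam d w).Ok := by
  obtain ⟨h1, h2, h3⟩ := prm_spec (bet_two lam S.mu d w)
  intro f R hR
  have hb : bet lam S.mu d w - 1 = 2 * kap lam S.mu + 2 * wpr d w + 12 := by
    unfold bet
    omega
  have hw' : d * 2 ^ w < 2 ^ wpr d w := by
    unfold wpr
    rw [pow_add, mul_comm]
    exact Nat.mul_lt_mul_of_pos_left (Nat.lt_size_self d) (pow_pos (by norm_num) _)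
  have hqb : 2 ^ (2 * kap lam S.mu + 2 * wpr d w + 12) ≤ prm (bet lam S.mu d w) := by
    rw [← hb]
    exact h2
  have hw : 2 ^ w ≤ prm (bet lam S.mu d w) := by
    refine (Nat.pow_le_pow_right (by norm_num) ?_).trans hqb
    unfold wpr
    omega
  exact level_aux hS h1 rfl h3 hqb hlam hd hw' hw hK hM f R hR

theorem level_M_pos {S : Sc} (lam d w : ℕ) (hM : 0 < S.M) : 0 < (level S lam d w).M := by
  have h1 := (prm_spec (bet_two lam S.mu d w)).1.pos
  exact Nat.mul_pos (Nat.mul_pos (pow_pos h1 _) (pow_pos h1 _)) hM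

theorem M_le_aux {q b d M n : ℕ} (h1 : q ≤ 2 ^ b) (hM : M ≤ 2 ^ n) :
    q ^ d * q ^ d * M ≤ 2 ^ (2 * d * b + n) := by
  calc q ^ d * q ^ d * M ≤ (2 ^ b) ^ d * (2 ^ b) ^ d * 2 ^ n :=
        Nat.mul_le_mul (Nat.mul_le_mul (Nat.pow_le_pow_left h1 _) (Nat.pow_le_pow_left h1 _)) hM
    _ = 2 ^ (b * d + b * d + n) := by rw [← pow_mul, ← pow_add, ← pow_add]
    _ = 2 ^ (2 * d * b + n) := by rw [show b * d + b * d + n = 2 * d * b + n by ring]

theorem level_M_le {S : Sc} (lam d w : ℕ) (hM : S.M ≤ 2 ^ S.nb) :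
    (level S lam d w).M ≤ 2 ^ (level S lam d w).nb :=
  M_le_aux (prm_spec (bet_two lam S.mu d w)).2.2.le hM

theorem level_V_pos {S : Sc} (lam d w : ℕ) (hV : 0 < S.V) : 0 < (level S lam d w).V := by
  have h1 := (prm_spec (bet_two lam S.mu d w)).1.pos
  exact Nat.mul_pos (Nat.mul_pos (Nat.mul_pos (Nat.mul_pos (pow_pos h1 _) h1) h1) h1) hV

theorem V_le_aux {q b d V n : ℕ} (h1 : q ≤ 2 ^ b) (hV : V ≤ 2 ^ n) :
    q ^ d * q * q * q * V ≤ 2 ^ ((d + 3) * b + n) := by
  calc q ^ d * q * q * q * V ≤ (2 ^ b) ^ d * 2 ^ b * 2 ^ b * 2 ^ b * 2 ^ n :=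
        Nat.mul_le_mul (Nat.mul_le_mul (Nat.mul_le_mul (Nat.mul_le_mul
          (Nat.pow_le_pow_left h1 _) h1) h1) h1) hV
    _ = 2 ^ (b * d + b + b + b + n) := by rw [← pow_mul, ← pow_add, ← pow_add, ← pow_add, ← pow_add]
    _ = 2 ^ ((d + 3) * b + n) := by rw [show b * d + b + b + b + n = (d + 3) * b + n by ring]

theorem level_V_le {S : Sc} (lam d w : ℕ) (hV : S.V ≤ 2 ^ S.vb) :
    (level S lam d w).V ≤ 2 ^ (level S lam d w).vb :=
  V_le_aux (prm_spec (bet_two lam S.mu d w)).2.2.le hV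

end LSA
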