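import Pool.Agent.H85B.Ok
import Pool.Agent.H85B.HadOk

/-!
# H85B/ParJ: the family of schemes

Module `H85B/ParJ`. `J ≥ 2`, `c ≥ 1`, `σ = s + 1`.

* `mu_le`: induction on `j`: `mu` of the level `j + 1` is `2 κ + 3 + β` with `κ = lam + 2 + mu_j`,
  `β = 2 κ + 2 w' + 13`, `w' = wj J c j s + size σ`; `lmj J j s ≤ σ ^ (J - 1) + 1 + J`,
  `wj J c j s ≤ (c + J) σ ^ j ≤ (c + J) σ ^ (J - 1)` for `j + 1 ≤ J`, `size σ ≤ σ ≤ σ ^ (J - 1)` (`LSC.size_le_self`,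
  `J ≥ 2`).
* `bet_le`: from `mu_le`.
* `K0_le`: `2 ^ K0 = 2 ^ (wj J c 0 s) * 2 ^ (size σ) * 2 ^ (size β₁)`, `wj J c 0 s = c + (J - 1)` is constant,
  `2 ^ size n ≤ 2 n` for `n ≠ 0` (`LSC.pow_size_le`).
* `nb_le`, `vb_le`: induction.
* `lam_eq`: cases. `K_eq`: `wj J c (J - 1) s * (s + 1) = c * (s + 1) ^ J`.
* `K_ok`: for `j = 0`: `β < 2 ^ size β`. For `1 ≤ j`, `j + 1 ≤ J`: the exponent on the right is
  `(c + (J - j)) σ ^ j`, on the left `w' + size β ≤ (c + (J - (j + 1))) σ ^ j + size σ + size (C σ ^ (J - 1))`; the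
  difference is at least `σ ^ j - size σ - size C - (J - 1) * size σ ≥ σ - J * size σ - size C`, which is not
  negative for large `s`.
* `M_pos`, `M_le`, `V_pos`, `V_le`: induction with `level_M_pos` and so on (`H85B/Ok`); for `had` by `rfl`-type
  facts (`M = 2 ^ nb`, `V = 2 ^ vb`).
-/

set_option autoImplicit false

namespace LSA

open LSC

theorem parJ_one_le (s n : ℕ) : 1 ≤ (s + 1) ^ n := Nat.one_le_pow _ _ (Nat.succ_pos s)

theorem parJ_self_le {J : ℕ} (hJ : 2 ≤ J) (s : ℕ) : s + 1 ≤ (s + 1) ^ (J - 1) := by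
  calc s + 1 = (s + 1) ^ 1 := (pow_one _).symm
    _ ≤ (s + 1) ^ (J - 1) := Nat.pow_le_pow_right (Nat.succ_pos s) (by omega)

theorem parJ_size_le {J : ℕ} (hJ : 2 ≤ J) (s : ℕ) : Nat.size (s + 1) ≤ (s + 1) ^ (J - 1) := by
  refine le_trans ?_ (parJ_self_le hJ s)
  rw [Nat.size_le]
  exact Nat.lt_two_pow_self

theorem parJ_lmj_le (J j s : ℕ) : lmj J j s ≤ (J + 2) * (s + 1) ^ (J - 1) := by
  have h1 := parJ_one_le s (J - 1)
  unfold lmj
  have h2 : J * 1 ≤ J * (s + 1) ^ (J - 1) := Nat.mul_le_mul_left _ h1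
  have h3 : J - j ≤ J := Nat.sub_le _ _
  rw [add_mul]
  omega

theorem parJ_wj_le {J j : ℕ} (c s : ℕ) (hj : j + 1 ≤ J) :
    wj J c j s ≤ (c + J) * (s + 1) ^ (J - 1) := by
  unfold wj
  exact Nat.mul_le_mul (Nat.add_le_add_left (Nat.sub_le _ _) _)
    (Nat.pow_le_pow_right (Nat.succ_pos s) (by omega))

theorem parJ_bet_aux {J : ℕ} (hJ : 2 ≤ J) (c C mu₁ s : ℕ) {j : ℕ} (hj : j + 1 ≤ J)
    (h : mu₁ ≤ C * (s + 1) ^ (J - 1)) :
    bet (lmj J (j + 1) s) mu₁ (s + 1) (wj J c j s) ≤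
      (2 * (J + 2) + 2 * C + 2 * (c + J) + 19) * (s + 1) ^ (J - 1) := by
  have h1 := parJ_one_le s (J - 1)
  have h2 := parJ_size_le hJ s
  have h3 := parJ_lmj_le J (j + 1) s
  have h4 := parJ_wj_le c s hj
  unfold bet kap wpr
  nlinarith

theorem parJ_mu_succ {J : ℕ} (hJ : 2 ≤ J) (c C s : ℕ) {j : ℕ} (hj : j + 1 ≤ J)
    (h : (fam J c j s).mu ≤ C * (s + 1) ^ (J - 1)) :
    (fam J c (j + 1) s).mu ≤
      (4 * (J + 2) + 4 * C + 2 * (c + J) + 26) * (s + 1) ^ (J - 1) := by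
  have h0 : (fam J c (j + 1) s).mu = 2 * kap (lmj J (j + 1) s) (fam J c j s).mu + 3 +
    bet (lmj J (j + 1) s) (fam J c j s).mu (s + 1) (wj J c j s) := rfl
  rw [h0]
  have h1 := parJ_one_le s (J - 1)
  have h3 := parJ_lmj_le J (j + 1) s
  have h5 := parJ_bet_aux hJ c C _ s hj h
  unfold kap
  nlinarith

theorem mu_le {J : ℕ} (hJ : 2 ≤ J) (c : ℕ) {j : ℕ} (hj : j ≤ J) :
    ∃ C, ∀ s, (fam J c j s).mu ≤ C * (s + 1) ^ (J - 1) := by
  induction j with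
  | zero =>
    refine ⟨2 * (J + 2), fun s => ?_⟩
    have h0 : (fam J c 0 s).mu = 2 * lmj J 0 s := rfl
    rw [h0, mul_assoc]
    exact Nat.mul_le_mul_left _ (parJ_lmj_le J 0 s)
  | succ j ih =>
    obtain ⟨C, hC⟩ := ih (by omega)
    exact ⟨_, fun s => parJ_mu_succ hJ c C s hj (hC s)⟩

theorem bet_le {J : ℕ} (hJ : 2 ≤ J) (c : ℕ) {j : ℕ} (hj : j + 1 ≤ J) :
    ∃ C, ∀ s, bet (lmj J (j + 1) s) (fam J c j s).mu (s + 1) (wj J c j s) ≤
      C * (s + 1) ^ (J - 1) := by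
  obtain ⟨C, hC⟩ := mu_le hJ c (j := j) (by omega)
  exact ⟨_, fun s => parJ_bet_aux hJ c C _ s hj (hC s)⟩

theorem parJ_pow_size {n : ℕ} (hn : n ≠ 0) : 2 ^ Nat.size n ≤ 2 * n := by
  have h1 : 0 < Nat.size n := Nat.size_pos.2 (Nat.pos_of_ne_zero hn)
  obtain ⟨k, hk⟩ : ∃ k, Nat.size n = k + 1 := ⟨Nat.size n - 1, by omega⟩
  have h2 : 2 ^ k ≤ n := by
    rw [← Nat.lt_size, hk]
    exact Nat.lt_succ_self k
  rw [hk, pow_succ, mul_comm]
  exact Nat.mul_le_mul_left _ h2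

theorem parJ_mul_pow {J : ℕ} (hJ : 2 ≤ J) (s : ℕ) : (s + 1) * (s + 1) ^ (J - 1) = (s + 1) ^ J := by
  rw [← pow_succ', Nat.sub_add_cancel (by omega)]

theorem K0_le {J : ℕ} (hJ : 2 ≤ J) (c : ℕ) : ∃ C, ∀ s, 2 ^ K0 J c s ≤ C * (s + 1) ^ J := by
  obtain ⟨C, hC⟩ := bet_le hJ c (j := 0) (by omega)
  refine ⟨2 ^ (c + (J - 1)) * 2 * (2 * C), fun s => ?_⟩
  obtain ⟨β, hβ⟩ : ∃ β, β = bet (lmj J 1 s) (2 * lmj J 0 s) (s + 1) (wj J c 0 s) := ⟨_, rfl⟩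
  have h1 : β ≤ C * (s + 1) ^ (J - 1) := by
    rw [hβ]
    exact hC s
  have h2 : β ≠ 0 := by
    have := bet_two (lmj J 1 s) (2 * lmj J 0 s) (s + 1) (wj J c 0 s)
    rw [← hβ] at this
    omega
  have h3 : K0 J c s = c + (J - 1) + Nat.size (s + 1) + Nat.size β := by
    rw [hβ]
    unfold K0 wpr
    have : wj J c 0 s = c + (J - 1) := by
      unfold wj
      simp
    rw [this]
  rw [h3, pow_add, pow_add]
  calc 2 ^ (c + (J - 1)) * 2 ^ Nat.size (s + 1) * 2 ^ Nat.size β ≤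
      2 ^ (c + (J - 1)) * (2 * (s + 1)) * (2 * (C * (s + 1) ^ (J - 1))) :=
        Nat.mul_le_mul (Nat.mul_le_mul_left _ (parJ_pow_size (Nat.succ_ne_zero s)))
          ((parJ_pow_size h2).trans (Nat.mul_le_mul_left _ h1))
    _ = 2 ^ (c + (J - 1)) * 2 * (2 * C) * ((s + 1) * (s + 1) ^ (J - 1)) := by ring
    _ = 2 ^ (c + (J - 1)) * 2 * (2 * C) * (s + 1) ^ J := by rw [parJ_mul_pow hJ]

theorem nb_le {J : ℕ} (hJ : 2 ≤ J) (c : ℕ) {j : ℕ} (hj : j ≤ J) :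
    ∃ C, ∀ s, (fam J c j s).nb ≤ C * (s + 1) ^ J := by
  induction j with
  | zero => exact K0_le hJ c
  | succ j ih =>
    obtain ⟨C, hC⟩ := ih (by omega)
    obtain ⟨D, hD⟩ := bet_le hJ c hj
    refine ⟨2 * D + C, fun s => ?_⟩
    have h0 : (fam J c (j + 1) s).nb = 2 * (s + 1) *
      bet (lmj J (j + 1) s) (fam J c j s).mu (s + 1) (wj J c j s) + (fam J c j s).nb := rfl
    rw [h0]
    calc 2 * (s + 1) * bet (lmj J (j + 1) s) (fam J c j s).mu (s + 1) (wj J c j s) +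
          (fam J c j s).nb ≤ 2 * (s + 1) * (D * (s + 1) ^ (J - 1)) + C * (s + 1) ^ J :=
          Nat.add_le_add (Nat.mul_le_mul_left _ (hD s)) (hC s)
      _ = 2 * D * ((s + 1) * (s + 1) ^ (J - 1)) + C * (s + 1) ^ J := by ring
      _ = (2 * D + C) * (s + 1) ^ J := by rw [parJ_mul_pow hJ]; ring

theorem vb_le {J : ℕ} (hJ : 2 ≤ J) (c : ℕ) {j : ℕ} (hj : j ≤ J) :
    ∃ C, ∀ s, (fam J c j s).vb ≤ C * (s + 1) ^ J := by
  induction j with
  | zero =>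
    refine ⟨2 * (J + 2), fun s => ?_⟩
    have h0 : (fam J c 0 s).vb = 2 * lmj J 0 s := rfl
    rw [h0, mul_assoc]
    refine Nat.mul_le_mul_left _ ((parJ_lmj_le J 0 s).trans (Nat.mul_le_mul_left _ ?_))
    exact Nat.pow_le_pow_right (Nat.succ_pos s) (Nat.sub_le _ _)
  | succ j ih =>
    obtain ⟨C, hC⟩ := ih (by omega)
    obtain ⟨D, hD⟩ := bet_le hJ c hj
    refine ⟨4 * D + C, fun s => ?_⟩
    have h0 : (fam J c (j + 1) s).vb = (s + 1 + 3) *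
      bet (lmj J (j + 1) s) (fam J c j s).mu (s + 1) (wj J c j s) + (fam J c j s).vb := rfl
    rw [h0]
    calc (s + 1 + 3) * bet (lmj J (j + 1) s) (fam J c j s).mu (s + 1) (wj J c j s) +
          (fam J c j s).vb ≤ (4 * (s + 1)) * (D * (s + 1) ^ (J - 1)) + C * (s + 1) ^ J :=
          Nat.add_le_add (Nat.mul_le_mul (by omega) (hD s)) (hC s)
      _ = 4 * D * ((s + 1) * (s + 1) ^ (J - 1)) + C * (s + 1) ^ J := by ring
      _ = (4 * D + C) * (s + 1) ^ J := by rw [parJ_mul_pow hJ]; ring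

theorem lam_eq (J c j s : ℕ) : (fam J c j s).lam = lmj J j s := by
  cases j <;> rfl

theorem K_eq {J : ℕ} (hJ : 2 ≤ J) (c s : ℕ) : (fam J c J s).K = c * (s + 1) ^ J := by
  obtain ⟨j, rfl⟩ : ∃ j, J = j + 1 := ⟨J - 1, by omega⟩
  have h0 : (fam (j + 1) c (j + 1) s).K = wj (j + 1) c j s * (s + 1) := rfl
  rw [h0]
  unfold wj
  rw [Nat.sub_self, add_zero, mul_assoc, ← pow_succ]

theorem M_pos (J c j s : ℕ) : 0 < (fam J c j s).M := by
  induction j with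
  | zero => exact pow_pos (by norm_num) _
  | succ j ih => exact level_M_pos _ _ _ ih

theorem M_le (J c j s : ℕ) : (fam J c j s).M ≤ 2 ^ (fam J c j s).nb := by
  induction j with
  | zero => exact le_refl _
  | succ j ih => exact level_M_le _ _ _ ih

theorem V_pos (J c j s : ℕ) : 0 < (fam J c j s).V := by
  induction j with
  | zero => exact pow_pos (by norm_num) _
  | succ j ih => exact level_V_pos _ _ _ ih

theorem V_le (J c j s : ℕ) : (fam J c j s).V ≤ 2 ^ (fam J c j s).vb := by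
  induction j with
  | zero => exact le_refl _
  | succ j ih => exact level_V_le _ _ _ ih

theorem parJ_exp (C k : ℕ) : ∃ n₀, ∀ n ≥ n₀, C * n ^ k ≤ 2 ^ n := by
  have h := (tendsto_pow_const_div_const_pow_of_one_lt k (one_lt_two (α := ℝ)))
  have h2 : (0 : ℝ) < 1 / (C + 1) := by positivity
  have h3 := h.eventually (gt_mem_nhds h2)
  obtain ⟨n₀, hn₀⟩ := Filter.eventually_atTop.1 h3
  refine ⟨n₀, fun n hn => ?_⟩
  have h4 := hn₀ n hn
  rw [div_lt_div_iff₀ (by positivity) (by positivity), one_mul] at h4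
  have h5 : (C : ℝ) * (n : ℝ) ^ k ≤ 2 ^ n := by
    have : (0 : ℝ) ≤ (n : ℝ) ^ k := by positivity
    nlinarith
  exact_mod_cast h5

theorem K_ok {J : ℕ} (hJ : 2 ≤ J) (c : ℕ) {j : ℕ} (hj : j + 1 ≤ J) :
    ∃ s₀, ∀ s ≥ s₀, 2 ^ wpr (s + 1) (wj J c j s) *
      bet (lmj J (j + 1) s) (fam J c j s).mu (s + 1) (wj J c j s) ≤ 2 ^ (fam J c j s).K := by
  cases j with
  | zero =>
    refine ⟨0, fun s _ => ?_⟩
    have h0 : (fam J c 0 s).K = wpr (s + 1) (wj J c 0 s) +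
      Nat.size (bet (lmj J 1 s) (fam J c 0 s).mu (s + 1) (wj J c 0 s)) := rfl
    rw [h0, pow_add]
    exact Nat.mul_le_mul_left _ (Nat.lt_size_self _).le
  | succ i =>
    obtain ⟨D, hD⟩ := bet_le hJ c hj
    obtain ⟨n₀, hn₀⟩ := parJ_exp (2 * D) J
    refine ⟨n₀, fun s hs => ?_⟩
    have h0 : (fam J c (i + 1) s).K = (c + (J - (i + 1))) * (s + 1) ^ i * (s + 1) := rfl
    have h1 : (fam J c (i + 1) s).K =
        (c + (J - (i + 1 + 1))) * (s + 1) ^ (i + 1) + (s + 1) ^ (i + 1) := by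
      rw [h0, mul_assoc, ← pow_succ, show c + (J - (i + 1)) = c + (J - (i + 1 + 1)) + 1 by omega]
      ring
    have h2 : wpr (s + 1) (wj J c (i + 1) s) =
        (c + (J - (i + 1 + 1))) * (s + 1) ^ (i + 1) + Nat.size (s + 1) := rfl
    obtain ⟨A, hA⟩ : ∃ A, A = (c + (J - (i + 1 + 1))) * (s + 1) ^ (i + 1) := ⟨_, rfl⟩
    rw [h1, h2, ← hA, pow_add 2 A, pow_add 2 A, mul_assoc]
    refine Nat.mul_le_mul_left _ ?_
    calc 2 ^ Nat.size (s + 1) *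
          bet (lmj J (i + 1 + 1) s) (fam J c (i + 1) s).mu (s + 1) (wj J c (i + 1) s) ≤
          (2 * (s + 1)) * (D * (s + 1) ^ (J - 1)) :=
          Nat.mul_le_mul (parJ_pow_size (Nat.succ_ne_zero s)) (hD s)
      _ = 2 * D * ((s + 1) * (s + 1) ^ (J - 1)) := by ring
      _ = 2 * D * (s + 1) ^ J := by rw [parJ_mul_pow hJ]
      _ ≤ 2 ^ (s + 1) := hn₀ _ (by omega)
      _ ≤ 2 ^ (s + 1) ^ (i + 1) := Nat.pow_le_pow_right (by norm_num) (by
          calc s + 1 = (s + 1) ^ 1 := (pow_one _).symm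
            _ ≤ (s + 1) ^ (i + 1) := Nat.pow_le_pow_right (Nat.succ_pos s) (by omega))

end LSA
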