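import Pool.Agent.H85B.ParJ
import Pool.Agent.H85B.Ok
import Pool.Agent.H85B.HadOk
import Pool.Agent.H85B.FnLvl
import Pool.Agent.H85B.FnHad

/-!
# H85B/ParJ2: the family of schemes is correct and definable

Module `H85B/ParJ2`. `J ≥ 2`, `σ = s + 1`.

* `fam_ok`: induction on `j ≤ J` with `level_ok` (`K_ok`, `M_pos`, `lam_eq`), `hadOk`.
* `fam_dfb`: induction with `Dfb.level`, `Dfb.had` (`K0_le`, `bet_le`, `mu_le`).
* `nJ_lt`: `nb` of the family is monotone in `s` (induction: `mu`, `bet`, `wpr`, `Nat.size`, `lmj`, `wj`, `K0` are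
  monotone), and `(s + 1) ^ (J - 1)` is strictly monotone for `J ≥ 2`.
* `nJ_ge`: `nb` of the level `J` is at least `2 σ β ≥ 2 σ * lmj J J s ≥ σ ^ J`.
* `nJ_le`: `nb_le`, and `(s + 1) ^ (J - 1) + 1 ≤ 2 * (s + 1) ^ J`.
* `fn_nJ`: `nb` of the family is a composition (induction on `j`; `mu` by `fam_dfb` or the same induction) of
  sums, products and `Nat.size` of `s` (`bet`, `wpr`, `lmj`, `wj`: polynomials of fixed degree in `s + 1`; `K0`:
  `K0_le`, `nb` of the Hadamard scheme is `2 ^ K0 ≤ C * (s + 1) ^ J`: use `LSC.Fn.pow2`-type closure or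
  `LSC.mu` with the bound `C * (s + 1) ^ J + 1`: `2 ^ k` is the least `x` with `Nat.size x = k + 1`).
-/

set_option autoImplicit false

namespace LSA

open LSC

private theorem lmj_mono (J j : ℕ) {s t : ℕ} (h : s ≤ t) : lmj J j s ≤ lmj J j t := by
  unfold lmj
  have := Nat.pow_le_pow_left (Nat.add_le_add_right h 1) (J - 1)
  omega

private theorem wj_mono (J c j : ℕ) {s t : ℕ} (h : s ≤ t) : wj J c j s ≤ wj J c j t :=
  Nat.mul_le_mul_left _ (Nat.pow_le_pow_left (Nat.add_le_add_right h 1) j)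

private theorem wpr_mono {d d' w w' : ℕ} (hd : d ≤ d') (hw : w ≤ w') : wpr d w ≤ wpr d' w' :=
  Nat.add_le_add hw (Nat.size_le_size hd)

private theorem bet_mono {l l' m m' d d' w w' : ℕ} (hl : l ≤ l') (hm : m ≤ m') (hd : d ≤ d')
    (hw : w ≤ w') : bet l m d w ≤ bet l' m' d' w' := by
  have := wpr_mono hd hw
  unfold bet kap
  omega

private theorem fam_mu_mono (J c j : ℕ) {s t : ℕ} (h : s ≤ t) : (fam J c j s).mu ≤ (fam J c j t).mu := by
  induction j with
  | zero => exact Nat.mul_le_mul_left 2 (lmj_mono J 0 h)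
  | succ j ih =>
    show 2 * kap (lmj J (j + 1) s) (fam J c j s).mu + 3 +
        bet (lmj J (j + 1) s) (fam J c j s).mu (s + 1) (wj J c j s) ≤
      2 * kap (lmj J (j + 1) t) (fam J c j t).mu + 3 +
        bet (lmj J (j + 1) t) (fam J c j t).mu (t + 1) (wj J c j t)
    have h1 := lmj_mono J (j + 1) h
    have h2 := bet_mono h1 ih (Nat.add_le_add_right h 1) (wj_mono J c j h)
    unfold kap
    omega

private theorem fam_nb_mono (J c j : ℕ) {s t : ℕ} (h : s ≤ t) : (fam J c j s).nb ≤ (fam J c j t).nb := by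
  induction j with
  | zero =>
    refine Nat.pow_le_pow_right (by norm_num) ?_
    exact Nat.add_le_add (wpr_mono (Nat.add_le_add_right h 1) (wj_mono J c 0 h))
      (Nat.size_le_size (bet_mono (lmj_mono J 1 h) (Nat.mul_le_mul_left 2 (lmj_mono J 0 h))
        (Nat.add_le_add_right h 1) (wj_mono J c 0 h)))
  | succ j ih =>
    show 2 * (s + 1) * bet (lmj J (j + 1) s) (fam J c j s).mu (s + 1) (wj J c j s) +
        (fam J c j s).nb ≤
      2 * (t + 1) * bet (lmj J (j + 1) t) (fam J c j t).mu (t + 1) (wj J c j t) +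
        (fam J c j t).nb
    exact Nat.add_le_add (Nat.mul_le_mul (Nat.mul_le_mul_left 2 (Nat.add_le_add_right h 1))
      (bet_mono (lmj_mono J (j + 1) h) (fam_mu_mono J c j h) (Nat.add_le_add_right h 1)
        (wj_mono J c j h))) ih

theorem fam_ok {J : ℕ} (hJ : 2 ≤ J) (c : ℕ) {j : ℕ} (hj : j ≤ J) :
    ∃ s₀, ∀ s ≥ s₀, (fam J c j s).Ok := by
  induction j with
  | zero => exact ⟨0, fun s _ => hadOk _ _⟩
  | succ j ih =>
    obtain ⟨s₁, h₁⟩ := ih (by omega)
    obtain ⟨s₂, h₂⟩ := K_ok hJ c hj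
    refine ⟨max s₁ s₂, fun s hs => ?_⟩
    refine level_ok (h₁ s ((le_max_left _ _).trans hs)) ?_ (Nat.succ_le_succ (Nat.zero_le s))
      (h₂ s ((le_max_right _ _).trans hs)) (M_pos J c j s)
    rw [lam_eq]
    unfold lmj
    omega

/-- powers with a constant exponent -/
private theorem fn_powc {C : NClass} [Calc C] {α : Type} [Ctx α] {f : α → ℕ} (hf : Fn C f) (k : ℕ) :
    Fn C (fun a => f a ^ k) := by
  induction k with
  | zero => exact Fn.const 1
  | succ k ih => exact (Fn.mul ih hf).congr fun a => pow_succ _ _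

private theorem fn_lmj {C : NClass} [Calc C] (J j : ℕ) : Fn C (lmj J j) := by
  have h : Fn C (fun s : ℕ => (s + 1) ^ (J - 1)) := fn_powc (by fun_prop) _
  unfold lmj
  fun_prop

private theorem fn_wj {C : NClass} [Calc C] (J c j : ℕ) : Fn C (wj J c j) := by
  have h : Fn C (fun s : ℕ => (s + 1) ^ j) := fn_powc (by fun_prop) _
  unfold wj
  fun_prop

private theorem fn_bet {C : NClass} [Calc C] {l m d w : ℕ → ℕ} (hl : Fn C l) (hm : Fn C m) (hd : Fn C d)
    (hw : Fn C w) : Fn C (fun s => bet (l s) (m s) (d s) (w s)) := by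
  unfold bet kap wpr
  fun_prop

private theorem fn_K0 {C : NClass} [Calc C] (J c : ℕ) : Fn C (K0 J c) := by
  have h1 : Fn C (fun s : ℕ => bet (lmj J 1 s) (2 * lmj J 0 s) (s + 1) (wj J c 0 s)) :=
    fn_bet (fn_lmj J 1) (Fn.mul (Fn.const 2) (fn_lmj J 0)) (by fun_prop) (fn_wj J c 0)
  have h2 := fn_wj (C := C) J c 0
  unfold K0 wpr
  fun_prop

theorem fam_dfb {J : ℕ} (hJ : 2 ≤ J) (c : ℕ) {j : ℕ} (hj : j ≤ J) : Dfb J (fam J c j) := by
  induction j with
  | zero =>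
    refine Dfb.had (K := K0 J c) (lam := lmj J 0) (fun C _ => fn_K0 J c) (fun C _ => fn_lmj J 0)
      (K0_le hJ c) ⟨J + 2, fun s => ?_⟩
    have h1 : (s + 1) ^ (J - 1) ≤ (s + 1) ^ J := Nat.pow_le_pow_right (Nat.succ_pos s) (by omega)
    have h2 : 1 ≤ (s + 1) ^ J := Nat.one_le_pow _ _ (Nat.succ_pos s)
    have h3 : J ≤ J * (s + 1) ^ J := Nat.le_mul_of_pos_right J h2
    unfold lmj
    rw [Nat.sub_zero, add_mul]
    omega
  | succ j ih =>
    have ih' := ih (by omega)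
    obtain ⟨C', hC'⟩ := bet_le hJ c hj
    refine Dfb.level (S := fam J c j) (lam := lmj J (j + 1)) (d := fun s => s + 1)
      (w := wj J c j) ih' (fun C _ => fn_lmj J (j + 1)) (fun C _ => by fun_prop)
      (fun C _ => fn_wj J c j) (fun s => Nat.succ_le_succ (Nat.zero_le s))
      ⟨c + (J - (j + 1)), fun s => ?_⟩ ⟨C', fun s => ?_⟩
    · unfold wj
      rw [mul_assoc, ← pow_succ]
      exact Nat.mul_le_mul_left _ (Nat.pow_le_pow_right (Nat.succ_pos s) hj)
    · refine (Nat.mul_le_mul_right (s + 1) (hC' s)).trans (le_of_eq ?_)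
      rw [mul_assoc, ← pow_succ, show J - 1 + 1 = J by omega]

theorem nJ_lt {J : ℕ} (hJ : 2 ≤ J) (c : ℕ) : StrictMono (nJ J c) := by
  intro s t h
  have h1 := fam_nb_mono J c J h.le
  have h2 : (s + 1) ^ (J - 1) < (t + 1) ^ (J - 1) :=
    Nat.pow_lt_pow_left (Nat.add_lt_add_right h 1) (by omega)
  unfold nJ
  omega

theorem nJ_ge {J : ℕ} (hJ : 2 ≤ J) (c s : ℕ) : (s + 1) ^ J ≤ nJ J c s := by
  obtain ⟨k, rfl⟩ : ∃ k, J = k + 1 := ⟨J - 1, by omega⟩
  have h1 : (fam (k + 1) c (k + 1) s).nb =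
      2 * (s + 1) * bet (lmj (k + 1) (k + 1) s) (fam (k + 1) c k s).mu (s + 1)
        (wj (k + 1) c k s) + (fam (k + 1) c k s).nb := rfl
  have h2 : (s + 1) ^ k ≤ bet (lmj (k + 1) (k + 1) s) (fam (k + 1) c k s).mu (s + 1)
      (wj (k + 1) c k s) := by
    unfold bet kap lmj
    rw [show k + 1 - 1 = k by omega]
    omega
  have h3 : (s + 1) ^ (k + 1) ≤ 2 * (s + 1) *
      bet (lmj (k + 1) (k + 1) s) (fam (k + 1) c k s).mu (s + 1) (wj (k + 1) c k s) := by
    calc (s + 1) ^ (k + 1) = (s + 1) * (s + 1) ^ k := by rw [pow_succ, mul_comm]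
      _ ≤ 2 * (s + 1) * bet (lmj (k + 1) (k + 1) s) (fam (k + 1) c k s).mu (s + 1)
          (wj (k + 1) c k s) := Nat.mul_le_mul (by omega) h2
  unfold nJ
  rw [h1]
  omega

theorem nJ_le {J : ℕ} (hJ : 2 ≤ J) (c : ℕ) : ∃ C, ∀ s, nJ J c s ≤ C * (s + 1) ^ J := by
  obtain ⟨C, hC⟩ := nb_le hJ c (le_refl J)
  refine ⟨C + 2, fun s => ?_⟩
  have h0 := hC s
  have h1 : (s + 1) ^ (J - 1) ≤ (s + 1) ^ J := Nat.pow_le_pow_right (Nat.succ_pos s) (by omega)
  have h2 : 1 ≤ (s + 1) ^ J := Nat.one_le_pow _ _ (Nat.succ_pos s)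
  unfold nJ
  rw [add_mul]
  omega

private theorem fn_nb {J : ℕ} (hJ : 2 ≤ J) (c : ℕ) (C : NClass) [Calc C] {j : ℕ} (hj : j ≤ J) :
    Fn C (fun s => (fam J c j s).nb) := by
  induction j with
  | zero =>
    have h0 : (fun s => (fam J c 0 s).nb) = fun s => 2 ^ K0 J c s := rfl
    rw [h0]
    refine Fn.pow (Fn.const 2) (fn_K0 J c) ?_
    obtain ⟨C', hC'⟩ := K0_le hJ c
    have h1 : Fn C (fun s : ℕ => C' * (s + 1) ^ J) :=
      Fn.mul (Fn.const C') (fn_powc (by fun_prop) J)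
    obtain ⟨b, hb⟩ := h1.bd
    refine ⟨b, fun s => ?_⟩
    have h2 := hb s
    rw [sz_nat] at h2 ⊢
    exact (Nat.size_le_size (hC' s)).trans h2
  | succ j ih =>
    have h1 := ih (by omega)
    have h2 := (fam_dfb hJ c (show j ≤ J by omega)).mu C
    have h3 := fn_bet (fn_lmj (C := C) J (j + 1)) h2 (by fun_prop : Fn C (fun s : ℕ => s + 1))
      (fn_wj J c j)
    show Fn C (fun s => 2 * (s + 1) * bet (lmj J (j + 1) s) (fam J c j s).mu (s + 1)
      (wj J c j s) + (fam J c j s).nb)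
    fun_prop

theorem fn_nJ {J : ℕ} (hJ : 2 ≤ J) (c : ℕ) (C : NClass) [Calc C] : Fn C (nJ J c) := by
  have h1 := fn_nb hJ c C (le_refl J)
  have h2 : Fn C (fun s : ℕ => (s + 1) ^ (J - 1)) := fn_powc (by fun_prop) _
  show Fn C (fun s => (fam J c J s).nb + (s + 1) ^ (J - 1) + 1)
  fun_prop

end LSA
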