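import Mathlib

/-!
# H85B/Part1: a table of polynomials on lines gives a partial function

Module `H85B/Part1`. `F` is a finite field, `V` a finite vector space, `P : V → F` is on every line a polynomial
of degree at most `D`, and `T z v` is a polynomial of degree at most `D` for every line `(z, v)`. For the
parameters `x₀, τ₀, τ₁` and the point `x` put `v = (τ₁ - τ₀)⁻¹ • (x - x₀)`, `z = x₀ - τ₀ • v` (the line which is at
`x₀` at `τ₀` and at `x` at `τ₁`). The point `x` is right if `T z v` has the right values at `τ₀` and `τ₁`, and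
wrong if it has the right value at `τ₀` and a wrong value at `τ₁`.

Proof. Let `Ω` be the set of the `(x₀, τ₀, τ₁)` with `τ₀ ≠ τ₁`; it has `|V| |F| (|F| - 1)` elements. For
`τ₀ ≠ τ₁` the map `(x₀, x) ↦ (z, v)` is a bijection of `V × V` (inverse `x₀ = z + τ₀ • v`, `x = z + τ₁ • v`). So

* `∑ Ω, #right = ∑ (z, v), #{(τ₀, τ₁) | ...} ≥ |F| (|F| - 1) #{(z, v) | correct line}`, so the sum over `Ω` of
  `A = #right` is at least `2 ^ (-κ) |V| |Ω|`, and as `A ≤ |V|`, `A ≥ 2 ^ (-κ-1) |V|` holds for at least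
  `2 ^ (-κ-1) |Ω|` elements of `Ω`;
* if `(z, v)` is not a correct line, at most `D` values `τ₀` have `(T z v).eval τ₀ = P (z + τ₀ • v)`
  (`Polynomial.card_roots'`), so `∑ Ω, #wrong ≤ |V| ^ 2 D |F|`. If `|F| #wrong > 2 ^ (κ+3) D |V|` held for at least
  `2 ^ (-κ-2) |Ω|` elements of `Ω`, then `∑ Ω, #wrong` would be larger than
  `2 ^ (-κ-2) |V| |F| (|F| - 1) * 2 ^ (κ+3) D |V| / |F| = 2 D |V| ^ 2 (|F| - 1) ≥ D |V| ^ 2 |F|`.
  (If `D = 0` there are no wrong points for `τ₀ ≠ τ₁`: use `D ≥ 1`, which is a hypothesis.)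

So both conditions hold for at least `(2 ^ (-κ-1) - 2 ^ (-κ-2)) |Ω| ≥ 2 ^ (-κ-2) |V| |F| (|F| - 1) ≥
2 ^ (-κ-3) |V| |F| ^ 2` triples. (Work with natural numbers: double counting, `Finset.sum_comm`,
`Finset.card_eq_sum_card_fiberwise`, or cast to `ℝ`.)
-/

set_option autoImplicit false

namespace LSA

open Polynomial

/-- the counting part -/
private theorem part1_count {ι : Type} (s : Finset ι) (A W : ι → ℕ) (N q D κ : ℕ) (hN : 0 < N)
    (hD : 0 < D) (hA : ∀ r ∈ s, A r ≤ N) (h1 : N * s.card ≤ 2 ^ κ * ∑ r ∈ s, A r)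
    (h2 : ∑ r ∈ s, W r ≤ N * N * (D * q)) :
    4 * s.card ≤ 2 ^ (κ + 3) * (s.filter fun r => N ≤ 2 ^ (κ + 1) * A r ∧
      q * W r ≤ 2 ^ (κ + 3) * D * N).card + N * (q * q) := by
  classical
  set G := s.filter fun r => N ≤ 2 ^ (κ + 1) * A r ∧ q * W r ≤ 2 ^ (κ + 3) * D * N with hG
  set G1 := s.filter fun r => N ≤ 2 ^ (κ + 1) * A r with hG1
  set B2 := s.filter fun r => ¬ q * W r ≤ 2 ^ (κ + 3) * D * N with hB2
  -- the good triples for `A`
  have e1 : s.card ≤ 2 ^ (κ + 1) * G1.card := by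
    have hp : ∑ r ∈ s, 2 ^ (κ + 1) * A r ≤
        ∑ r ∈ s, (N + if N ≤ 2 ^ (κ + 1) * A r then 2 ^ (κ + 1) * N else 0) := by
      refine Finset.sum_le_sum fun r hr => ?_
      split_ifs with hc
      · have := Nat.mul_le_mul_left (2 ^ (κ + 1)) (hA r hr)
        omega
      · omega
    rw [Finset.sum_add_distrib, Finset.sum_const, smul_eq_mul, ← Finset.sum_filter,
      Finset.sum_const, smul_eq_mul, ← Finset.mul_sum] at hp
    have h3 : N * s.card * 2 ≤ 2 ^ (κ + 1) * ∑ r ∈ s, A r := by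
      rw [pow_succ]
      calc N * s.card * 2 ≤ (2 ^ κ * ∑ r ∈ s, A r) * 2 := Nat.mul_le_mul_right 2 h1
        _ = 2 ^ κ * 2 * ∑ r ∈ s, A r := by ring
    have h4 : N * s.card ≤ N * (2 ^ (κ + 1) * G1.card) := by
      have h5 : G1.card * (2 ^ (κ + 1) * N) = N * (2 ^ (κ + 1) * G1.card) := by ring
      have h6 : s.card * N = N * s.card := by ring
      rw [← hG1, h5, h6] at hp
      omega
    exact Nat.le_of_mul_le_mul_left h4 hN
  -- the bad triples for `W`
  have e2 : B2.card * 2 ^ (κ + 3) ≤ N * (q * q) := by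
    have hp : ∑ r ∈ s, (if ¬ q * W r ≤ 2 ^ (κ + 3) * D * N then 2 ^ (κ + 3) * D * N else 0) ≤
        ∑ r ∈ s, q * W r := by
      refine Finset.sum_le_sum fun r hr => ?_
      split_ifs with hc
      · omega
      · omega
    rw [← Finset.sum_filter, Finset.sum_const, smul_eq_mul, ← Finset.mul_sum] at hp
    have h3 : (D * N) * (B2.card * 2 ^ (κ + 3)) ≤ (D * N) * (N * (q * q)) := by
      calc (D * N) * (B2.card * 2 ^ (κ + 3)) = B2.card * (2 ^ (κ + 3) * D * N) := by ring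
        _ ≤ q * ∑ r ∈ s, W r := hp
        _ ≤ q * (N * N * (D * q)) := Nat.mul_le_mul_left q h2
        _ = (D * N) * (N * (q * q)) := by ring
    exact Nat.le_of_mul_le_mul_left h3 (Nat.mul_pos hD hN)
  have e3 : G1.card ≤ G.card + B2.card := by
    refine le_trans (Finset.card_le_card ?_) (Finset.card_union_le G B2)
    intro r hr
    rw [hG1, Finset.mem_filter] at hr
    rw [Finset.mem_union, hG, hB2, Finset.mem_filter, Finset.mem_filter]
    by_cases hc : q * W r ≤ 2 ^ (κ + 3) * D * N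
    · exact Or.inl ⟨hr.1, hr.2, hc⟩
    · exact Or.inr ⟨hr.1, hc⟩
  calc 4 * s.card ≤ 4 * (2 ^ (κ + 1) * G1.card) := Nat.mul_le_mul_left 4 e1
    _ = 2 ^ (κ + 3) * G1.card := by ring
    _ ≤ 2 ^ (κ + 3) * (G.card + B2.card) := Nat.mul_le_mul_left _ e3
    _ = 2 ^ (κ + 3) * G.card + B2.card * 2 ^ (κ + 3) := by ring
    _ ≤ _ := Nat.add_le_add_left e2 _

/-- lines through two points -/
private def lineEquiv {F V : Type} [Field F] [AddCommGroup V] [Module F V] (a b : F)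
    (hab : a ≠ b) : V × V ≃ V × V where
  toFun x := (x.1 - a • (b - a)⁻¹ • (x.2 - x.1), (b - a)⁻¹ • (x.2 - x.1))
  invFun y := (y.1 + a • y.2, y.1 + b • y.2)
  left_inv x := by
    have h0 : b - a ≠ 0 := sub_ne_zero.2 hab.symm
    have h1 : (b - a) • (b - a)⁻¹ • (x.2 - x.1) = x.2 - x.1 := by
      rw [smul_smul, mul_inv_cancel₀ h0, one_smul]
    ext1
    · simp
    · show x.1 - a • (b - a)⁻¹ • (x.2 - x.1) + b • (b - a)⁻¹ • (x.2 - x.1) = x.2
      rw [sub_smul] at h1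
      have h2 : x.1 - a • (b - a)⁻¹ • (x.2 - x.1) + b • (b - a)⁻¹ • (x.2 - x.1) =
          x.1 + (b • (b - a)⁻¹ • (x.2 - x.1) - a • (b - a)⁻¹ • (x.2 - x.1)) := by abel
      rw [h2, h1]
      abel
  right_inv y := by
    have h0 : b - a ≠ 0 := sub_ne_zero.2 hab.symm
    have h1 : (b - a)⁻¹ • (y.1 + b • y.2 - (y.1 + a • y.2)) = y.2 := by
      have : y.1 + b • y.2 - (y.1 + a • y.2) = (b - a) • y.2 := by
        rw [sub_smul]; abel
      rw [this, smul_smul, inv_mul_cancel₀ h0, one_smul]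
    ext1
    · show y.1 + a • y.2 - a • (b - a)⁻¹ • (y.1 + b • y.2 - (y.1 + a • y.2)) = y.1
      rw [h1]; abel
    · exact h1

open Classical in
theorem part1 {F V : Type} [Field F] [Fintype F] [AddCommGroup V] [Module F V] [Fintype V]
    (P : V → F) (T : V → V → F[X]) {D : ℕ} (hD : 1 ≤ D) (hT : ∀ z v, (T z v).natDegree ≤ D)
    (hP : ∀ z v : V, ∃ g : F[X], g.natDegree ≤ D ∧ ∀ t : F, g.eval t = P (z + t • v)) (κ : ℕ)
    (h : Fintype.card V * Fintype.card V ≤ 2 ^ κ * (Finset.univ.filter fun x : V × V =>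
      ∀ t : F, (T x.1 x.2).eval t = P (x.1 + t • x.2)).card) :
    Fintype.card V * (Fintype.card F * Fintype.card F) ≤ 2 ^ (κ + 3) *
      (Finset.univ.filter fun r : V × F × F => r.2.1 ≠ r.2.2 ∧
        Fintype.card V ≤ 2 ^ (κ + 1) * (Finset.univ.filter fun x : V =>
          (T (r.1 - r.2.1 • (r.2.2 - r.2.1)⁻¹ • (x - r.1)) ((r.2.2 - r.2.1)⁻¹ • (x - r.1))).eval
            r.2.1 = P r.1 ∧
          (T (r.1 - r.2.1 • (r.2.2 - r.2.1)⁻¹ • (x - r.1)) ((r.2.2 - r.2.1)⁻¹ • (x - r.1))).eval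
            r.2.2 = P x).card ∧
        Fintype.card F * (Finset.univ.filter fun x : V =>
          (T (r.1 - r.2.1 • (r.2.2 - r.2.1)⁻¹ • (x - r.1)) ((r.2.2 - r.2.1)⁻¹ • (x - r.1))).eval
            r.2.1 = P r.1 ∧
          (T (r.1 - r.2.1 • (r.2.2 - r.2.1)⁻¹ • (x - r.1)) ((r.2.2 - r.2.1)⁻¹ • (x - r.1))).eval
            r.2.2 ≠ P x).card ≤ 2 ^ (κ + 3) * D * Fintype.card V).card := by
  set N := Fintype.card V with hN
  set q := Fintype.card F with hq
  set O : Finset (F × F) := (Finset.univ : Finset F).offDiag with hO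
  set s : Finset (V × F × F) := (Finset.univ : Finset V) ×ˢ O with hs
  set A : V × F × F → ℕ := fun r => (Finset.univ.filter fun x : V =>
          (T (r.1 - r.2.1 • (r.2.2 - r.2.1)⁻¹ • (x - r.1)) ((r.2.2 - r.2.1)⁻¹ • (x - r.1))).eval
            r.2.1 = P r.1 ∧
          (T (r.1 - r.2.1 • (r.2.2 - r.2.1)⁻¹ • (x - r.1)) ((r.2.2 - r.2.1)⁻¹ • (x - r.1))).eval
            r.2.2 = P x).card with hA
  set W : V × F × F → ℕ := fun r => (Finset.univ.filter fun x : V =>
          (T (r.1 - r.2.1 • (r.2.2 - r.2.1)⁻¹ • (x - r.1)) ((r.2.2 - r.2.1)⁻¹ • (x - r.1))).eval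
            r.2.1 = P r.1 ∧
          (T (r.1 - r.2.1 • (r.2.2 - r.2.1)⁻¹ • (x - r.1)) ((r.2.2 - r.2.1)⁻¹ • (x - r.1))).eval
            r.2.2 ≠ P x).card with hW
  have hNpos : 0 < N := Fintype.card_pos_iff.2 ⟨0⟩
  have hq2 : 2 ≤ q := Fintype.one_lt_card
  -- the sum over `x₀` as a number of lines
  have key : ∀ (t : F × F), t ∈ O → ∀ (p : V → V → V → V → Prop),
      ∑ x0 : V, (Finset.univ.filter fun x : V =>
        p (x0 - t.1 • (t.2 - t.1)⁻¹ • (x - x0)) ((t.2 - t.1)⁻¹ • (x - x0)) x0 x).card =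
      (Finset.univ.filter fun y : V × V => p y.1 y.2 (y.1 + t.1 • y.2) (y.1 + t.2 • y.2)).card := by
    intro t ht p
    have hne : t.1 ≠ t.2 := (Finset.mem_offDiag.1 ht).2.2
    have e1 : ∑ x0 : V, (Finset.univ.filter fun x : V =>
        p (x0 - t.1 • (t.2 - t.1)⁻¹ • (x - x0)) ((t.2 - t.1)⁻¹ • (x - x0)) x0 x).card =
        (Finset.univ.filter fun x : V × V =>
        p (x.1 - t.1 • (t.2 - t.1)⁻¹ • (x.2 - x.1)) ((t.2 - t.1)⁻¹ • (x.2 - x.1)) x.1 x.2).card := by
      rw [Finset.card_filter, ← Finset.univ_product_univ, Finset.sum_product]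
      refine Finset.sum_congr rfl fun x0 _ => ?_
      rw [Finset.card_filter]
    rw [e1]
    refine Finset.card_equiv (lineEquiv t.1 t.2 hne) ?_
    intro x
    have hx := (lineEquiv (V := V) t.1 t.2 hne).left_inv x
    have hx1 : x.1 - t.1 • (t.2 - t.1)⁻¹ • (x.2 - x.1) + t.1 • (t.2 - t.1)⁻¹ • (x.2 - x.1) = x.1 :=
      congrArg Prod.fst hx
    have hx2 : x.1 - t.1 • (t.2 - t.1)⁻¹ • (x.2 - x.1) + t.2 • (t.2 - t.1)⁻¹ • (x.2 - x.1) = x.2 :=
      congrArg Prod.snd hx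
    rw [Finset.mem_filter, Finset.mem_filter]
    show (x ∈ Finset.univ ∧ p (x.1 - t.1 • (t.2 - t.1)⁻¹ • (x.2 - x.1))
      ((t.2 - t.1)⁻¹ • (x.2 - x.1)) x.1 x.2) ↔ (_ ∈ Finset.univ ∧
      p (x.1 - t.1 • (t.2 - t.1)⁻¹ • (x.2 - x.1)) ((t.2 - t.1)⁻¹ • (x.2 - x.1))
        (x.1 - t.1 • (t.2 - t.1)⁻¹ • (x.2 - x.1) + t.1 • (t.2 - t.1)⁻¹ • (x.2 - x.1))
        (x.1 - t.1 • (t.2 - t.1)⁻¹ • (x.2 - x.1) + t.2 • (t.2 - t.1)⁻¹ • (x.2 - x.1)))
    rw [hx1, hx2]
    simp
  have hcard : s.card = N * O.card := by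
    rw [hs, Finset.card_product, Finset.card_univ]
  have h1 : N * s.card ≤ 2 ^ κ * ∑ r ∈ s, A r := by
    have e1 : ∑ r ∈ s, A r = ∑ t ∈ O, ∑ x0 : V, A (x0, t) := by
      rw [hs, Finset.sum_product_right]
    have e2 : ∀ t ∈ O, (Finset.univ.filter fun x : V × V =>
        ∀ t : F, (T x.1 x.2).eval t = P (x.1 + t • x.2)).card ≤ ∑ x0 : V, A (x0, t) := by
      intro t ht
      have this : ∑ x0 : V, A (x0, t) = (Finset.univ.filter fun y : V × V =>
        (T y.1 y.2).eval t.1 = P (y.1 + t.1 • y.2) ∧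
        (T y.1 y.2).eval t.2 = P (y.1 + t.2 • y.2)).card := by
        convert key t ht (fun z v x0 x => (T z v).eval t.1 = P x0 ∧ (T z v).eval t.2 = P x)
      rw [this]
      refine Finset.card_le_card ?_
      intro y hy
      rw [Finset.mem_filter] at hy ⊢
      exact ⟨hy.1, hy.2 t.1, hy.2 t.2⟩
    rw [e1]
    calc N * s.card = (N * N) * O.card := by rw [hcard]; ring
      _ ≤ (2 ^ κ * (Finset.univ.filter fun x : V × V =>
        ∀ t : F, (T x.1 x.2).eval t = P (x.1 + t • x.2)).card) * O.card :=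
          Nat.mul_le_mul_right _ h
      _ = 2 ^ κ * ∑ t ∈ O, (Finset.univ.filter fun x : V × V =>
        ∀ t : F, (T x.1 x.2).eval t = P (x.1 + t • x.2)).card := by
          rw [Finset.sum_const, smul_eq_mul]; ring
      _ ≤ _ := Nat.mul_le_mul_left _ (Finset.sum_le_sum e2)
  have h2 : ∑ r ∈ s, W r ≤ N * N * (D * q) := by
    have e1 : ∑ r ∈ s, W r = ∑ t ∈ O, ∑ x0 : V, W (x0, t) := by
      rw [hs, Finset.sum_product_right]
    have e2 : ∀ t ∈ O, ∑ x0 : V, W (x0, t) = (Finset.univ.filter fun y : V × V =>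
        (T y.1 y.2).eval t.1 = P (y.1 + t.1 • y.2) ∧
        (T y.1 y.2).eval t.2 ≠ P (y.1 + t.2 • y.2)).card := by
      intro t ht
      convert key t ht (fun z v x0 x => (T z v).eval t.1 = P x0 ∧ (T z v).eval t.2 ≠ P x)
    rw [e1, Finset.sum_congr rfl e2]
    have e3 : ∑ t ∈ O, (Finset.univ.filter fun y : V × V =>
        (T y.1 y.2).eval t.1 = P (y.1 + t.1 • y.2) ∧
        (T y.1 y.2).eval t.2 ≠ P (y.1 + t.2 • y.2)).card =
        ∑ y : V × V, (O.filter fun t : F × F => (T y.1 y.2).eval t.1 = P (y.1 + t.1 • y.2) ∧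
        (T y.1 y.2).eval t.2 ≠ P (y.1 + t.2 • y.2)).card := by
      simp only [Finset.card_filter]
      exact Finset.sum_comm
    rw [e3]
    have e4 : ∀ y : V × V, (O.filter fun t : F × F => (T y.1 y.2).eval t.1 = P (y.1 + t.1 • y.2) ∧
        (T y.1 y.2).eval t.2 ≠ P (y.1 + t.2 • y.2)).card ≤ D * q := by
      intro y
      by_cases hy : ∀ t : F, (T y.1 y.2).eval t = P (y.1 + t • y.2)
      · rw [Finset.filter_false_of_mem]
        · simp
        · intro t _ ht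
          exact ht.2 (hy t.2)
      · obtain ⟨g, hg, hgP⟩ := hP y.1 y.2
        have hne : T y.1 y.2 - g ≠ 0 := by
          intro h0
          apply hy
          intro t
          rw [sub_eq_zero.1 h0, hgP]
        have hsub : (O.filter fun t : F × F => (T y.1 y.2).eval t.1 = P (y.1 + t.1 • y.2) ∧
            (T y.1 y.2).eval t.2 ≠ P (y.1 + t.2 • y.2)) ⊆
            (T y.1 y.2 - g).roots.toFinset ×ˢ (Finset.univ : Finset F) := by
          intro t ht
          rw [Finset.mem_filter] at ht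
          rw [Finset.mem_product, Multiset.mem_toFinset, Polynomial.mem_roots hne]
          refine ⟨?_, Finset.mem_univ _⟩
          rw [Polynomial.IsRoot.def, Polynomial.eval_sub, ht.2.1, hgP, sub_self]
        refine le_trans (Finset.card_le_card hsub) ?_
        rw [Finset.card_product, Finset.card_univ]
        refine Nat.mul_le_mul_right _ ?_
        refine le_trans (Multiset.toFinset_card_le _) ?_
        refine le_trans (Polynomial.card_roots' _) ?_
        refine le_trans (Polynomial.natDegree_sub_le _ _) ?_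
        exact max_le (hT _ _) hg
    refine le_trans (Finset.sum_le_sum fun y _ => e4 y) ?_
    rw [Finset.sum_const, smul_eq_mul, Finset.card_univ, Fintype.card_prod]
  have hAN : ∀ r ∈ s, A r ≤ N := by
    intro r _
    rw [hA]
    exact Finset.card_le_univ _
  have h3 := part1_count s A W N q D κ hNpos hD hAN h1 h2
  have hOc : O.card = q * q - q := by
    rw [hO, Finset.offDiag_card, Finset.card_univ]
  have h4 : q * q ≤ 2 * O.card := by
    rw [hOc]
    have : 2 * q ≤ q * q := Nat.mul_le_mul_right q hq2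
    omega
  have h5 : 2 * (N * (q * q)) ≤ 4 * s.card := by
    rw [hcard]
    calc 2 * (N * (q * q)) ≤ 2 * (N * (2 * O.card)) :=
          Nat.mul_le_mul_left 2 (Nat.mul_le_mul_left N h4)
      _ = 4 * (N * O.card) := by ring
  have h6 : (Finset.univ.filter fun r : V × F × F => r.2.1 ≠ r.2.2 ∧
        N ≤ 2 ^ (κ + 1) * A r ∧ q * W r ≤ 2 ^ (κ + 3) * D * N) =
      s.filter fun r => N ≤ 2 ^ (κ + 1) * A r ∧ q * W r ≤ 2 ^ (κ + 3) * D * N := by
    ext r
    rw [Finset.mem_filter, Finset.mem_filter, hs, Finset.mem_product, hO, Finset.mem_offDiag]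
    simp
  show N * (q * q) ≤ 2 ^ (κ + 3) * (Finset.univ.filter fun r : V × F × F => r.2.1 ≠ r.2.2 ∧
        N ≤ 2 ^ (κ + 1) * A r ∧ q * W r ≤ 2 ^ (κ + 3) * D * N).card
  rw [h6]
  omega

end LSA
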