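import Mathlib

/-!
# H85B/Part2: pairwise independent points on curves

Module `H85B/Part2`. `F` is a finite field, `V` a finite vector space, `Rt` and `Wr` are sets of points (right and
wrong), `S` a finite set of nonzero elements of `F` with `m = 2 ^ (κ + w' + 6)` elements.

Proof. For `t ≠ 0` the map `(z, v) ↦ x + t • z + (t * t) • v` from `V × V` to `V` is `|V|`-to-one, and for nonzero
`t ≠ u` the map `(z, v) ↦ (x + t • z + (t * t) • v, x + u • z + (u * u) • v)` is a bijection of `V × V`
(the determinant is `t u (u - t)`). So, with `a = #Rt`, `b = #Wr` and `X (z, v)` the number of the `t ∈ S` with a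
right point:

* at most `m |V| b` pairs `(z, v)` have a wrong point for some `t ∈ S`; this is at most `|V| ^ 2 / 8`, because
  `8 m b |F| ≤ 8 * 2 ^ (κ + w' + 6) * 2 ^ (κ + 3) * 2 ^ w' |V| = 2 ^ (2 κ + 2 w' + 12) |V| ≤ |F| |V|`;
* `∑ X = m |V| a` and `∑ X ^ 2 = m |V| a + m (m - 1) a ^ 2`, so `∑ (|V| X - m a) ^ 2 ≤ m |V| ^ 3 a`
  (in integers), and a pair with `2 |V| X < m a` contributes at least `(m a) ^ 2 / 4`; there are at most
  `4 |V| ^ 3 / (m a)` such pairs, which is at most `|V| ^ 2 / 8` because
  `m a * 2 ^ (κ + 1) ≥ m |V|`, `m a ≥ 2 ^ (w' + 5) |V| ≥ 32 |V|`;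
* for the other pairs `X ≥ m a / (2 |V|) ≥ 2 ^ (w' + 4)`.
-/

set_option autoImplicit false

namespace LSA

open Classical in
private theorem p2_cnt1 {F V : Type} [Field F] [AddCommGroup V] [Module F V] [Fintype V]
    (x : V) {t : F} (ht : t ≠ 0) (P : V → Prop) :
    (Finset.univ.filter fun y : V × V => P (x + t • y.1 + (t * t) • y.2)).card =
      Fintype.card V * (Finset.univ.filter P).card := by
  have hbij : Function.Bijective
      (fun y : V × V => ((x + t • y.1 + (t * t) • y.2, y.2) : V × V)) := by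
    rw [← Finite.injective_iff_bijective]
    rintro ⟨z, v⟩ ⟨z', v'⟩ h
    simp only [Prod.mk.injEq] at h
    obtain ⟨h1, h2⟩ := h
    subst h2
    have h3 : t • z = t • z' := by
      have h4 := add_right_cancel h1
      exact add_left_cancel h4
    have h5 := smul_right_injective V ht h3
    rw [h5]
  rw [Finset.card_bijective _ hbij (t := (Finset.univ.filter P) ×ˢ Finset.univ)
    (by
      intro y
      simp), Finset.card_product, Finset.card_univ, mul_comm]

open Classical in
private theorem p2_cnt2 {F V : Type} [Field F] [AddCommGroup V] [Module F V] [Fintype V]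
    (x : V) {t u : F} (ht : t ≠ 0) (hu : u ≠ 0) (htu : t ≠ u) (P : V → Prop) :
    (Finset.univ.filter fun y : V × V => P (x + t • y.1 + (t * t) • y.2) ∧
      P (x + u • y.1 + (u * u) • y.2)).card =
      (Finset.univ.filter P).card * (Finset.univ.filter P).card := by
  have hbij : Function.Bijective (fun y : V × V =>
      ((x + t • y.1 + (t * t) • y.2, x + u • y.1 + (u * u) • y.2) : V × V)) := by
    rw [← Finite.injective_iff_bijective]
    rintro ⟨z, v⟩ ⟨z', v'⟩ h
    simp only [Prod.mk.injEq] at h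
    obtain ⟨h1, h2⟩ := h
    have h3 : t • (z - z') + (t * t) • (v - v') = 0 := by
      have h5 : t • (z - z') + (t * t) • (v - v') =
          (x + t • z + (t * t) • v) - (x + t • z' + (t * t) • v') := by
        rw [smul_sub, smul_sub]
        abel
      rw [h5, h1, sub_self]
    have h4 : u • (z - z') + (u * u) • (v - v') = 0 := by
      have h5 : u • (z - z') + (u * u) • (v - v') =
          (x + u • z + (u * u) • v) - (x + u • z' + (u * u) • v') := by
        rw [smul_sub, smul_sub]
        abel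
      rw [h5, h2, sub_self]
    have h6 : (t * u * (t - u)) • (v - v') = 0 := by
      have h7 : (t * u * (t - u)) • (v - v') =
          u • (t • (z - z') + (t * t) • (v - v')) - t • (u • (z - z') + (u * u) • (v - v')) := by
        module
      rw [h7, h3, h4, smul_zero, smul_zero, sub_zero]
    have h8 : v - v' = 0 := by
      rcases smul_eq_zero.1 h6 with h | h
      · exact absurd h (mul_ne_zero (mul_ne_zero ht hu) (sub_ne_zero.2 htu))
      · exact h
    rw [h8, smul_zero, add_zero] at h3
    have h9 : z - z' = 0 := (smul_eq_zero.1 h3).resolve_left ht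
    rw [sub_eq_zero.1 h8, sub_eq_zero.1 h9]
  rw [Finset.card_bijective _ hbij (t := (Finset.univ.filter P) ×ˢ (Finset.univ.filter P))
    (by
      intro y
      simp), Finset.card_product]

open Classical in
private theorem p2_var {F V : Type} [Field F] [AddCommGroup V] [Module F V] [Fintype V]
    (Rt : V → Prop) (S : Finset F) (h0 : (0 : F) ∉ S) (x : V) :
    ∑ y : V × V, ((Fintype.card V : ℤ) *
        ((S.filter fun t => Rt (x + t • y.1 + (t * t) • y.2)).card : ℤ) -
        (S.card : ℤ) * ((Finset.univ.filter Rt).card : ℤ)) ^ 2 ≤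
      (Fintype.card V : ℤ) ^ 3 * ((S.card : ℤ) * ((Finset.univ.filter Rt).card : ℤ)) := by
  set N : ℤ := (Fintype.card V : ℤ) with hN
  set m : ℤ := (S.card : ℤ) with hm
  set a : ℤ := ((Finset.univ.filter Rt).card : ℤ) with ha
  have hX : ∀ y : V × V, ((S.filter fun t => Rt (x + t • y.1 + (t * t) • y.2)).card : ℤ) =
      ∑ t ∈ S, if Rt (x + t • y.1 + (t * t) • y.2) then (1 : ℤ) else 0 := by
    intro y
    rw [Finset.card_filter]
    push_cast
    rfl
  have h1 : ∑ y : V × V, ((S.filter fun t => Rt (x + t • y.1 + (t * t) • y.2)).card : ℤ) =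
      m * (N * a) := by
    simp_rw [hX]
    rw [Finset.sum_comm]
    have h2 : ∀ t ∈ S, ∑ y : V × V, (if Rt (x + t • y.1 + (t * t) • y.2) then (1 : ℤ) else 0) =
        N * a := by
      intro t ht
      have ht0 : t ≠ 0 := fun h => h0 (h ▸ ht)
      have h3 := p2_cnt1 x ht0 Rt
      rw [Finset.card_filter] at h3
      rw [hN, ha, ← Nat.cast_mul, ← h3]
      push_cast
      rfl
    rw [Finset.sum_congr rfl h2, Finset.sum_const, nsmul_eq_mul]
  have h2 : ∑ y : V × V, ((S.filter fun t => Rt (x + t • y.1 + (t * t) • y.2)).card : ℤ) ^ 2 =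
      m * (N * a) + m * (m - 1) * a ^ 2 := by
    have h3 : ∀ y : V × V, ((S.filter fun t => Rt (x + t • y.1 + (t * t) • y.2)).card : ℤ) ^ 2 =
        ∑ t ∈ S, ∑ u ∈ S, if Rt (x + t • y.1 + (t * t) • y.2) ∧
          Rt (x + u • y.1 + (u * u) • y.2) then (1 : ℤ) else 0 := by
      intro y
      rw [hX, sq, Finset.sum_mul_sum]
      refine Finset.sum_congr rfl fun t _ => Finset.sum_congr rfl fun u _ => ?_
      by_cases h4 : Rt (x + t • y.1 + (t * t) • y.2) <;>
        by_cases h5 : Rt (x + u • y.1 + (u * u) • y.2) <;> simp [h4, h5]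
    simp_rw [h3]
    rw [Finset.sum_comm]
    have h4 : ∀ t ∈ S, ∑ y : V × V, ∑ u ∈ S, (if Rt (x + t • y.1 + (t * t) • y.2) ∧
          Rt (x + u • y.1 + (u * u) • y.2) then (1 : ℤ) else 0) = N * a + (m - 1) * a ^ 2 := by
      intro t ht
      rw [Finset.sum_comm]
      have ht0 : t ≠ 0 := fun h => h0 (h ▸ ht)
      rw [← Finset.add_sum_erase S _ ht]
      congr 1
      · have h5 := p2_cnt1 x ht0 Rt
        rw [Finset.card_filter] at h5
        rw [hN, ha, ← Nat.cast_mul, ← h5]
        push_cast
        refine Finset.sum_congr rfl fun y _ => ?_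
        simp only [and_self]
      · have h5 : ∀ u ∈ S.erase t, ∑ y : V × V, (if Rt (x + t • y.1 + (t * t) • y.2) ∧
            Rt (x + u • y.1 + (u * u) • y.2) then (1 : ℤ) else 0) = a ^ 2 := by
          intro u hu
          have hu1 := Finset.mem_of_mem_erase hu
          have hu0 : u ≠ 0 := fun h => h0 (h ▸ hu1)
          have hne : t ≠ u := fun h => (Finset.ne_of_mem_erase hu) h.symm
          have h6 := p2_cnt2 x ht0 hu0 hne Rt
          rw [Finset.card_filter] at h6
          rw [ha, sq, ← Nat.cast_mul, ← h6]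
          push_cast
          rfl
        rw [Finset.sum_congr rfl h5, Finset.sum_const, nsmul_eq_mul, Finset.card_erase_of_mem ht,
          Nat.cast_sub (Finset.card_pos.2 ⟨t, ht⟩)]
        push_cast
        rfl
    rw [Finset.sum_congr rfl h4, Finset.sum_const, nsmul_eq_mul]
    ring
  have h3 : ∑ y : V × V, (N * ((S.filter fun t => Rt (x + t • y.1 + (t * t) • y.2)).card : ℤ) -
      m * a) ^ 2 = N ^ 2 * (m * (N * a) + m * (m - 1) * a ^ 2) - 2 * N * (m * a) * (m * (N * a)) +
        N ^ 2 * (m * a) ^ 2 := by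
    rw [← h2, ← h1, Finset.mul_sum, Finset.mul_sum, ← Finset.sum_sub_distrib]
    have h4 : N ^ 2 * (m * a) ^ 2 = ∑ y : V × V, (m * a) ^ 2 := by
      rw [Finset.sum_const, Finset.card_univ, Fintype.card_prod, nsmul_eq_mul]
      push_cast
      ring
    rw [h4, ← Finset.sum_add_distrib]
    refine Finset.sum_congr rfl fun y _ => ?_
    ring
  rw [h3]
  have hm0 : 0 ≤ m := by positivity
  have hN0 : 0 ≤ N ^ 2 * (m * a ^ 2) := by positivity
  nlinarith

open Classical in
theorem part2 {F V : Type} [Field F] [Fintype F] [AddCommGroup V] [Module F V] [Fintype V]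
    (Rt Wr : V → Prop) (S : Finset F) (h0 : (0 : F) ∉ S) {κ w' : ℕ}
    (hS : S.card = 2 ^ (κ + w' + 6))
    (hR : Fintype.card V ≤ 2 ^ (κ + 1) * (Finset.univ.filter Rt).card)
    (hW : Fintype.card F * (Finset.univ.filter Wr).card ≤ 2 ^ (κ + 3) * 2 ^ w' * Fintype.card V)
    (hF : 2 ^ (2 * κ + 2 * w' + 12) ≤ Fintype.card F) (x : V) :
    3 * (Fintype.card V * Fintype.card V) ≤ 4 * (Finset.univ.filter fun y : V × V =>
      (∀ t ∈ S, ¬ Wr (x + t • y.1 + (t * t) • y.2)) ∧
        2 ^ (w' + 4) ≤ (S.filter fun t => Rt (x + t • y.1 + (t * t) • y.2)).card).card := by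
  have hNpos : 0 < Fintype.card V := Fintype.card_pos_iff.2 ⟨0⟩
  have hqpos : 0 < Fintype.card F := Fintype.card_pos_iff.2 ⟨0⟩
  have hvar := p2_var Rt S h0 x
  -- the first bad set
  have hb1 : 8 * (Finset.univ.filter fun y : V × V =>
      ∃ t ∈ S, Wr (x + t • y.1 + (t * t) • y.2)).card ≤ Fintype.card V * Fintype.card V := by
    have h1 : (Finset.univ.filter fun y : V × V =>
        ∃ t ∈ S, Wr (x + t • y.1 + (t * t) • y.2)).card ≤
        S.card * (Fintype.card V * (Finset.univ.filter Wr).card) := by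
      have h2 : (Finset.univ.filter fun y : V × V =>
          ∃ t ∈ S, Wr (x + t • y.1 + (t * t) • y.2)) ⊆
          S.biUnion fun t => Finset.univ.filter fun y : V × V =>
            Wr (x + t • y.1 + (t * t) • y.2) := by
        intro y hy
        rw [Finset.mem_filter] at hy
        obtain ⟨-, t, ht, h⟩ := hy
        rw [Finset.mem_biUnion]
        exact ⟨t, ht, by rw [Finset.mem_filter]; exact ⟨Finset.mem_univ _, h⟩⟩
      refine (Finset.card_le_card h2).trans (Finset.card_biUnion_le_card_mul _ _ _ ?_)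
      intro t ht
      have ht0 : t ≠ 0 := fun h => h0 (h ▸ ht)
      exact (p2_cnt1 x ht0 Wr).le
    have h3 : Fintype.card F * (8 * (S.card * (Finset.univ.filter Wr).card)) ≤
        Fintype.card F * Fintype.card V := by
      calc Fintype.card F * (8 * (S.card * (Finset.univ.filter Wr).card))
          = 8 * S.card * (Fintype.card F * (Finset.univ.filter Wr).card) := by ring
        _ ≤ 8 * S.card * (2 ^ (κ + 3) * 2 ^ w' * Fintype.card V) := Nat.mul_le_mul_left _ hW
        _ = 2 ^ (2 * κ + 2 * w' + 12) * Fintype.card V := by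
            rw [hS]
            ring
        _ ≤ Fintype.card F * Fintype.card V := Nat.mul_le_mul_right _ hF
    have h4 := Nat.le_of_mul_le_mul_left h3 hqpos
    calc 8 * (Finset.univ.filter fun y : V × V =>
          ∃ t ∈ S, Wr (x + t • y.1 + (t * t) • y.2)).card
        ≤ 8 * (S.card * (Fintype.card V * (Finset.univ.filter Wr).card)) :=
          Nat.mul_le_mul_left _ h1
      _ = Fintype.card V * (8 * (S.card * (Finset.univ.filter Wr).card)) := by ring
      _ ≤ Fintype.card V * Fintype.card V := Nat.mul_le_mul_left _ h4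
  -- the second bad set
  have hma : 2 ^ (w' + 5) * Fintype.card V ≤ S.card * (Finset.univ.filter Rt).card := by
    have h1 : 2 ^ (κ + 1) * (2 ^ (w' + 5) * Fintype.card V) ≤
        2 ^ (κ + 1) * (S.card * (Finset.univ.filter Rt).card) := by
      calc 2 ^ (κ + 1) * (2 ^ (w' + 5) * Fintype.card V)
          = 2 ^ (κ + w' + 6) * Fintype.card V := by ring
        _ ≤ 2 ^ (κ + w' + 6) * (2 ^ (κ + 1) * (Finset.univ.filter Rt).card) :=
            Nat.mul_le_mul_left _ hR
        _ = 2 ^ (κ + 1) * (S.card * (Finset.univ.filter Rt).card) := by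
            rw [hS]
            ring
    exact Nat.le_of_mul_le_mul_left h1 (by positivity)
  have hb2 : 8 * (Finset.univ.filter fun y : V × V =>
      (S.filter fun t => Rt (x + t • y.1 + (t * t) • y.2)).card < 2 ^ (w' + 4)).card ≤
      Fintype.card V * Fintype.card V := by
    set Bad := Finset.univ.filter fun y : V × V =>
      (S.filter fun t => Rt (x + t • y.1 + (t * t) • y.2)).card < 2 ^ (w' + 4) with hBad
    set N := Fintype.card V with hN
    set M := S.card * (Finset.univ.filter Rt).card with hM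
    have hMpos : 0 < M := lt_of_lt_of_le (by positivity) hma
    have h1 : ∀ y ∈ Bad, ((M : ℤ) ^ 2) ≤ 4 * (((N : ℤ) *
        ((S.filter fun t => Rt (x + t • y.1 + (t * t) • y.2)).card : ℤ) -
        (S.card : ℤ) * ((Finset.univ.filter Rt).card : ℤ)) ^ 2) := by
      intro y hy
      rw [hBad, Finset.mem_filter] at hy
      have h2 := hy.2
      set X := (S.filter fun t => Rt (x + t • y.1 + (t * t) • y.2)).card with hX
      have h3 : 2 * (N * X) ≤ M := by
        calc 2 * (N * X) ≤ 2 * (N * 2 ^ (w' + 4)) := by gcongr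
          _ = 2 ^ (w' + 5) * N := by ring
          _ ≤ M := hma
      have h4 : (S.card : ℤ) * ((Finset.univ.filter Rt).card : ℤ) = (M : ℤ) := by
        rw [hM]
        push_cast
        rfl
      rw [h4]
      have h5 : 2 * ((N : ℤ) * (X : ℤ)) ≤ (M : ℤ) := by exact_mod_cast h3
      have h6 : (0 : ℤ) ≤ (N : ℤ) * (X : ℤ) := by positivity
      nlinarith
    have h2 : (Bad.card : ℤ) * (M : ℤ) ^ 2 ≤ 4 * ((N : ℤ) ^ 3 * (M : ℤ)) := by
      calc (Bad.card : ℤ) * (M : ℤ) ^ 2 = ∑ y ∈ Bad, (M : ℤ) ^ 2 := by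
            rw [Finset.sum_const, nsmul_eq_mul]
        _ ≤ ∑ y ∈ Bad, 4 * (((N : ℤ) *
            ((S.filter fun t => Rt (x + t • y.1 + (t * t) • y.2)).card : ℤ) -
            (S.card : ℤ) * ((Finset.univ.filter Rt).card : ℤ)) ^ 2) := Finset.sum_le_sum h1
        _ ≤ ∑ y : V × V, 4 * (((N : ℤ) *
            ((S.filter fun t => Rt (x + t • y.1 + (t * t) • y.2)).card : ℤ) -
            (S.card : ℤ) * ((Finset.univ.filter Rt).card : ℤ)) ^ 2) :=
            Finset.sum_le_sum_of_subset_of_nonneg (Finset.subset_univ _)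
              fun y _ _ => by positivity
        _ = 4 * ∑ y : V × V, (((N : ℤ) *
            ((S.filter fun t => Rt (x + t • y.1 + (t * t) • y.2)).card : ℤ) -
            (S.card : ℤ) * ((Finset.univ.filter Rt).card : ℤ)) ^ 2) := by
            rw [Finset.mul_sum]
        _ ≤ 4 * ((N : ℤ) ^ 3 * (M : ℤ)) := by
            have h4 : (M : ℤ) = (S.card : ℤ) * ((Finset.univ.filter Rt).card : ℤ) := by
              rw [hM]
              push_cast
              rfl
            rw [h4]
            exact mul_le_mul_of_nonneg_left hvar (by norm_num)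
    have h3 : Bad.card * M ^ 2 ≤ 4 * (N ^ 3 * M) := by exact_mod_cast h2
    have h4 : Bad.card * M ≤ 4 * N ^ 3 := by
      have h5 : M * (Bad.card * M) ≤ M * (4 * N ^ 3) := by
        calc M * (Bad.card * M) = Bad.card * M ^ 2 := by ring
          _ ≤ 4 * (N ^ 3 * M) := h3
          _ = M * (4 * N ^ 3) := by ring
      exact Nat.le_of_mul_le_mul_left h5 hMpos
    have h5 : 32 * N ≤ M := by
      refine le_trans ?_ hma
      have h6 : 32 ≤ 2 ^ (w' + 5) := by
        calc 32 = 2 ^ 5 := by norm_num
          _ ≤ 2 ^ (w' + 5) := Nat.pow_le_pow_right (by norm_num) (by omega)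
      exact Nat.mul_le_mul_right _ h6
    have h6 : (4 * N) * (8 * Bad.card) ≤ (4 * N) * (N * N) := by
      calc (4 * N) * (8 * Bad.card) = Bad.card * (32 * N) := by ring
        _ ≤ Bad.card * M := Nat.mul_le_mul_left _ h5
        _ ≤ 4 * N ^ 3 := h4
        _ = (4 * N) * (N * N) := by ring
    exact Nat.le_of_mul_le_mul_left h6 (by positivity)
  -- conclusion
  have hcover : (Finset.univ : Finset (V × V)) ⊆
      ((Finset.univ.filter fun y : V × V =>
        (∀ t ∈ S, ¬ Wr (x + t • y.1 + (t * t) • y.2)) ∧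
        2 ^ (w' + 4) ≤ (S.filter fun t => Rt (x + t • y.1 + (t * t) • y.2)).card) ∪
      (Finset.univ.filter fun y : V × V => ∃ t ∈ S, Wr (x + t • y.1 + (t * t) • y.2))) ∪
      (Finset.univ.filter fun y : V × V =>
        (S.filter fun t => Rt (x + t • y.1 + (t * t) • y.2)).card < 2 ^ (w' + 4)) := by
    intro y _
    rw [Finset.mem_union, Finset.mem_union, Finset.mem_filter, Finset.mem_filter,
      Finset.mem_filter]
    by_cases h1 : ∃ t ∈ S, Wr (x + t • y.1 + (t * t) • y.2)
    · exact Or.inl (Or.inr ⟨Finset.mem_univ _, h1⟩)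
    · by_cases h2 : (S.filter fun t => Rt (x + t • y.1 + (t * t) • y.2)).card < 2 ^ (w' + 4)
      · exact Or.inr ⟨Finset.mem_univ _, h2⟩
      · push Not at h1 h2
        exact Or.inl (Or.inl ⟨Finset.mem_univ _, h1, h2⟩)
  have hle := (Finset.card_le_card hcover).trans ((Finset.card_union_le _ _).trans
    (Nat.add_le_add_right (Finset.card_union_le _ _) _))
  rw [Finset.card_univ, Fintype.card_prod] at hle
  omega

end LSA
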