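import Pool.Agent.H85B.Defs
import Pool.Agent.H69B.LI

/-!
# H85B/Poly: the extension on lines and on curves of degree 2

Module `H85B/Poly`. `exV` is the extension as a function on `Fin d → ZMod p` (`ext` depends only on the
coordinates below `d`; see the private `ext_congr'` in `H69B/LI`).

* `exV_line`: `line_poly` (`H69A/Line`) for `x j = z j` and `z j = z j + v j`; every `t : ZMod p` is the cast of
  `t.val` (`ZMod.natCast_zmod_val`).
* `exV_curve`: same proof as `line_poly`, with the factors
  `(C (x j - v) + X * C (z j) + X ^ 2 * C (v j)) * C ((dgt s y j - v)⁻¹)` of degree at most `2`.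
* `exV_msg`: `ext_point`. `cast_lqV`: `cast_lq`.
-/

set_option autoImplicit false

namespace LSA

open LSC Polynomial

/-- the extension as a function on `Fin d → ZMod p` -/
noncomputable def exV (p s d : ℕ) (f : ℕ → Prop) (x : Fin d → ZMod p) : ZMod p :=
  ext p s d f fun j => if h : j < d then x ⟨j, h⟩ else 0

open Classical in
private theorem ext_congrV {p s d : ℕ} (f : ℕ → Prop) {w w' : ℕ → ZMod p}
    (h : ∀ j < d, w j = w' j) : ext p s d f w = ext p s d f w' := by
  unfold ext
  refine Finset.sum_congr rfl fun y _ => ?_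
  by_cases hf : f y
  · rw [if_pos hf, if_pos hf]
    refine Finset.prod_congr rfl fun j hj => ?_
    rw [h j (Finset.mem_range.1 hj)]
  · rw [if_neg hf, if_neg hf]

theorem cast_lqV {p : ℕ} [Fact p.Prime] {s : ℕ} (hs : 2 ^ s ≤ p) (d : ℕ) (f : ℕ → Prop) (Z : ℕ) :
    ((lq p d s f Z : ℕ) : ZMod p) = exV p s d f (pt p d Z) := by
  rw [cast_lq hs d f Z]
  unfold exV
  apply ext_congrV
  intro j hj
  rw [dif_pos hj]
  rfl

theorem exV_line {p : ℕ} [Fact p.Prime] (s d : ℕ) (f : ℕ → Prop) (z v : Fin d → ZMod p) :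
    ∃ g : (ZMod p)[X], g.natDegree ≤ d * 2 ^ s ∧
      ∀ t : ZMod p, g.eval t = exV p s d f (z + t • v) := by
  obtain ⟨g, hg, he⟩ := line_poly (p := p) s d f (fun j => if h : j < d then z ⟨j, h⟩ else 0)
    (fun j => if h : j < d then z ⟨j, h⟩ + v ⟨j, h⟩ else 0)
  refine ⟨g, hg, fun t => ?_⟩
  have h1 := he t.val
  rw [ZMod.natCast_zmod_val] at h1
  rw [h1]
  unfold exV
  apply ext_congrV
  intro j hj
  simp only [dif_pos hj, Pi.add_apply, Pi.smul_apply, smul_eq_mul]
  ring

theorem exV_curve {p : ℕ} [Fact p.Prime] (s d : ℕ) (f : ℕ → Prop) (x z v : Fin d → ZMod p) :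
    ∃ g : (ZMod p)[X], g.natDegree ≤ 2 * (d * 2 ^ s) ∧
      ∀ t : ZMod p, g.eval t = exV p s d f (x + t • z + (t * t) • v) := by
  classical
  obtain ⟨x', hx'⟩ : ∃ x' : ℕ → ZMod p, x' = fun j => if h : j < d then x ⟨j, h⟩ else 0 := ⟨_, rfl⟩
  obtain ⟨z', hz'⟩ : ∃ z' : ℕ → ZMod p, z' = fun j => if h : j < d then z ⟨j, h⟩ else 0 := ⟨_, rfl⟩
  obtain ⟨v', hv'⟩ : ∃ v' : ℕ → ZMod p, v' = fun j => if h : j < d then v ⟨j, h⟩ else 0 := ⟨_, rfl⟩
  have hext : ∀ t : ZMod p, exV p s d f (x + t • z + (t * t) • v) =
      ext p s d f (fun j => x' j + t * z' j + t * t * v' j) := by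
    intro t
    unfold exV
    apply ext_congrV
    intro j hj
    rw [hx', hz', hv']
    simp only [dif_pos hj, Pi.add_apply, Pi.smul_apply, smul_eq_mul]
  refine ⟨∑ y ∈ Finset.range (2 ^ (s * d)), if f y then
    ∏ j ∈ Finset.range d, ∏ u ∈ (Finset.range (2 ^ s)).erase (dgt s y j),
      (C (x' j - (u : ℕ)) + X * C (z' j) + X ^ 2 * C (v' j)) *
        C ((((dgt s y j : ℕ) : ZMod p) - (u : ℕ))⁻¹) else 0, ?_, ?_⟩
  · apply natDegree_sum_le_of_forall_le
    intro y _
    split_ifs
    · refine (natDegree_prod_le _ _).trans ?_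
      calc ∑ j ∈ Finset.range d, (∏ u ∈ (Finset.range (2 ^ s)).erase (dgt s y j),
            (C (x' j - (u : ℕ)) + X * C (z' j) + X ^ 2 * C (v' j)) *
              C ((((dgt s y j : ℕ) : ZMod p) - (u : ℕ))⁻¹)).natDegree
          ≤ ∑ _j ∈ Finset.range d, 2 * 2 ^ s := by
            apply Finset.sum_le_sum
            intro j _
            refine (natDegree_prod_le _ _).trans ?_
            calc ∑ u ∈ (Finset.range (2 ^ s)).erase (dgt s y j),
                ((C (x' j - (u : ℕ)) + X * C (z' j) + X ^ 2 * C (v' j)) *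
                  C ((((dgt s y j : ℕ) : ZMod p) - (u : ℕ))⁻¹)).natDegree
                ≤ ∑ _u ∈ (Finset.range (2 ^ s)).erase (dgt s y j), 2 := by
                  apply Finset.sum_le_sum
                  intro u _
                  refine (natDegree_mul_C_le _ _).trans ?_
                  refine (natDegree_add_le _ _).trans ?_
                  refine max_le ?_ ?_
                  · refine (natDegree_add_le _ _).trans ?_
                    rw [natDegree_C]
                    refine max_le (by norm_num) ?_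
                    exact ((natDegree_mul_C_le _ _).trans natDegree_X_le).trans (by norm_num)
                  · refine (natDegree_mul_C_le _ _).trans ?_
                    exact natDegree_X_pow_le 2
              _ = ((Finset.range (2 ^ s)).erase (dgt s y j)).card * 2 := by
                  rw [Finset.sum_const, smul_eq_mul]
              _ ≤ (Finset.range (2 ^ s)).card * 2 := Nat.mul_le_mul_right 2 Finset.card_erase_le
              _ = 2 * 2 ^ s := by rw [Finset.card_range]; ring
        _ = 2 * (d * 2 ^ s) := by rw [Finset.sum_const, Finset.card_range, smul_eq_mul]; ring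
    · simp
  · intro t
    rw [hext t]
    unfold ext
    rw [eval_finsetSum]
    apply Finset.sum_congr rfl
    intro y _
    by_cases hf : f y
    · rw [if_pos hf, if_pos hf, eval_prod]
      apply Finset.prod_congr rfl
      intro j _
      rw [eval_prod]
      apply Finset.prod_congr rfl
      intro u _
      simp only [eval_mul, eval_C, eval_add, eval_X, eval_pow]
      ring
    · rw [if_neg hf, if_neg hf, eval_zero]

open Classical in
theorem exV_msg {p : ℕ} [Fact p.Prime] {s : ℕ} (hs : 2 ^ s ≤ p) (d : ℕ) (f : ℕ → Prop) {y : ℕ}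
    (hy : y < 2 ^ (s * d)) :
    exV p s d f (fun j : Fin d => ((dgt s y j : ℕ) : ZMod p)) = if f y then 1 else 0 := by
  rw [← ext_point hs d f hy]
  unfold exV
  apply ext_congrV
  intro j hj
  rw [dif_pos hj]

end LSA
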