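import Pool.Agent.H85B.Near

/-!
# Average case and worst case, with queries to sparse sets
-/

set_option autoImplicit false

namespace LSC

open H85L LSP LSA

/-! ### The expansion -/

/-- the indicator of a proposition -/
noncomputable def ind (p : Prop) : ℤ := open Classical in if p then 1 else 0

theorem ind_pos {p : Prop} (h : p) : ind p = 1 := if_pos h

theorem ind_neg {p : Prop} (h : ¬ p) : ind p = 0 := if_neg h

theorem ind_and (p q : Prop) : ind (p ∧ q) = ind p * ind q := by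
  by_cases hp : p
  · by_cases hq : q
    · rw [ind_pos hp, ind_pos hq, ind_pos ⟨hp, hq⟩, one_mul]
    · rw [ind_neg hq, ind_neg fun h => hq h.2, mul_zero]
  · rw [ind_neg hp, ind_neg fun h => hp h.1, zero_mul]

/-- A sum with `K` queries to a set with `D` elements is bounded by `(1 + 2 * D) ^ K` times a sum in which the
answers are fixed. -/
theorem expand {W σ : Type} [Fintype W] (S : Finset σ) (K : ℕ) (g : Fin K → W → σ → Prop)
    (hg : ∀ j w, ∀ x ∈ S, ∀ y ∈ S, g j w x → g j w y → x = y) (F : W → (Fin K → Prop) → ℤ) :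
    ∃ (b : Fin K → Prop) (s : Fin K → Option σ), (∀ j x, s j = some x → x ∈ S) ∧
      (∀ j, b j → s j ≠ none) ∧
      |∑ w, F w (fun j => ∃ x ∈ S, g j w x)| ≤ (1 + 2 * (S.card : ℤ)) ^ K *
        |∑ w, F w b * ind (∀ j x, s j = some x → g j w x)| := by
  classical
  induction K with
  | zero =>
    refine ⟨fun j => j.elim0, fun j => j.elim0, fun j => j.elim0, fun j => j.elim0, ?_⟩
    simp only [pow_zero, one_mul]
    refine le_of_eq (congrArg _ (Finset.sum_congr rfl fun w _ => ?_))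
    rw [ind_pos fun j => j.elim0, mul_one]
    congr 1
    funext j
    exact j.elim0
  | succ K ih =>
    by_contra hcon
    push Not at hcon
    obtain ⟨T, hT⟩ : ∃ T, T = |∑ w, F w (fun j => ∃ x ∈ S, g j w x)| := ⟨_, rfl⟩
    rw [← hT] at hcon
    have hcard : (0 : ℤ) ≤ (S.card : ℤ) := Nat.cast_nonneg _
    -- the terms
    have h0 : |∑ w, F w (Fin.cons False fun j => ∃ x ∈ S, g j.succ w x)| *
        (1 + 2 * (S.card : ℤ)) < T := by
      obtain ⟨b, s, hs, hbs, h⟩ := ih (fun j w x => g j.succ w x)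
        (fun j w x hx y hy => hg j.succ w x hx y hy) (fun w b => F w (Fin.cons False b))
      have h2 := hcon (Fin.cons False b) (Fin.cons none s) (by
        intro j x
        refine Fin.cases ?_ (fun j => ?_) j
        · simp
        · simpa using hs j x) (by
        intro j
        refine Fin.cases ?_ (fun j => ?_) j
        · simp
        · simpa using hbs j)
      refine lt_of_le_of_lt ?_ h2
      have h3 : ∀ w, (∀ (j : Fin (K + 1)) x, (Fin.cons none s : Fin (K + 1) → Option σ) j = some x →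
          g j w x) ↔ ∀ j x, s j = some x → g j.succ w x := by
        intro w
        rw [Fin.forall_fin_succ]
        simp
      simp only [h3]
      calc _ ≤ (1 + 2 * (S.card : ℤ)) ^ K * |∑ w, F w (Fin.cons False b) *
            ind (∀ j x, s j = some x → g j.succ w x)| * (1 + 2 * (S.card : ℤ)) :=
            mul_le_mul_of_nonneg_right h (by positivity)
        _ = _ := by ring
    have h1 : ∀ c : Prop, ∀ x ∈ S, |∑ w, F w (Fin.cons c fun j => ∃ x ∈ S, g j.succ w x) *
        ind (g 0 w x)| * (1 + 2 * (S.card : ℤ)) < T := by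
      intro c x hx
      obtain ⟨b, s, hs, hbs, h⟩ := ih (fun j w x => g j.succ w x)
        (fun j w x hx y hy => hg j.succ w x hx y hy)
        (fun w b => F w (Fin.cons c b) * ind (g 0 w x))
      have h2 := hcon (Fin.cons c b) (Fin.cons (some x) s) (by
        intro j y
        refine Fin.cases ?_ (fun j => ?_) j
        · simp only [Fin.cons_zero, Option.some.injEq]
          intro h
          rw [← h]
          exact hx
        · simpa using hs j y) (by
        intro j
        refine Fin.cases ?_ (fun j => ?_) j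
        · simp
        · simpa using hbs j)
      refine lt_of_le_of_lt ?_ h2
      have h3 : ∀ w, (∀ (j : Fin (K + 1)) y, (Fin.cons (some x) s : Fin (K + 1) → Option σ) j = some y →
          g j w y) ↔ g 0 w x ∧ ∀ j x, s j = some x → g j.succ w x := by
        intro w
        rw [Fin.forall_fin_succ]
        simp
      simp only [h3]
      have h4 : ∀ w, F w (Fin.cons c b) * ind (g 0 w x ∧ ∀ j x, s j = some x → g j.succ w x) =
          F w (Fin.cons c b) * ind (g 0 w x) * ind (∀ j x, s j = some x → g j.succ w x) := by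
        intro w
        rw [ind_and, mul_assoc]
      simp only [h4]
      calc _ ≤ (1 + 2 * (S.card : ℤ)) ^ K * |∑ w, F w (Fin.cons c b) *
            ind (g 0 w x) * ind (∀ j x, s j = some x → g j.succ w x)| *
              (1 + 2 * (S.card : ℤ)) := mul_le_mul_of_nonneg_right h (by positivity)
        _ = _ := by ring
    -- the sum
    have h2 : ∀ w, F w (fun j => ∃ x ∈ S, g j w x) =
        F w (Fin.cons False fun j => ∃ x ∈ S, g j.succ w x) +
          ∑ x ∈ S, (F w (Fin.cons True fun j => ∃ x ∈ S, g j.succ w x) *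
              ind (g 0 w x) -
            F w (Fin.cons False fun j => ∃ x ∈ S, g j.succ w x) * ind (g 0 w x)) := by
      intro w
      have e0 : (fun j => ∃ x ∈ S, g j w x) =
          Fin.cons (∃ x ∈ S, g 0 w x) fun j : Fin K => ∃ x ∈ S, g j.succ w x := by
        funext j
        refine Fin.cases ?_ (fun j => ?_) j
        · rfl
        · rfl
      rw [e0]
      by_cases h5 : ∃ x ∈ S, g 0 w x
      · obtain ⟨x, hx, hgx⟩ := h5
        have e1 : (∃ x ∈ S, g 0 w x) = True := eq_true ⟨x, hx, hgx⟩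
        rw [e1, Finset.sum_eq_single_of_mem x hx]
        · rw [ind_pos hgx]
          ring
        · intro y hy hne
          rw [ind_neg fun hgy => hne (hg 0 w y hy x hx hgy hgx)]
          ring
      · have e1 : (∃ x ∈ S, g 0 w x) = False := eq_false h5
        rw [e1, Finset.sum_eq_zero]
        · ring
        · intro y hy
          rw [ind_neg fun hgy => h5 ⟨y, hy, hgy⟩]
          ring
    have h3 : T * (1 + 2 * (S.card : ℤ)) < T * (1 + 2 * (S.card : ℤ)) := by
      have e1 : T ≤ |∑ w, F w (Fin.cons False fun j => ∃ x ∈ S, g j.succ w x)| +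
          ∑ x ∈ S, (|∑ w, F w (Fin.cons True fun j => ∃ x ∈ S, g j.succ w x) *
              ind (g 0 w x)| +
            |∑ w, F w (Fin.cons False fun j => ∃ x ∈ S, g j.succ w x) *
              ind (g 0 w x)|) := by
        rw [hT]
        simp only [h2]
        rw [Finset.sum_add_distrib, Finset.sum_comm]
        refine (abs_add_le _ _).trans (add_le_add le_rfl ?_)
        refine (Finset.abs_sum_le_sum_abs _ _).trans (Finset.sum_le_sum fun x _ => ?_)
        rw [Finset.sum_sub_distrib]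
        exact abs_sub _ _
      calc T * (1 + 2 * (S.card : ℤ)) ≤ (|∑ w, F w (Fin.cons False fun j => ∃ x ∈ S, g j.succ w x)| +
          ∑ x ∈ S, (|∑ w, F w (Fin.cons True fun j => ∃ x ∈ S, g j.succ w x) *
              ind (g 0 w x)| +
            |∑ w, F w (Fin.cons False fun j => ∃ x ∈ S, g j.succ w x) *
              ind (g 0 w x)|)) * (1 + 2 * (S.card : ℤ)) :=
            mul_le_mul_of_nonneg_right e1 (by positivity)
        _ = |∑ w, F w (Fin.cons False fun j => ∃ x ∈ S, g j.succ w x)| * (1 + 2 * (S.card : ℤ)) +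
          ∑ x ∈ S, (|∑ w, F w (Fin.cons True fun j => ∃ x ∈ S, g j.succ w x) *
              ind (g 0 w x)| * (1 + 2 * (S.card : ℤ)) +
            |∑ w, F w (Fin.cons False fun j => ∃ x ∈ S, g j.succ w x) *
              ind (g 0 w x)| * (1 + 2 * (S.card : ℤ))) := by
          rw [add_mul, Finset.sum_mul]
          congr 1
          exact Finset.sum_congr rfl fun x _ => by rw [add_mul]
        _ < T + ∑ _x ∈ S, (T + T) := by
          refine add_lt_add_of_lt_of_le h0 (Finset.sum_le_sum fun x hx => ?_)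
          exact add_le_add (h1 True x hx).le (h1 False x hx).le
        _ = T * (1 + 2 * (S.card : ℤ)) := by
          rw [Finset.sum_const, nsmul_eq_mul]
          ring
    exact lt_irrefl _ h3

/-! ### Languages -/

/-- words whose letters have a property -/
theorem lin_letters {κ : Kind} {Δ : Type} [Finite Δ] (hκ : κ.det = true ∨ κ.time = false)
    (p : Δ → Prop) : LinClass κ {w : List Δ | ∀ x ∈ w, p x} := by
  rw [lin_iff hκ]
  have h1 := fn_look (C := KC κ) (Δ := Δ)
  have h2 : Pr (KC κ) (fun q : ℕ × ℕ => nmo ((dec q.1 : List Δ)[q.2]?) = nmo (none : Option Δ) ∨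
      ∃ x : {x : Δ // p x}, nmo ((dec q.1 : List Δ)[q.2]?) = nmo (some x.1)) :=
    Pr.or (by fun_prop) (Pr_finex fun x => by fun_prop)
  refine (Pr.all (n := fun X : ℕ => Nat.size X) (p := fun X i =>
    nmo ((dec X : List Δ)[i]?) = nmo (none : Option Δ) ∨
      ∃ x : {x : Δ // p x}, nmo ((dec X : List Δ)[i]?) = nmo (some x.1)) (by fun_prop) h2).congr
    fun X => ?_
  simp only [nmo_inj]
  constructor
  · intro h i _
    by_cases hi : i < (dec X : List Δ).length
    · right
      exact ⟨⟨(dec X : List Δ)[i], h _ (List.getElem_mem hi)⟩, List.getElem?_eq_getElem hi⟩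
    · left
      exact List.getElem?_eq_none (by omega)
  · intro h x hx
    obtain ⟨i, hi, rfl⟩ := List.getElem_of_mem hx
    rcases h i (hi.trans_le (dec_len X)) with h3 | ⟨y, h3⟩
    · rw [List.getElem?_eq_getElem hi] at h3
      exact absurd h3 (by simp)
    · rw [List.getElem?_eq_getElem hi, Option.some.injEq] at h3
      rw [h3]
      exact y.2

theorem lin_and {κ : Kind} {Δ : Type} [Finite Δ] (hκ : κ.det = true ∨ κ.time = false)
    {L L' : Set (List Δ)} (h : LinClass κ L) (h' : LinClass κ L') :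
    LinClass κ {w | w ∈ L ∧ w ∈ L'} :=
  (lin_iff hκ).mpr ((lin_pr hκ h).and (lin_pr hκ h'))

theorem lin_or {κ : Kind} {Δ : Type} [Finite Δ] (hκ : κ.det = true ∨ κ.time = false)
    {L L' : Set (List Δ)} (h : LinClass κ L) (h' : LinClass κ L') :
    LinClass κ {w | w ∈ L ∨ w ∈ L'} :=
  (lin_iff hκ).mpr ((lin_pr hκ h).or (lin_pr hκ h'))

theorem lin_not {κ : Kind} {Δ : Type} [Finite Δ] (hκ : κ.det = true ∨ κ.time = false)
    {L : Set (List Δ)} (h : LinClass κ L) : LinClass κ {w | w ∉ L} :=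
  (lin_iff hκ).mpr (lin_pr hκ h).not

theorem lin_const {κ : Kind} {Δ : Type} [Finite Δ] (hκ : κ.det = true ∨ κ.time = false)
    (p : Prop) : LinClass κ {_w : List Δ | p} :=
  (lin_iff hκ).mpr (Pr.const _)

theorem lin_ex {κ : Kind} {Δ : Type} [Finite Δ] {ι : Type} [Finite ι]
    (hκ : κ.det = true ∨ κ.time = false) {L : ι → Set (List Δ)} (h : ∀ i, LinClass κ (L i)) :
    LinClass κ {w | ∃ i, w ∈ L i} :=
  (lin_iff hκ).mpr (Pr_finex fun i => lin_pr hκ (h i))

theorem lin_all {κ : Kind} {Δ : Type} [Finite Δ] {ι : Type} [Finite ι]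
    (hκ : κ.det = true ∨ κ.time = false) {L : ι → Set (List Δ)} (h : ∀ i, LinClass κ (L i)) :
    LinClass κ {w | ∀ i, w ∈ L i} :=
  (lin_iff hκ).mpr (Pr_fin fun i => lin_pr hκ (h i))

/-! ### The theorem -/

/-- the word of the pairs -/
def pair {n k : ℕ} (w : Fin n → Bool) (s : Fin n → Fin k → Bool) : List (Bool × (Fin k → Bool)) :=
  List.ofFn fun i => (w i, s i)

/-- the sign of a proposition -/
noncomputable def sg (p : Prop) : ℤ := open Classical in if p then 1 else -1

theorem sum_sg {n : ℕ} (p : (Fin n → Bool) → Prop) :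
    ∑ w, sg (p w) = 2 * ({w | p w}.ncard : ℤ) - 2 ^ n := by
  classical
  have h1 := ncard_agree p
  have h2 : {w | p w}.ncard = ∑ w, if p w then 1 else 0 := by
    rw [Finset.sum_boole, Nat.cast_id, ← Set.ncard_coe_finset]
    congr 1
    ext w
    simp
  have h3 : ∀ w, sg (p w) = 2 * (if p w then 1 else 0 : ℤ) - 1 := by
    intro w
    unfold sg
    by_cases h : p w <;> simp [h]
  have h4 : (({w | p w}.ncard : ℕ) : ℤ) = ∑ w, (if p w then 1 else 0 : ℤ) := by
    rw [h2]
    push_cast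
    rfl
  simp only [h3]
  rw [Finset.sum_sub_distrib, ← Finset.mul_sum, ← h4]
  simp

/-- the sign after the choice of the signs `σ`, `τ` -/
theorem sum_choice {W : Type} [Fintype W] (l t E : W → Prop) : ∃ σ τ : Prop,
    |∑ w, sg (l w ↔ t w) * ind (E w)| ≤
      ∑ w, sg (l w ↔ ((E w ∧ (t w ↔ σ)) ∨ (¬ E w ∧ τ))) := by
  classical
  obtain ⟨A, hA⟩ : ∃ A : ℤ, A = ∑ w, sg (l w ↔ t w) * ind (E w) := ⟨_, rfl⟩
  obtain ⟨B, hB⟩ : ∃ B : ℤ, B = ∑ w, sg (l w) * (if E w then 0 else 1) := ⟨_, rfl⟩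
  refine ⟨0 ≤ A, 0 ≤ B, ?_⟩
  have h1 : ∀ w, sg (l w ↔ ((E w ∧ (t w ↔ 0 ≤ A)) ∨ (¬ E w ∧ 0 ≤ B))) =
      (if 0 ≤ A then 1 else -1) * (sg (l w ↔ t w) * ind (E w)) +
        (if 0 ≤ B then 1 else -1) * (sg (l w) * (if E w then 0 else 1)) := by
    intro w
    unfold sg ind
    by_cases e1 : E w <;> by_cases e2 : 0 ≤ A <;> by_cases e3 : 0 ≤ B <;>
      by_cases e4 : l w <;> by_cases e5 : t w <;> simp [e1, e2, e3, e4, e5]
  simp only [h1]
  rw [Finset.sum_add_distrib, ← Finset.mul_sum, ← Finset.mul_sum, ← hA, ← hB]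
  have h2 : (if 0 ≤ A then (1 : ℤ) else -1) * A = |A| := by
    split_ifs with h
    · rw [one_mul, abs_of_nonneg h]
    · rw [abs_of_neg (by omega)]
      ring
  have h3 : (if 0 ≤ B then (1 : ℤ) else -1) * B = |B| := by
    split_ifs with h
    · rw [one_mul, abs_of_nonneg h]
    · rw [abs_of_neg (by omega)]
      ring
  rw [h2, h3]
  have := abs_nonneg B
  omega

/-- finite alphabets in binary -/
theorem exists_code (T : Type) [Finite T] [Nonempty T] :
    ∃ (k : ℕ) (e : T → (Fin k → Bool)) (r : (Fin k → Bool) → T), ∀ t, r (e t) = t := by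
  classical
  refine ⟨Nat.card T, fun t i => decide (i = Finite.equivFin T t), ?_⟩
  obtain ⟨r, hr⟩ := Function.Injective.hasLeftInverse (f := fun (t : T) (i : Fin (Nat.card T)) =>
    decide (i = Finite.equivFin T t)) (fun t t' h => by
      have h1 := congrFun h (Finite.equivFin T t)
      simp only [decide_true] at h1
      have h2 := of_decide_eq_true h1.symm
      exact (Finite.equivFin T).injective h2)
  exact ⟨r, hr⟩

/-- the letters of the advice: the advice, `K` words of the sparse set, and a finite description -/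
abbrev Tk (k K : ℕ) : Type :=
  (Fin k → Bool) × (Fin K → Fin k → Bool) × Set (Fin K) × (Fin K → Bool) × Prop × Prop

/-- the language with the advice -/
def spl {k K : ℕ} (G : Fin K → Set (List (Bool × (Fin k → Bool))))
    (T : Set (Fin K) → Set (List (Bool × (Fin k → Bool)))) : Set (List (Bool × Tk k K)) :=
  {u | ∃ d : Set (Fin K) × (Fin K → Bool) × Prop × Prop, (∀ x ∈ u, x.2.2.2 = d) ∧
    (((∀ j, d.2.1 j = true → u.map (fun x => (x.1, x.2.2.1 j)) ∈ G j) ∧
        (u.map (fun x => (x.1, x.2.1)) ∈ T d.1 ↔ d.2.2.1)) ∨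
      (¬ (∀ j, d.2.1 j = true → u.map (fun x => (x.1, x.2.2.1 j)) ∈ G j) ∧ d.2.2.2))}

theorem lin_spl {κ : Kind} (hκ : κ.det = true ∨ κ.time = false) {k K : ℕ}
    {G : Fin K → Set (List (Bool × (Fin k → Bool)))}
    {T : Set (Fin K) → Set (List (Bool × (Fin k → Bool)))} (hG : ∀ j, LinClass κ (G j))
    (hT : ∀ b, LinClass κ (T b)) : LinClass κ (spl G T) := by
  rw [lin_iff hκ]
  refine Pr_finex fun d => Pr.and (lin_pr hκ (lin_letters hκ fun x : Bool × Tk k K => x.2.2.2 = d)) ?_
  have h1 : Pr (KC κ) (fun X : ℕ => ∀ j, d.2.1 j = true →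
      (dec X : List (Bool × Tk k K)).map (fun x => (x.1, x.2.2.1 j)) ∈ G j) :=
    Pr_fin fun j => Pr.imp (Pr.const _) (lin_pr hκ (lin_map _ (hG j)))
  have h2 : Pr (KC κ) (fun X : ℕ =>
      (dec X : List (Bool × Tk k K)).map (fun x => (x.1, x.2.1)) ∈ T d.1) :=
    lin_pr hκ (lin_map _ (hT d.1))
  exact Pr.or (Pr.and h1 (Pr.iff h2 (Pr.const _))) (Pr.and (Pr.not h1) (Pr.const _))

/-- the growth of the exponents -/
theorem exp_growth {η : ℝ} (h0 : 0 < η) (h1 : η < 1) (K : ℕ) : ∃ N : ℕ, ∀ n ≥ N,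
    (n : ℝ) ^ (1 - η) + K * (2 + (n : ℝ) ^ (1 - η)) ≤ (n : ℝ) ^ (1 - η / 2) := by
  have ht : Filter.Tendsto (fun n : ℕ => (n : ℝ) ^ (η / 2)) Filter.atTop Filter.atTop :=
    (tendsto_rpow_atTop (by positivity)).comp tendsto_natCast_atTop_atTop
  obtain ⟨N, hN⟩ := Filter.eventually_atTop.mp
    (ht.eventually (Filter.eventually_ge_atTop (1 + 3 * (K : ℝ))))
  refine ⟨max N 1, fun n hn => ?_⟩
  have e1 := hN n ((le_max_left _ _).trans hn)
  have e2 : (1 : ℝ) ≤ n := by exact_mod_cast (le_max_right _ _).trans hn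
  have e3 : (1 : ℝ) ≤ (n : ℝ) ^ (1 - η) := Real.one_le_rpow e2 (by linarith)
  have e4 : (n : ℝ) ^ (1 - η / 2) = (n : ℝ) ^ (1 - η) * (n : ℝ) ^ (η / 2) := by
    rw [← Real.rpow_add (by linarith)]
    congr 1
    ring
  rw [e4]
  have e5 : (0 : ℝ) ≤ K := Nat.cast_nonneg _
  have e6 : (n : ℝ) ^ (1 - η) * (1 + 3 * (K : ℝ)) ≤ (n : ℝ) ^ (1 - η) * (n : ℝ) ^ (η / 2) :=
    mul_le_mul_of_nonneg_left e1 (by linarith)
  nlinarith

theorem real_step {K D n a a' : ℕ} {X : ℤ} {m m' : ℝ} (hmm : m + K * (2 + m) ≤ m')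
    (hm0 : 0 ≤ m) (hS : (D : ℝ) ≤ 2 ^ m) (hagr : (1 / 2 + (2 : ℝ) ^ (-m)) * 2 ^ n ≤ a)
    (h1 : 2 * (a : ℤ) - 2 ^ n ≤ (1 + 2 * (D : ℤ)) ^ K * X) (hX : 0 ≤ X)
    (h2 : X ≤ 2 * (a' : ℤ) - 2 ^ n) : (1 / 2 + (2 : ℝ) ^ (-m')) * 2 ^ n ≤ a' := by
  have f1 : 2 * (2 : ℝ) ^ (-m) * 2 ^ n ≤ 2 * (a : ℝ) - 2 ^ n := by linarith
  have f2 : 2 * (a : ℝ) - 2 ^ n ≤ (1 + 2 * (D : ℝ)) ^ K * X := by exact_mod_cast h1
  have f3 : (X : ℝ) ≤ 2 * (a' : ℝ) - 2 ^ n := by exact_mod_cast h2
  have f4 : (1 + 2 * (D : ℝ)) ≤ (2 : ℝ) ^ (2 + m) := by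
    have g1 : (1 : ℝ) ≤ 2 ^ m := Real.one_le_rpow (by norm_num) hm0
    rw [Real.rpow_add (by norm_num)]
    have g2 : (2 : ℝ) ^ (2 : ℝ) = 4 := by norm_num
    rw [g2]
    linarith
  have f5 : (1 + 2 * (D : ℝ)) ^ K ≤ (2 : ℝ) ^ (K * (2 + m)) := by
    calc (1 + 2 * (D : ℝ)) ^ K ≤ ((2 : ℝ) ^ (2 + m)) ^ K :=
          pow_le_pow_left₀ (by positivity) f4 K
      _ = (2 : ℝ) ^ (K * (2 + m)) := by
        rw [← Real.rpow_natCast, ← Real.rpow_mul (by norm_num), mul_comm (2 + m)]
  have f6 : (2 : ℝ) ^ (-m') * (2 : ℝ) ^ (K * (2 + m)) ≤ (2 : ℝ) ^ (-m) := by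
    rw [← Real.rpow_add (by norm_num)]
    exact Real.rpow_le_rpow_of_exponent_le (by norm_num) (by linarith)
  have f7 : (0 : ℝ) ≤ X := by exact_mod_cast hX
  have f8 : (0 : ℝ) < 2 ^ n := by positivity
  have f9 : (0 : ℝ) < (2 : ℝ) ^ (K * (2 + m)) := by positivity
  have f10 : 2 * (2 : ℝ) ^ (-m') * 2 ^ n ≤ X := by
    have g1 : (2 : ℝ) ^ (K * (2 + m)) * (2 * (2 : ℝ) ^ (-m') * 2 ^ n) ≤
        (2 : ℝ) ^ (K * (2 + m)) * X := by
      calc (2 : ℝ) ^ (K * (2 + m)) * (2 * (2 : ℝ) ^ (-m') * 2 ^ n)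
          = 2 * ((2 : ℝ) ^ (-m') * (2 : ℝ) ^ (K * (2 + m))) * 2 ^ n := by ring
        _ ≤ 2 * (2 : ℝ) ^ (-m) * 2 ^ n :=
          mul_le_mul_of_nonneg_right (mul_le_mul_of_nonneg_left f6 (by norm_num)) f8.le
        _ ≤ (1 + 2 * (D : ℝ)) ^ K * X := f1.trans f2
        _ ≤ (2 : ℝ) ^ (K * (2 + m)) * X := mul_le_mul_of_nonneg_right f5 f7
    exact le_of_mul_le_mul_left g1 f9
  linarith

/-- The theorem for the agreement `1 / 2 + 2 ^ (- n ^ (1 - η))`, with a bounded truth table reduction to a set with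
at most `2 ^ n ^ (1 - η)` words and with linear advice. -/
theorem incl_iff_sparse {κ₁ κ₂ : Kind} (h₁ : κ₁.det = true ∨ κ₁.time = false)
    (h₂ : κ₂.det = true ∨ κ₂.time = false) {η : ℝ} (h0 : 0 < η) (h1 : η < 1) :
    LinIncl κ₂ κ₁ ↔ ∀ L : Set (List Bool), LinClass κ₂ L →
      ∃ (k K n0 : ℕ) (adv : ∀ n, Fin n → Fin k → Bool) (S : ∀ n, Set (Fin n → Fin k → Bool))
        (G : Fin K → Set (List (Bool × (Fin k → Bool))))
        (T : Set (Fin K) → Set (List (Bool × (Fin k → Bool)))),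
        (∀ j, LinClass κ₁ (G j)) ∧ (∀ b, LinClass κ₁ (T b)) ∧ ∀ n ≥ n0,
          ((S n).ncard : ℝ) ≤ 2 ^ ((n : ℝ) ^ (1 - η)) ∧
          (∀ w j, ∀ s ∈ S n, ∀ s' ∈ S n, pair w s ∈ G j → pair w s' ∈ G j → s = s') ∧
          (1 / 2 + (2 : ℝ) ^ (-(n : ℝ) ^ (1 - η))) * 2 ^ n ≤ ({w : Fin n → Bool |
            List.ofFn w ∈ L ↔
              pair w (adv n) ∈ T {j | ∃ s ∈ S n, pair w s ∈ G j}}.ncard : ℝ) := by
  classical
  constructor
  · intro h L hL
    obtain ⟨k, L', adv, n0, hL', hg⟩ := (incl_iff_near h₁ h₂ h0 h1).mp h L hL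
    refine ⟨k, 0, n0, adv, fun _ => ∅, fun j => j.elim0, fun _ => L', fun j => j.elim0,
      fun _ => hL', fun n hn => ⟨?_, fun w j => j.elim0, hg n hn⟩⟩
    rw [Set.ncard_empty, Nat.cast_zero]
    positivity
  · intro h
    rw [incl_iff_near h₁ h₂ (η := η / 2) (by positivity) (by linarith)]
    intro L hL
    obtain ⟨k, K, n0, adv, S, G, T, hG, hT, hn0⟩ := h L hL
    obtain ⟨k', e, r, her⟩ := exists_code (Tk k K)
    obtain ⟨N, hN⟩ := exp_growth h0 h1 K
    have key : ∀ n ≥ max (max n0 1) N, ∃ a : Fin n → Fin k' → Bool,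
        (1 / 2 + (2 : ℝ) ^ (-(n : ℝ) ^ (1 - η / 2))) * 2 ^ n ≤ ({w : Fin n → Bool |
          List.ofFn w ∈ L ↔ (List.ofFn fun i => (w i, a i)) ∈
            {u : List (Bool × (Fin k' → Bool)) | u.map (fun x => (x.1, r x.2)) ∈ spl G T}}.ncard :
              ℝ) := by
      intro n hn
      have hnN : N ≤ n := (le_max_right _ _).trans hn
      have hn0' : n0 ≤ n := (le_max_left _ _).trans ((le_max_left _ _).trans hn)
      have hn1 : 1 ≤ n := (le_max_right _ _).trans ((le_max_left _ _).trans hn)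
      obtain ⟨hS, huniq, hagr⟩ := hn0 n hn0'
      obtain ⟨b', s, hs, -, hexp⟩ := expand (S n).toFinset K (fun j w x => pair w x ∈ G j)
        (fun j w x hx y hy h3 h4 => huniq w j x (Set.mem_toFinset.mp hx) y
          (Set.mem_toFinset.mp hy) h3 h4)
        (fun w b => sg (List.ofFn w ∈ L ↔ pair w (adv n) ∈ T {j | b j}))
      obtain ⟨b, hb⟩ : ∃ b : Set (Fin K), b = {j | b' j} := ⟨_, rfl⟩
      rw [← hb] at hexp
      obtain ⟨σ, τ, hστ⟩ := sum_choice (fun w : Fin n → Bool => List.ofFn w ∈ L)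
        (fun w => pair w (adv n) ∈ T b) (fun w => ∀ j x, s j = some x → pair w x ∈ G j)
      refine ⟨fun i => e (adv n i, fun j => ((s j).getD fun _ _ => false) i, b,
        fun j => (s j).isSome, σ, τ), ?_⟩
      have hev : ∀ w : Fin n → Bool, (∀ j, (s j).isSome = true →
          pair w ((s j).getD fun _ _ => false) ∈ G j) ↔ ∀ j x, s j = some x → pair w x ∈ G j := by
        intro w
        refine forall_congr' fun j => ?_
        cases hsj : s j with
        | none => simp
        | some x => simp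
      have hmem : ∀ w : Fin n → Bool, (List.ofFn fun i => (w i, e (adv n i,
          fun j => ((s j).getD fun _ _ => false) i, b, fun j => (s j).isSome, σ, τ))) ∈
            {u : List (Bool × (Fin k' → Bool)) | u.map (fun x => (x.1, r x.2)) ∈ spl G T} ↔
          (((∀ j x, s j = some x → pair w x ∈ G j) ∧ (pair w (adv n) ∈ T b ↔ σ)) ∨
            (¬ (∀ j x, s j = some x → pair w x ∈ G j) ∧ τ)) := by
        intro w
        have e1 : (List.ofFn fun i => (w i, e (adv n i,
            fun j => ((s j).getD fun _ _ => false) i, b, fun j => (s j).isSome, σ, τ))).map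
              (fun x => (x.1, r x.2)) = List.ofFn fun i => (w i, ((adv n i,
            fun j => ((s j).getD fun _ _ => false) i, b, fun j => (s j).isSome, σ, τ) :
              Tk k K)) := by
          rw [List.map_ofFn]
          congr 1
          funext i
          simp only [Function.comp, her]
        show List.map _ _ ∈ spl G T ↔ _
        rw [e1]
        show (∃ d : Set (Fin K) × (Fin K → Bool) × Prop × Prop, _) ↔ _
        simp only [List.map_ofFn]
        constructor
        · rintro ⟨d, hd, h3⟩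
          have e2 : (b, (fun j => (s j).isSome), σ, τ) = d := by
            refine hd (w ⟨0, hn1⟩, (adv n ⟨0, hn1⟩,
              fun j => ((s j).getD fun _ _ => false) ⟨0, hn1⟩, b, fun j => (s j).isSome, σ, τ)) ?_
            rw [List.mem_ofFn]
            exact ⟨⟨0, hn1⟩, rfl⟩
          rw [← e2] at h3
          rw [← hev w]
          exact h3
        · intro h3
          refine ⟨(b, (fun j => (s j).isSome), σ, τ), ?_, ?_⟩
          · intro x hx
            rw [List.mem_ofFn] at hx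
            obtain ⟨i, rfl⟩ := hx
            rfl
          · rw [← hev w] at h3
            exact h3
      -- the number of the words
      obtain ⟨a, ha⟩ : ∃ a : ℕ, a = {w : Fin n → Bool | List.ofFn w ∈ L ↔
          pair w (adv n) ∈ T {j | ∃ s ∈ S n, pair w s ∈ G j}}.ncard := ⟨_, rfl⟩
      obtain ⟨a', ha'⟩ : ∃ a' : ℕ, a' = {w : Fin n → Bool | List.ofFn w ∈ L ↔
          (((∀ j x, s j = some x → pair w x ∈ G j) ∧ (pair w (adv n) ∈ T b ↔ σ)) ∨
            (¬ (∀ j x, s j = some x → pair w x ∈ G j) ∧ τ))}.ncard := ⟨_, rfl⟩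
      have ha2 : {w : Fin n → Bool | List.ofFn w ∈ L ↔ (List.ofFn fun i => (w i, e (adv n i,
          fun j => ((s j).getD fun _ _ => false) i, b, fun j => (s j).isSome, σ, τ))) ∈
            {u : List (Bool × (Fin k' → Bool)) | u.map (fun x => (x.1, r x.2)) ∈ spl G T}}.ncard =
          a' := by
        rw [ha']
        congr 1
        ext w
        exact iff_congr Iff.rfl (hmem w)
      rw [ha2]
      rw [sum_sg] at hστ
      rw [← ha'] at hστ
      have hset : ∀ w : Fin n → Bool, {j | ∃ x ∈ (S n).toFinset, pair w x ∈ G j} =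
          {j | ∃ s ∈ S n, pair w s ∈ G j} := by
        intro w
        simp only [Set.mem_toFinset]
      simp only [hset] at hexp
      rw [sum_sg, ← ha] at hexp
      rw [← ha] at hagr
      obtain ⟨D, hD⟩ : ∃ D : ℕ, D = (S n).ncard := ⟨_, rfl⟩
      have hD2 : (S n).toFinset.card = D := by
        rw [hD, Set.ncard_eq_toFinset_card']
      rw [hD2] at hexp
      rw [← hD] at hS
      obtain ⟨X, hX⟩ : ∃ X : ℤ, X = |∑ w : Fin n → Bool, sg (List.ofFn w ∈ L ↔ pair w (adv n) ∈ T b) *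
        ind (∀ j x, s j = some x → pair w x ∈ G j)| := ⟨_, rfl⟩
      rw [← hX] at hexp hστ
      have hX0 : 0 ≤ X := by
        rw [hX]
        exact abs_nonneg _
      exact real_step (hN n hnN) (by positivity) hS hagr ((le_abs_self _).trans hexp) hX0 hστ
    have key2 : ∀ n, ∃ a : Fin n → Fin k' → Bool, n ≥ max (max n0 1) N →
        (1 / 2 + (2 : ℝ) ^ (-(n : ℝ) ^ (1 - η / 2))) * 2 ^ n ≤ ({w : Fin n → Bool |
          List.ofFn w ∈ L ↔ (List.ofFn fun i => (w i, a i)) ∈
            {u : List (Bool × (Fin k' → Bool)) | u.map (fun x => (x.1, r x.2)) ∈ spl G T}}.ncard :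
              ℝ) := by
      intro n
      by_cases hn : n ≥ max (max n0 1) N
      · obtain ⟨a, ha⟩ := key n hn
        exact ⟨a, fun _ => ha⟩
      · exact ⟨fun _ _ => false, fun h3 => absurd h3 hn⟩
    choose a ha using key2
    have hlin : LinClass κ₁ {u : List (Bool × (Fin k' → Bool)) |
        u.map (fun x => (x.1, r x.2)) ∈ spl G T} := by
      have h3 := lin_spl h₁ hG hT
      exact lin_map (fun x : Bool × (Fin k' → Bool) => (x.1, r x.2)) h3
    refine ⟨k', {u : List (Bool × (Fin k' → Bool)) |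
        u.map (fun x => (x.1, r x.2)) ∈ spl G T}, a, max (max n0 1) N, hlin, ?_⟩
    intro n hn
    exact ha n hn

end LSC
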