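import Pool.Agent.H85B.Poly

/-!
# H85B/TPoly: the polynomials of a table

Module `H85B/TPoly`.

* `teval_poly`: `g = ∑ t < 2 ^ w', C (tval q β w' B t) * ∏ v ∈ (range (2 ^ w')).erase t,
  (X - C v) * C ((t - v)⁻¹)`; every product has degree at most `2 ^ w' - 1`; `cast_del` (`H69A/Inv`).
  At `t < 2 ^ w' ≤ q` only one term is not `0`.
* `tval_tup`: the value `c = lq q d w f (lp q d z v t) < q < 2 ^ β` is the sum of its bits (`LSC.bits_sum` with
  `bt c k * 2 ^ k`), and for `t < 2 ^ w'`, `k < β` the index `i = t + 2 ^ w' * k < 2 ^ w' * β` has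
  `i % 2 ^ w' = t`, `i / 2 ^ w' = k`.
* `teval_tup`: the polynomial of `teval_poly` and the polynomial of `exV_line` (degree at most `d * 2 ^ w <
  2 ^ w'`) agree at the `2 ^ w'` points `t < 2 ^ w'` (`tval_tup`, `cast_lqV`, `pt_lp`), so they are equal
  (`Polynomial.eq_of_natDegree_lt_card_of_eval_eq'` or similar); both sides are smaller than `q`.
-/

set_option autoImplicit false

namespace LSA

open LSC Polynomial

private theorem tp_inj {q N : ℕ} (h : N ≤ q) {a b : ℕ} (ha : a < N) (hb : b < N)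
    (he : ((a : ℕ) : ZMod q) = ((b : ℕ) : ZMod q)) : a = b := by
  rw [ZMod.natCast_eq_natCast_iff', Nat.mod_eq_of_lt (lt_of_lt_of_le ha h),
    Nat.mod_eq_of_lt (lt_of_lt_of_le hb h)] at he
  exact he

theorem teval_poly {q : ℕ} [Fact q.Prime] {w' : ℕ} (h : 2 ^ w' ≤ q) (β : ℕ) (B : ℕ → Prop) :
    ∃ g : (ZMod q)[X], g.natDegree < 2 ^ w' ∧
      (∀ τ : ℕ, g.eval (τ : ZMod q) = ((teval q β w' B τ : ℕ) : ZMod q)) ∧
      ∀ t : ℕ, t < 2 ^ w' → g.eval (t : ZMod q) = ((tval q β w' B t : ℕ) : ZMod q) := by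
  classical
  have hN : 0 < 2 ^ w' := by positivity
  refine ⟨∑ t ∈ Finset.range (2 ^ w'), C ((tval q β w' B t : ℕ) : ZMod q) *
    ∏ v ∈ (Finset.range (2 ^ w')).erase t, (X - C ((v : ℕ) : ZMod q)) *
      C ((((t : ℕ) : ZMod q) - ((v : ℕ) : ZMod q))⁻¹), ?_, ?_, ?_⟩
  · refine lt_of_le_of_lt (b := 2 ^ w' - 1) ?_ (by omega)
    apply natDegree_sum_le_of_forall_le
    intro t ht
    refine (natDegree_C_mul_le _ _).trans ?_
    refine (natDegree_prod_le _ _).trans ?_
    calc ∑ v ∈ (Finset.range (2 ^ w')).erase t, ((X - C ((v : ℕ) : ZMod q)) *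
          C ((((t : ℕ) : ZMod q) - ((v : ℕ) : ZMod q))⁻¹)).natDegree
        ≤ ∑ _v ∈ (Finset.range (2 ^ w')).erase t, 1 := by
          apply Finset.sum_le_sum
          intro v _
          refine (natDegree_mul_C_le _ _).trans ?_
          exact natDegree_X_sub_C_le _
      _ = 2 ^ w' - 1 := by
          rw [Finset.sum_const, Finset.card_erase_of_mem ht, Finset.card_range, smul_eq_mul,
            mul_one]
  · intro τ
    unfold teval
    rw [ZMod.natCast_mod, Nat.cast_sum, eval_finsetSum]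
    refine Finset.sum_congr rfl fun t ht => ?_
    rw [Finset.mem_range] at ht
    rw [Nat.cast_mul, cast_del h ht, eval_mul, eval_C, eval_prod, mul_comm]
    congr 1
    refine Finset.prod_congr rfl fun v _ => ?_
    rw [eval_mul, eval_C, eval_sub, eval_X, eval_C]
  · intro t ht
    rw [eval_finsetSum, Finset.sum_eq_single t]
    · rw [eval_mul, eval_C, eval_prod, Finset.prod_eq_one, mul_one]
      intro v hv
      rw [Finset.mem_erase, Finset.mem_range] at hv
      rw [eval_mul, eval_C, eval_sub, eval_X, eval_C]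
      refine mul_inv_cancel₀ ?_
      rw [sub_ne_zero]
      intro he
      exact hv.1 (tp_inj h ht hv.2 he).symm
    · intro t' ht' hne
      rw [eval_mul, eval_prod, Finset.prod_eq_zero (i := t), mul_zero]
      · rw [Finset.mem_erase, Finset.mem_range]
        exact ⟨fun h' => hne h'.symm, ht⟩
      · rw [eval_mul, eval_sub, eval_X, eval_C, sub_self, zero_mul]
    · intro h'
      exact absurd (Finset.mem_range.mpr ht) h'

theorem teval_lt {q : ℕ} (hq : 0 < q) (β w' : ℕ) (B : ℕ → Prop) (τ : ℕ) : teval q β w' B τ < q :=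
  Nat.mod_lt _ hq

theorem tval_tup {q d w w' β : ℕ} (hβ : q < 2 ^ β) (hq : 0 < q) (f : ℕ → Prop) (z v : ℕ)
    (B : ℕ → Prop) (hB : ∀ i < 2 ^ w' * β, (B i ↔ tup q d w w' f z v i)) {t : ℕ}
    (ht : t < 2 ^ w') : tval q β w' B t = lq q d w f (lp q d z v t) := by
  classical
  have hlt := lq_lt hq d w f (lp q d z v t)
  have hN : 0 < 2 ^ w' := by positivity
  have h1 : ∑ k ∈ Finset.range β, (if B (t + 2 ^ w' * k) then 2 ^ k else 0) =
      lq q d w f (lp q d z v t) := by
    rw [← bits_sum (lq q d w f (lp q d z v t)) β (hlt.trans hβ)]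
    refine Finset.sum_congr rfl fun k hk => ?_
    rw [Finset.mem_range] at hk
    have hi : t + 2 ^ w' * k < 2 ^ w' * β := by
      have h2 : 2 ^ w' * (k + 1) ≤ 2 ^ w' * β := Nat.mul_le_mul_left _ hk
      rw [Nat.mul_add, Nat.mul_one] at h2
      omega
    have h3 : (t + 2 ^ w' * k) % 2 ^ w' = t := by
      rw [Nat.add_mul_mod_self_left, Nat.mod_eq_of_lt ht]
    have h4 : (t + 2 ^ w' * k) / 2 ^ w' = k := by
      rw [Nat.add_mul_div_left _ _ hN, Nat.div_eq_of_lt ht, zero_add]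
    have h5 := hB _ hi
    unfold tup at h5
    rw [h3, h4] at h5
    have h6 := bt_le (lq q d w f (lp q d z v t)) k
    by_cases h7 : bt (lq q d w f (lp q d z v t)) k = 1
    · rw [if_pos (h5.mpr h7), h7, one_mul]
    · rw [if_neg (fun h' => h7 (h5.mp h'))]
      have h8 : bt (lq q d w f (lp q d z v t)) k = 0 := by omega
      rw [h8, zero_mul]
  unfold tval
  rw [h1, Nat.mod_eq_of_lt hlt]

theorem teval_tup {q d w w' β : ℕ} (hqp : q.Prime) (hβ : q < 2 ^ β) (hw' : 2 ^ w' ≤ q)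
    (hw : 2 ^ w ≤ q) (hd : d * 2 ^ w < 2 ^ w') (f : ℕ → Prop) (z v : ℕ) (B : ℕ → Prop)
    (hB : ∀ i < 2 ^ w' * β, (B i ↔ tup q d w w' f z v i)) (τ : ℕ) :
    teval q β w' B τ = lq q d w f (lp q d z v τ) := by
  classical
  have : Fact q.Prime := ⟨hqp⟩
  have hq := hqp.pos
  obtain ⟨g1, hg1, he1, ht1⟩ := teval_poly hw' β B
  obtain ⟨g2, hg2, he2⟩ := exV_line w d f (pt q d z) (pt q d v)
  have key : ∀ t : ℕ, ((lq q d w f (lp q d z v t) : ℕ) : ZMod q) = g2.eval (t : ZMod q) := by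
    intro t
    rw [he2, cast_lqV hw, pt_lp hq]
  have hg : g1 = g2 := by
    refine eq_of_natDegree_lt_card_of_eval_eq' g1 g2
      ((Finset.range (2 ^ w')).image fun t : ℕ => ((t : ℕ) : ZMod q)) ?_ ?_
    · intro x hx
      rw [Finset.mem_image] at hx
      obtain ⟨t, ht, rfl⟩ := hx
      rw [Finset.mem_range] at ht
      rw [ht1 t ht, tval_tup hβ hq f z v B hB ht, key]
    · rw [Finset.card_image_of_injOn, Finset.card_range]
      · exact max_lt hg1 (lt_of_le_of_lt hg2 hd)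
      · intro a ha b hb hab
        rw [Finset.mem_coe, Finset.mem_range] at ha hb
        exact tp_inj hw' ha hb hab
  have h1 : ((teval q β w' B τ : ℕ) : ZMod q) = ((lq q d w f (lp q d z v τ) : ℕ) : ZMod q) := by
    rw [← he1, key, hg]
  rw [ZMod.natCast_eq_natCast_iff', Nat.mod_eq_of_lt (teval_lt hq β w' B τ),
    Nat.mod_eq_of_lt (lq_lt hq d w f _)] at h1
  exact h1

end LSA
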