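import Pool.Agent.H85B.TPoly
import Pool.Agent.H85B.Part1
import Pool.Agent.H85B.Part2
import Pool.Agent.H85B.Itp

/-!
# H85B/Tab: decoding from a table which is correct for a fraction `2 ^ (- κ)` of the lines

Module `H85B/Tab`. The points of `F_q ^ d` are numbers below `q ^ d`; `pt`, `pt_inj`, `pt_surj`, `pt_lp`, `card_pt`,
`card_pt2` are in `H69B/Pts` (`F = ZMod q`, `V = Fin d → ZMod q`).

* `pt_ldir`, `pt_lbas`: `pt_lp` and the digits (`dg_dpsum`); for `τ₀ ≠ τ₁` below `q` the number `τ₁ + (q - τ₀)` is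
  not divisible by `q` and its cast is `τ₁ - τ₀` (`cast_inv`).
* `pt_cpt`: as `pt_ls` in `H69B/Pts`.
* `cdec_iff`: if the right points (`D x` and `g x = lq x`) are at least a fraction `2 ^ (-κ-1)` and the wrong ones
  (`D x` and `g x ≠ lq x`) at most a fraction `2 ^ (κ + 3) * 2 ^ w' / q`, then `cdec` gives the message: `part2` with
  `S` = the casts of `t + 1`, `t < m = 2 ^ (κ + w' + 6) < q`, `x = fun j => dgt w y j`. For at least `3 / 4` of the
  pairs `(z, v)` all defined points on the curve are right and there are at least `2 ^ (w' + 4) > 2 * (d * 2 ^ w)` of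
  them, so `itp` is the value of the extension at `x` (`itp_eq`, `exV_curve`), that is `1` if `f y` and `0`
  if not (`exV_msg`).
* `table_ok`: `part1` with `T z v` = the polynomial of `teval_poly` for `B z' v'`, `z = pt z'`, `v = pt v'`
  (`pt_surj`, `Function.surjInv` or the inverse of `pt`), `D = 2 ^ w' - 1` (`1 ≤ D` because
  `d * 2 ^ w < 2 ^ w'` and `1 ≤ d`). A line with the correct bits has the correct polynomial (`teval_tup`).
  The triples `(x₀, τ₀, τ₁)` are the numbers `r = x₀ + q ^ d * (τ₀ + q * τ₁) < q ^ d * q * q`. For a triple as in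
  `part1` use `cdec_iff` (for `D = gdef ...`, `g = gval ...`, `v₀ = lq q d w f x₀`).
-/

set_option autoImplicit false

namespace LSA

open LSC Polynomial

/-- the number of the elements with a property -/
noncomputable def cnt {α : Type} [Fintype α] (p : α → Prop) : ℕ := by
  classical
  exact (Finset.univ.filter p).card

theorem cnt_eq {α : Type} [Fintype α] (p : α → Prop) [DecidablePred p] :
    (Finset.univ.filter p).card = cnt p := by
  unfold cnt
  congr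

theorem cnt_mono {α : Type} [Fintype α] {p p' : α → Prop} (h : ∀ a, p a → p' a) :
    cnt p ≤ cnt p' := by
  classical
  unfold cnt
  refine Finset.card_le_card fun y hy => ?_
  rw [Finset.mem_filter] at hy ⊢
  exact ⟨hy.1, h _ hy.2⟩

theorem cnt_le_card {α : Type} [Fintype α] {p : α → Prop} {s : Finset ℕ} (F : α → ℕ)
    (h1 : ∀ a, p a → F a ∈ s) (h2 : ∀ a b, p a → p b → F a = F b → a = b) : cnt p ≤ s.card := by
  classical
  unfold cnt
  refine Finset.card_le_card_of_injOn F ?_ ?_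
  · intro a ha
    rw [Finset.mem_coe, Finset.mem_filter] at ha
    exact h1 a ha.2
  · intro a ha b hb h
    rw [Finset.mem_coe, Finset.mem_filter] at ha hb
    exact h2 a b ha.2 hb.2 h

theorem part1' {F V : Type} [Field F] [Fintype F] [AddCommGroup V] [Module F V] [Fintype V]
    (P : V → F) (T : V → V → F[X]) {D : ℕ} (hD : 1 ≤ D) (hT : ∀ z v, (T z v).natDegree ≤ D)
    (hP : ∀ z v : V, ∃ g : F[X], g.natDegree ≤ D ∧ ∀ t : F, g.eval t = P (z + t • v)) (κ : ℕ)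
    (h : Fintype.card V * Fintype.card V ≤ 2 ^ κ * cnt fun x : V × V =>
      ∀ t : F, (T x.1 x.2).eval t = P (x.1 + t • x.2)) :
    Fintype.card V * (Fintype.card F * Fintype.card F) ≤ 2 ^ (κ + 3) *
      cnt fun r : V × F × F => r.2.1 ≠ r.2.2 ∧
        Fintype.card V ≤ 2 ^ (κ + 1) * (cnt fun x : V =>
          (T (r.1 - r.2.1 • (r.2.2 - r.2.1)⁻¹ • (x - r.1)) ((r.2.2 - r.2.1)⁻¹ • (x - r.1))).eval
            r.2.1 = P r.1 ∧
          (T (r.1 - r.2.1 • (r.2.2 - r.2.1)⁻¹ • (x - r.1)) ((r.2.2 - r.2.1)⁻¹ • (x - r.1))).eval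
            r.2.2 = P x) ∧
        Fintype.card F * (cnt fun x : V =>
          (T (r.1 - r.2.1 • (r.2.2 - r.2.1)⁻¹ • (x - r.1)) ((r.2.2 - r.2.1)⁻¹ • (x - r.1))).eval
            r.2.1 = P r.1 ∧
          (T (r.1 - r.2.1 • (r.2.2 - r.2.1)⁻¹ • (x - r.1)) ((r.2.2 - r.2.1)⁻¹ • (x - r.1))).eval
            r.2.2 ≠ P x) ≤ 2 ^ (κ + 3) * D * Fintype.card V := by
  classical
  have h' := part1 P T hD hT hP κ (by rw [cnt_eq]; exact h)
  simp only [cnt_eq] at h'
  exact h'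

theorem part2' {F V : Type} [Field F] [Fintype F] [AddCommGroup V] [Module F V] [Fintype V]
    (Rt Wr : V → Prop) (S : Finset F) (h0 : (0 : F) ∉ S) {κ w' : ℕ}
    (hS : S.card = 2 ^ (κ + w' + 6))
    (hR : Fintype.card V ≤ 2 ^ (κ + 1) * cnt Rt)
    (hW : Fintype.card F * cnt Wr ≤ 2 ^ (κ + 3) * 2 ^ w' * Fintype.card V)
    (hF : 2 ^ (2 * κ + 2 * w' + 12) ≤ Fintype.card F) (x : V) :
    3 * (Fintype.card V * Fintype.card V) ≤ 4 * cnt fun y : V × V =>
      (∀ t ∈ S, ¬ Wr (x + t • y.1 + (t * t) • y.2)) ∧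
        ∃ S' ⊆ S, 2 ^ (w' + 4) ≤ S'.card ∧ ∀ t ∈ S', Rt (x + t • y.1 + (t * t) • y.2) := by
  classical
  have h' := part2 Rt Wr S h0 hS (by rw [cnt_eq]; exact hR) (by rw [cnt_eq]; exact hW) hF x
  rw [cnt_eq] at h'
  refine h'.trans (Nat.mul_le_mul_left _ (cnt_mono fun y hy => ?_))
  exact ⟨hy.1, _, Finset.filter_subset _ _, hy.2, fun t ht => (Finset.mem_filter.mp ht).2⟩

theorem cnt_pt {q d : ℕ} [Fact q.Prime] {φ : (Fin d → ZMod q) → Prop} {ψ : ℕ → Prop}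
    [DecidablePred ψ] (h : ∀ x < q ^ d, ψ x ↔ φ (pt q d x)) :
    ((Finset.range (q ^ d)).filter ψ).card = cnt φ := by
  classical
  have h1 := card_pt φ
  rw [cnt_eq] at h1
  rw [← h1]
  refine congrArg Finset.card (Finset.filter_congr fun x hx => ?_)
  exact h x (Finset.mem_range.mp hx)

theorem cnt_pt2 {q d : ℕ} [Fact q.Prime] {φ : (Fin d → ZMod q) → (Fin d → ZMod q) → Prop}
    {ψ : ℕ → Prop} [DecidablePred ψ]
    (h : ∀ x < q ^ d * q ^ d, ψ x ↔ φ (pt q d (x % q ^ d)) (pt q d (x / q ^ d))) :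
    ((Finset.range (q ^ d * q ^ d)).filter ψ).card =
      cnt fun w : (Fin d → ZMod q) × (Fin d → ZMod q) => φ w.1 w.2 := by
  classical
  have h1 := card_pt2 φ
  rw [cnt_eq] at h1
  rw [← h1]
  refine congrArg Finset.card (Finset.filter_congr fun x hx => ?_)
  exact h x (Finset.mem_range.mp hx)

variable {q : ℕ}

/-- the number of a point -/
noncomputable def num (q d : ℕ) (w : Fin d → ZMod q) : ℕ := by
  classical
  exact if h : ∃ Z, Z < q ^ d ∧ pt q d Z = w then Classical.choose h else 0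

theorem num_spec {d : ℕ} (hq : 0 < q) (w : Fin d → ZMod q) :
    num q d w < q ^ d ∧ pt q d (num q d w) = w := by
  classical
  have h : ∃ Z, Z < q ^ d ∧ pt q d Z = w := by
    obtain ⟨Z, h1, h2⟩ := pt_surj hq w
    exact ⟨Z, h1, h2⟩
  have h2 : num q d w = Classical.choose h := by
    unfold num
    rw [dif_pos h]
  rw [h2]
  exact Classical.choose_spec h

theorem num_pt {d : ℕ} (hq : 0 < q) {Z : ℕ} (hZ : Z < q ^ d) : num q d (pt q d Z) = Z :=
  pt_inj hq (num_spec hq _).1 hZ (num_spec hq _).2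

theorem dg_mod_eq (hq : 0 < q) (Z j : ℕ) : dg q Z j % q = dg q Z j :=
  Nat.mod_eq_of_lt (dg_lt hq _ _)

theorem cast_sub_dg {a : ℕ} (ha : a ≤ q) : (((q - a : ℕ)) : ZMod q) = - (a : ZMod q) := by
  rw [Nat.cast_sub ha, ZMod.natCast_self, zero_sub]

theorem not_dvd_dif {τ₀ τ₁ : ℕ} (h₀ : τ₀ < q) (h₁ : τ₁ < q) (hne : τ₀ ≠ τ₁) :
    ¬ q ∣ τ₁ + (q - τ₀) := by
  rintro ⟨c, hc⟩
  rcases Nat.lt_or_ge τ₁ τ₀ with h | h
  · have h1 : 0 < τ₁ + (q - τ₀) := by omega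
    have h2 : τ₁ + (q - τ₀) < q := by omega
    rcases Nat.eq_zero_or_pos c with h3 | h3
    · rw [h3] at hc
      omega
    · have := Nat.le_mul_of_pos_right q h3
      omega
  · have h1 : q < τ₁ + (q - τ₀) := by omega
    have h2 : τ₁ + (q - τ₀) < q * 2 := by omega
    rw [hc] at h1 h2
    have h3 : c < 2 := Nat.lt_of_mul_lt_mul_left h2
    have h4 : 1 < c := by
      by_contra h5
      have : q * c ≤ q * 1 := Nat.mul_le_mul_left _ (by omega)
      omega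
    omega

theorem pt_ldir {q : ℕ} [Fact q.Prime] (d x₀ x : ℕ) {τ₀ τ₁ : ℕ} (h₀ : τ₀ < q) (h₁ : τ₁ < q)
    (hne : τ₀ ≠ τ₁) : pt q d (ldir q d x₀ τ₀ τ₁ x) =
      ((τ₁ : ZMod q) - (τ₀ : ZMod q))⁻¹ • (pt q d x - pt q d x₀) := by
  have hq : 0 < q := (Fact.out : q.Prime).pos
  funext j
  simp only [pt, ldir, Pi.smul_apply, Pi.sub_apply, smul_eq_mul]
  rw [dg_dpsum (fun j => ((dg q x j + (q - dg q x₀ j)) * inv q (τ₁ + (q - τ₀))) % q)
    (fun _ _ => Nat.mod_lt _ hq) j.2, ZMod.natCast_mod, Nat.cast_mul,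
    cast_inv (not_dvd_dif h₀ h₁ hne), Nat.cast_add, Nat.cast_add, cast_sub_dg h₀.le,
    cast_sub_dg (dg_lt hq _ _).le]
  ring

theorem pt_lbas {q : ℕ} [Fact q.Prime] (d x₀ x : ℕ) {τ₀ τ₁ : ℕ} (h₀ : τ₀ < q) (h₁ : τ₁ < q)
    (hne : τ₀ ≠ τ₁) : pt q d (lbas q d x₀ τ₀ τ₁ x) = pt q d x₀ - (τ₀ : ZMod q) •
      ((τ₁ : ZMod q) - (τ₀ : ZMod q))⁻¹ • (pt q d x - pt q d x₀) := by
  have hq : 0 < q := (Fact.out : q.Prime).pos
  unfold lbas
  rw [pt_lp hq, pt_ldir d x₀ x h₀ h₁ hne, cast_sub_dg h₀.le, neg_smul]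
  exact (sub_eq_add_neg _ _).symm

theorem cpt_lt {q : ℕ} (hq : 0 < q) (d w y z v t : ℕ) : cpt q d w y z v t < q ^ d :=
  dpsum_lt (fun j => (dgt w y j + t * dg q z j + t * t * dg q v j) % q)
    fun _ _ => Nat.mod_lt _ hq

theorem pt_cpt {q : ℕ} (hq : 0 < q) (d w y z v t : ℕ) :
    pt q d (cpt q d w y z v t) = (fun j : Fin d => ((dgt w y j : ℕ) : ZMod q)) +
      ((t : ℕ) : ZMod q) • pt q d z + (((t : ℕ) : ZMod q) * ((t : ℕ) : ZMod q)) • pt q d v := by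
  funext j
  simp only [pt, cpt, Pi.add_apply, Pi.smul_apply, smul_eq_mul]
  rw [dg_dpsum (fun j => (dgt w y j + t * dg q z j + t * t * dg q v j) % q)
    (fun _ _ => Nat.mod_lt _ hq) j.2, ZMod.natCast_mod]
  push_cast
  rfl

theorem lt_two_pow_w {d w w' : ℕ} (hw' : d * 2 ^ w < 2 ^ w') : 2 * (d * 2 ^ w) < 2 ^ (w' + 4) := by
  rw [pow_add]
  omega

open Classical in
/-- on a good curve the interpolation gives the message -/
theorem itp_good {q d w w' m : ℕ} (hqp : q.Prime) (hm : m < q) (hw' : d * 2 ^ w < 2 ^ w')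
    (hw : 2 ^ w ≤ q) (f : ℕ → Prop) (D : ℕ → Prop) (g : ℕ → ℕ) {y : ℕ} (hy : y < 2 ^ (w * d))
    (z v : ℕ)
    (h1 : ∀ t < m, D (cpt q d w y z v (t + 1)) →
      g (cpt q d w y z v (t + 1)) = lq q d w f (cpt q d w y z v (t + 1)))
    (h2 : 2 ^ (w' + 4) ≤ ((Finset.range m).filter fun t => D (cpt q d w y z v (t + 1))).card) :
    itp q m (fun t => D (cpt q d w y z v (t + 1))) (fun t => g (cpt q d w y z v (t + 1))) =
      if f y then 1 else 0 := by
  have : Fact q.Prime := ⟨hqp⟩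
  obtain ⟨h, hdeg, hev⟩ := exV_curve (p := q) w d f (fun j : Fin d => ((dgt w y j : ℕ) : ZMod q))
    (pt q d z) (pt q d v)
  have h3 := itp_eq hm (fun t => D (cpt q d w y z v (t + 1)))
    (fun t => g (cpt q d w y z v (t + 1))) h (fun t ht hD => by
      rw [h1 t ht hD, cast_lqV hw, hev, pt_cpt hqp.pos])
    (lt_of_le_of_lt hdeg ((lt_two_pow_w hw').trans_le h2))
  have h4 := hev 0
  rw [zero_smul, zero_mul, zero_smul, add_zero, add_zero, exV_msg hw d f hy] at h4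
  rw [h4] at h3
  have h5 : ((itp q m (fun t => D (cpt q d w y z v (t + 1)))
      (fun t => g (cpt q d w y z v (t + 1))) : ℕ) : ZMod q) = ((if f y then 1 else 0 : ℕ) : ZMod q) := by
    rw [h3]
    split_ifs <;> simp
  rw [ZMod.natCast_eq_natCast_iff', Nat.mod_eq_of_lt (itp_lt hqp.pos _ _ _)] at h5
  rw [h5]
  refine Nat.mod_eq_of_lt ?_
  split_ifs
  · exact hqp.one_lt
  · exact hqp.pos

open Classical in
theorem cdec_iff {q d w w' κ : ℕ} (hq : q.Prime) (hqb : 2 ^ (2 * κ + 2 * w' + 12) ≤ q)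
    (hw' : d * 2 ^ w < 2 ^ w') (hw : 2 ^ w ≤ q) (f : ℕ → Prop) (D : ℕ → Prop) (g : ℕ → ℕ)
    (hR : q ^ d ≤ 2 ^ (κ + 1) *
      ((Finset.range (q ^ d)).filter fun x => D x ∧ g x = lq q d w f x).card)
    (hW : q * ((Finset.range (q ^ d)).filter fun x => D x ∧ g x ≠ lq q d w f x).card ≤
      2 ^ (κ + 3) * 2 ^ w' * q ^ d) {y : ℕ} (hy : y < 2 ^ (w * d)) :
    cdec q d w (2 ^ (κ + w' + 6)) D g y ↔ f y := by
  have : Fact q.Prime := ⟨hq⟩
  have hq0 := hq.pos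
  have hP0 : 0 < q ^ d := pow_pos hq0 d
  set m := 2 ^ (κ + w' + 6) with hm
  have hmq : m < q := by
    refine lt_of_lt_of_le ?_ hqb
    exact Nat.pow_lt_pow_right (by norm_num) (by omega)
  have hcV : Fintype.card (Fin d → ZMod q) = q ^ d := by
    rw [Fintype.card_fun, ZMod.card, Fintype.card_fin]
  have hcF : Fintype.card (ZMod q) = q := ZMod.card q
  obtain ⟨Rt, hRt⟩ : ∃ Rt : (Fin d → ZMod q) → Prop, ∀ w₁, Rt w₁ ↔
    (D (num q d w₁) ∧ g (num q d w₁) = lq q d w f (num q d w₁)) := ⟨_, fun _ => Iff.rfl⟩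
  obtain ⟨Wr, hWr⟩ : ∃ Wr : (Fin d → ZMod q) → Prop, ∀ w₁, Wr w₁ ↔
    (D (num q d w₁) ∧ g (num q d w₁) ≠ lq q d w f (num q d w₁)) := ⟨_, fun _ => Iff.rfl⟩
  rw [cnt_pt (φ := Rt) fun x hx => by rw [hRt, num_pt hq0 hx]] at hR
  rw [cnt_pt (φ := Wr) fun x hx => by rw [hWr, num_pt hq0 hx]] at hW
  obtain ⟨S, hS⟩ : ∃ S : Finset (ZMod q), S = (Finset.range m).image fun t : ℕ => ((t + 1 : ℕ) : ZMod q) :=
    ⟨_, rfl⟩
  have hinj : Set.InjOn (fun t : ℕ => ((t + 1 : ℕ) : ZMod q)) (Finset.range m) := by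
    intro t ht u hu h
    simp only [Finset.coe_range, Set.mem_Iio] at ht hu
    have h : ((t + 1 : ℕ) : ZMod q) = ((u + 1 : ℕ) : ZMod q) := h
    rw [ZMod.natCast_eq_natCast_iff', Nat.mod_eq_of_lt (by omega), Nat.mod_eq_of_lt (by omega)] at h
    omega
  have hScard : S.card = 2 ^ (κ + w' + 6) := by
    rw [hS, Finset.card_image_of_injOn hinj, Finset.card_range]
  have hS0 : (0 : ZMod q) ∉ S := by
    intro h
    rw [hS, Finset.mem_image] at h
    obtain ⟨t, ht, h⟩ := h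
    rw [Finset.mem_range] at ht
    have h1 : ((t + 1 : ℕ) : ZMod q) = ((0 : ℕ) : ZMod q) := by rw [h, Nat.cast_zero]
    rw [ZMod.natCast_eq_natCast_iff', Nat.mod_eq_of_lt (by omega), Nat.zero_mod] at h1
    omega
  have key := part2' Rt Wr S hS0 hScard (by rw [hcV]; exact hR)
    (by rw [hcV, hcF]; exact hW) (by rw [hcF]; exact hqb)
    (fun j : Fin d => ((dgt w y j : ℕ) : ZMod q))
  rw [hcV] at key
  obtain ⟨φ, hφ⟩ : ∃ φ : (Fin d → ZMod q) → (Fin d → ZMod q) → Prop, ∀ z v, φ z v ↔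
    ((∀ t ∈ S, ¬ Wr ((fun j : Fin d => ((dgt w y j : ℕ) : ZMod q)) + t • z + (t * t) • v)) ∧
      ∃ S' ⊆ S, 2 ^ (w' + 4) ≤ S'.card ∧ ∀ t ∈ S',
        Rt ((fun j : Fin d => ((dgt w y j : ℕ) : ZMod q)) + t • z + (t * t) • v)) :=
    ⟨_, fun _ _ => Iff.rfl⟩
  have key2 : 3 * (q ^ d * q ^ d) ≤ 4 * ((Finset.range (q ^ d * q ^ d)).filter fun x =>
      φ (pt q d (x % q ^ d)) (pt q d (x / q ^ d))).card := by
    rw [cnt_pt2 (φ := φ) fun x _ => Iff.rfl]
    refine key.trans (Nat.mul_le_mul_left _ (cnt_mono fun y hy => ?_))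
    exact (hφ _ _).mpr hy
  clear key
  have hcp : ∀ z v t : ℕ, num q d ((fun j : Fin d => ((dgt w y j : ℕ) : ZMod q)) +
      ((t + 1 : ℕ) : ZMod q) • pt q d z + (((t + 1 : ℕ) : ZMod q) * ((t + 1 : ℕ) : ZMod q)) •
        pt q d v) = cpt q d w y z v (t + 1) := by
    intro z v t
    rw [← pt_cpt hq0, num_pt hq0 (cpt_lt hq0 _ _ _ _ _ _)]
  have hgood : ∀ z v : ℕ, φ (pt q d z) (pt q d v) →
      itp q m (fun t => D (cpt q d w y z v (t + 1))) (fun t => g (cpt q d w y z v (t + 1))) =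
        if f y then 1 else 0 := by
    intro z v hzv
    obtain ⟨g1, S', hS', g2, g5⟩ := (hφ _ _).mp hzv
    have g3 : ∀ t < m, D (cpt q d w y z v (t + 1)) →
        g (cpt q d w y z v (t + 1)) = lq q d w f (cpt q d w y z v (t + 1)) := by
      intro t ht hD
      by_contra hne
      refine g1 ((t + 1 : ℕ) : ZMod q) ?_ ?_
      · rw [hS]
        exact Finset.mem_image.mpr ⟨t, Finset.mem_range.mpr ht, rfl⟩
      · rw [hWr, hcp]
        exact ⟨hD, hne⟩
    refine itp_good hq hmq hw' hw f D g hy z v g3 (g2.trans ?_)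
    have g4 : S' ⊆ ((Finset.range m).filter fun t => D (cpt q d w y z v (t + 1))).image
          fun t : ℕ => ((t + 1 : ℕ) : ZMod q) := by
      intro t ht
      have ht1 := hS' ht
      rw [hS, Finset.mem_image] at ht1
      obtain ⟨u, hu, rfl⟩ := ht1
      have ht2 := g5 _ ht
      rw [hRt, hcp] at ht2
      exact Finset.mem_image.mpr ⟨u, Finset.mem_filter.mpr ⟨hu, ht2.1⟩, rfl⟩
    exact (Finset.card_le_card g4).trans Finset.card_image_le
  unfold cdec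
  obtain ⟨ψ, hψ⟩ : ∃ ψ : ℕ → Prop, ∀ x, ψ x ↔
      itp q m (fun t => D (cpt q d w y (x % q ^ d) (x / q ^ d) (t + 1)))
            (fun t => g (cpt q d w y (x % q ^ d) (x / q ^ d) (t + 1))) = 1 := ⟨_, fun _ => Iff.rfl⟩
  have hψ2 : ((Finset.range (q ^ d * q ^ d)).filter fun x =>
      itp q m (fun t => D (cpt q d w y (x % q ^ d) (x / q ^ d) (t + 1)))
            (fun t => g (cpt q d w y (x % q ^ d) (x / q ^ d) (t + 1))) = 1) =
      (Finset.range (q ^ d * q ^ d)).filter ψ := Finset.filter_congr fun x _ => (hψ x).symm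
  rw [hψ2]
  by_cases hf : f y
  · simp only [hf, iff_true]
    have h1 : ((Finset.range (q ^ d * q ^ d)).filter fun x =>
        φ (pt q d (x % q ^ d)) (pt q d (x / q ^ d))) ⊆
        (Finset.range (q ^ d * q ^ d)).filter ψ := by
      intro x hx
      rw [Finset.mem_filter] at hx ⊢
      refine ⟨hx.1, ?_⟩
      rw [hψ, hgood _ _ hx.2, if_pos hf]
    have h2 := Finset.card_le_card h1
    have h3 : 0 < q ^ d * q ^ d := Nat.mul_pos hP0 hP0
    omega
  · simp only [hf, iff_false, not_lt]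
    have h1 : (Finset.range (q ^ d * q ^ d)).filter ψ ⊆
        (Finset.range (q ^ d * q ^ d)).filter fun x =>
          ¬ φ (pt q d (x % q ^ d)) (pt q d (x / q ^ d)) := by
      intro x hx
      rw [Finset.mem_filter] at hx ⊢
      refine ⟨hx.1, fun hφx => ?_⟩
      have := hgood _ _ hφx
      rw [(hψ x).mp hx.2, if_neg hf] at this
      exact one_ne_zero this
    have h2 := Finset.card_le_card h1
    have h3 := Finset.card_filter_add_card_filter_not (s := Finset.range (q ^ d * q ^ d))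
      fun x => φ (pt q d (x % q ^ d)) (pt q d (x / q ^ d))
    rw [Finset.card_range] at h3
    omega

open Classical in
theorem table_ok {q d w w' β κ : ℕ} (hq : q.Prime) (hβ : q < 2 ^ β)
    (hqb : 2 ^ (2 * κ + 2 * w' + 12) ≤ q) (hd : 1 ≤ d) (hw' : d * 2 ^ w < 2 ^ w') (hw : 2 ^ w ≤ q)
    (f : ℕ → Prop) (B : ℕ → ℕ → ℕ → Prop)
    (hB : q ^ d * q ^ d ≤ 2 ^ κ * ((Finset.range (q ^ d * q ^ d)).filter fun x =>
      ∀ i < 2 ^ w' * β, (B (x % q ^ d) (x / q ^ d) i ↔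
        tup q d w w' f (x % q ^ d) (x / q ^ d) i)).card) :
    q ^ d * q * q ≤ 2 ^ (κ + 3) * ((Finset.range (q ^ d * q * q)).filter fun r =>
      ∀ y < 2 ^ (w * d), (cdec q d w (2 ^ (κ + w' + 6))
        (gdef q d β w' B (r % q ^ d) (r / q ^ d % q) (r / q ^ d / q % q)
          (lq q d w f (r % q ^ d)))
        (gval q d β w' B (r % q ^ d) (r / q ^ d % q) (r / q ^ d / q % q)) y ↔ f y)).card := by
  have : Fact q.Prime := ⟨hq⟩
  have hq0 := hq.pos
  have hP0 : 0 < q ^ d := pow_pos hq0 d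
  have hw'q : 2 ^ w' ≤ q := (Nat.pow_le_pow_right (by norm_num) (by omega)).trans hqb
  have hcV : Fintype.card (Fin d → ZMod q) = q ^ d := by
    rw [Fintype.card_fun, ZMod.card, Fintype.card_fin]
  have hcF : Fintype.card (ZMod q) = q := ZMod.card q
  have h2w : 1 ≤ 2 ^ w := Nat.one_le_two_pow
  have hD1 : 1 ≤ 2 ^ w' - 1 := by
    have : 1 ≤ d * 2 ^ w := Nat.mul_pos hd h2w
    omega
  choose Tp hT1 hT2 hT3 using fun b : ℕ → Prop => teval_poly (q := q) hw'q β b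
  obtain ⟨T, hT⟩ : ∃ T : (Fin d → ZMod q) → (Fin d → ZMod q) → (ZMod q)[X], ∀ z v,
    T z v = Tp (B (num q d z) (num q d v)) := ⟨_, fun _ _ => rfl⟩
  -- the hypothesis
  have hlines : q ^ d * q ^ d ≤ 2 ^ κ * cnt
      fun x : (Fin d → ZMod q) × (Fin d → ZMod q) =>
        ∀ t : ZMod q, (T x.1 x.2).eval t = exV q w d f (x.1 + t • x.2) := by
    refine hB.trans (Nat.mul_le_mul_left _ ?_)
    rw [← cnt_pt2 (φ := fun z v => ∀ t : ZMod q, (T z v).eval t = exV q w d f (z + t • v))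
      fun x _ => Iff.rfl]
    refine Finset.card_le_card fun x hx => ?_
    rw [Finset.mem_filter] at hx ⊢
    refine ⟨hx.1, fun t => ?_⟩
    have hx1 := Finset.mem_range.mp hx.1
    have hz : x % q ^ d < q ^ d := Nat.mod_lt _ hP0
    have hv : x / q ^ d < q ^ d := Nat.div_lt_of_lt_mul hx1
    rw [hT, num_pt hq0 hz, num_pt hq0 hv]
    have h1 := hT2 (B (x % q ^ d) (x / q ^ d)) t.val
    rw [ZMod.natCast_zmod_val] at h1
    rw [h1, teval_tup hq hβ hw'q hw hw' f _ _ _ hx.2, cast_lqV hw, pt_lp hq0,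
      ZMod.natCast_zmod_val]
  have key := part1' (exV q w d f) T hD1 (fun z v => by
      rw [hT]
      exact Nat.le_sub_one_of_lt (hT1 _)) (fun z v => by
    obtain ⟨g, hg1, hg2⟩ := exV_line (p := q) w d f z v
    exact ⟨g, by omega, hg2⟩) κ (by rw [hcV]; exact hlines)
  rw [hcV, hcF] at key
  have e0 : q ^ d * q * q = q ^ d * (q * q) := by ring
  rw [e0]
  refine key.trans (Nat.mul_le_mul_left _ ?_)
  clear key hlines hB
  refine cnt_le_card
    (fun r => num q d r.1 + q ^ d * (r.2.1.val + q * r.2.2.val)) ?_ ?_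
  · rintro ⟨x₀, τ₀, τ₁⟩ hr
    obtain ⟨hne, h1, h2⟩ := hr
    simp only at hne h1 h2 ⊢
    rw [Finset.mem_filter]
    set X₀ := num q d x₀ with hX₀
    have hX₀lt : X₀ < q ^ d := (num_spec hq0 _).1
    have hX₀pt : pt q d X₀ = x₀ := (num_spec hq0 _).2
    have ht₀ : τ₀.val < q := ZMod.val_lt _
    have ht₁ : τ₁.val < q := ZMod.val_lt _
    have hne' : τ₀.val ≠ τ₁.val := fun h => hne (ZMod.val_injective q h)
    have c₀ : ((τ₀.val : ℕ) : ZMod q) = τ₀ := ZMod.natCast_zmod_val _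
    have c₁ : ((τ₁.val : ℕ) : ZMod q) = τ₁ := ZMod.natCast_zmod_val _
    have a1 : (X₀ + q ^ d * (τ₀.val + q * τ₁.val)) % q ^ d = X₀ := by
      rw [Nat.add_mul_mod_self_left, Nat.mod_eq_of_lt hX₀lt]
    have a2 : (X₀ + q ^ d * (τ₀.val + q * τ₁.val)) / q ^ d = τ₀.val + q * τ₁.val := by
      rw [Nat.add_mul_div_left _ _ hP0, Nat.div_eq_of_lt hX₀lt, zero_add]
    have a3 : (τ₀.val + q * τ₁.val) % q = τ₀.val := by
      rw [Nat.add_mul_mod_self_left, Nat.mod_eq_of_lt ht₀]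
    have a4 : (τ₀.val + q * τ₁.val) / q % q = τ₁.val := by
      rw [Nat.add_mul_div_left _ _ hq0, Nat.div_eq_of_lt ht₀, zero_add, Nat.mod_eq_of_lt ht₁]
    have a5 : X₀ + q ^ d * (τ₀.val + q * τ₁.val) < q ^ d * (q * q) := by
      have b1 : τ₀.val + q * τ₁.val + 1 ≤ q * q := by
        have : q * (τ₁.val + 1) ≤ q * q := Nat.mul_le_mul_left _ ht₁
        rw [Nat.mul_add, mul_one] at this
        omega
      have b2 := Nat.mul_le_mul_left (q ^ d) b1
      rw [Nat.mul_add, mul_one] at b2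
      omega
    refine ⟨Finset.mem_range.mpr a5, ?_⟩
    rw [a1, a2, a3, a4]
    intro y hy
    -- the polynomial at a line through `x₀` and `x`
    have hTx : ∀ x : ℕ, T (x₀ - τ₀ • (τ₁ - τ₀)⁻¹ • (pt q d x - x₀))
        ((τ₁ - τ₀)⁻¹ • (pt q d x - x₀)) =
        Tp (B (lbas q d X₀ τ₀.val τ₁.val x) (ldir q d X₀ τ₀.val τ₁.val x)) := by
      intro x
      have b1 := pt_ldir (q := q) d X₀ x ht₀ ht₁ hne'
      have b2 := pt_lbas (q := q) d X₀ x ht₀ ht₁ hne'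
      rw [c₀, c₁, hX₀pt] at b1 b2
      rw [← b2, ← b1, hT, num_pt hq0, num_pt hq0]
      · exact dpsum_lt _ fun _ _ => Nat.mod_lt _ hq0
      · exact lp_lt hq0 _ _ _ _
    have hnat : ∀ a b : ℕ, a < q → b < q → ((a : ZMod q) = (b : ZMod q) ↔ a = b) := by
      intro a b ha hb
      rw [ZMod.natCast_eq_natCast_iff', Nat.mod_eq_of_lt ha, Nat.mod_eq_of_lt hb]
    have hdef : ∀ x : ℕ, (T (x₀ - τ₀ • (τ₁ - τ₀)⁻¹ • (pt q d x - x₀))
        ((τ₁ - τ₀)⁻¹ • (pt q d x - x₀))).eval τ₀ = exV q w d f x₀ ↔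
        gdef q d β w' B X₀ τ₀.val τ₁.val (lq q d w f X₀) x := by
      intro x
      have b1 := hT2 (B (lbas q d X₀ τ₀.val τ₁.val x) (ldir q d X₀ τ₀.val τ₁.val x)) τ₀.val
      rw [c₀] at b1
      have b2 := cast_lqV (p := q) hw d f X₀
      rw [hX₀pt] at b2
      rw [hTx, b1, ← b2, hnat _ _ (teval_lt hq0 _ _ _ _) (lq_lt hq0 _ _ _ _)]
      rfl
    have hval : ∀ x : ℕ, (T (x₀ - τ₀ • (τ₁ - τ₀)⁻¹ • (pt q d x - x₀))
        ((τ₁ - τ₀)⁻¹ • (pt q d x - x₀))).eval τ₁ = exV q w d f (pt q d x) ↔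
        gval q d β w' B X₀ τ₀.val τ₁.val x = lq q d w f x := by
      intro x
      have b1 := hT2 (B (lbas q d X₀ τ₀.val τ₁.val x) (ldir q d X₀ τ₀.val τ₁.val x)) τ₁.val
      rw [c₁] at b1
      rw [hTx, b1, ← cast_lqV hw, hnat _ _ (teval_lt hq0 _ _ _ _) (lq_lt hq0 _ _ _ _)]
      rfl
    refine cdec_iff hq hqb hw' hw f _ _ ?_ ?_ hy
    · rw [cnt_pt (φ := fun x : Fin d → ZMod q =>
        (T (x₀ - τ₀ • (τ₁ - τ₀)⁻¹ • (x - x₀)) ((τ₁ - τ₀)⁻¹ • (x - x₀))).eval τ₀ = exV q w d f x₀ ∧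
        (T (x₀ - τ₀ • (τ₁ - τ₀)⁻¹ • (x - x₀)) ((τ₁ - τ₀)⁻¹ • (x - x₀))).eval τ₁ = exV q w d f x)
        fun x _ => (and_congr (hdef x) (hval x)).symm]
      exact h1
    · rw [cnt_pt (φ := fun x : Fin d → ZMod q =>
        (T (x₀ - τ₀ • (τ₁ - τ₀)⁻¹ • (x - x₀)) ((τ₁ - τ₀)⁻¹ • (x - x₀))).eval τ₀ = exV q w d f x₀ ∧
        (T (x₀ - τ₀ • (τ₁ - τ₀)⁻¹ • (x - x₀)) ((τ₁ - τ₀)⁻¹ • (x - x₀))).eval τ₁ ≠ exV q w d f x)
        fun x _ => (and_congr (hdef x) (not_congr (hval x))).symm]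
      refine h2.trans ?_
      exact Nat.mul_le_mul_right _ (Nat.mul_le_mul_left _ (Nat.sub_le _ _))
  · rintro ⟨x₀, τ₀, τ₁⟩ ⟨x₀', τ₀', τ₁'⟩ - - h
    simp only at h
    have b0 := (num_spec hq0 x₀).1
    have b0' := (num_spec hq0 x₀').1
    have b1 := congrArg (· % q ^ d) h
    have b2 := congrArg (· / q ^ d) h
    simp only [Nat.add_mul_mod_self_left, Nat.mod_eq_of_lt b0, Nat.mod_eq_of_lt b0'] at b1
    simp only [Nat.add_mul_div_left _ _ hP0, Nat.div_eq_of_lt b0, Nat.div_eq_of_lt b0',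
      zero_add] at b2
    have t0 : τ₀.val < q := ZMod.val_lt _
    have t0' : τ₀'.val < q := ZMod.val_lt _
    have b3 := congrArg (· % q) b2
    have b4 := congrArg (· / q) b2
    simp only [Nat.add_mul_mod_self_left, Nat.mod_eq_of_lt t0, Nat.mod_eq_of_lt t0'] at b3
    simp only [Nat.add_mul_div_left _ _ hq0, Nat.div_eq_of_lt t0, Nat.div_eq_of_lt t0',
      zero_add] at b4
    have b5 := congrArg (pt q d) b1
    rw [(num_spec hq0 x₀).2, (num_spec hq0 x₀').2] at b5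
    rw [b5, ZMod.val_injective q b3, ZMod.val_injective q b4]

end LSA
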